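import Pool.Agent.Lib.MP_5c0be7_lc.F.Tree

/-!
Project KM, block F8: statements on iteration trees and comparison.
-/

namespace Pool.Agent.KM

open Ordinal Tr

universe u

/-- Facts on single extenders, ultrapowers and limits used by block F8. -/
class ActSt : Prop where
  top : ∀ {E : Seq.{u}} {v k t e}, LS E v → Act E v k t e → TopC E (e k) v
  card : ∀ {E : Seq.{u}} {v k t e}, LS E v → Act E v k t e → IsCard E v (e k)
  lt : ∀ {E : Seq.{u}} {v k t e}, LS E v → Act E v k t e → t < e k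
  proj : ∀ {E : Seq.{u}} {v k t e}, LS E (v + 1) → Act E v k t e → rho E (v + 1) ≤ e k

/-- Fragments of an extender that is not the top one witness strongness; smallness goes up. -/
class FragSt : Prop where
  strong : ∀ {E : Seq.{u}} {b v k t e g}, PM0 E (b + 1) → v < b → Act E v k t e →
    IsCard E (b + 1) g → t < g → g ≤ e k → StrongTo E g k
  small : ∀ {E : Seq.{u}} {v k t e m}, PM0 E v → Act E v k t e → Small E k → k ≤ m → m < e k →
    ¬ StrongTo E (e k) m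
  congr : ∀ {E E' : Seq.{u}} {d k}, Agree E E' d → StrongTo E d k → StrongTo E' d k

/-- Existence of ultrapowers and direct limits of small premice. -/
class UltExSt : Prop where
  ult : ∀ {E E' : Seq.{u}} {b v k t e}, PM E (b + 1) → PM E' v → Act E' v k t e → Agree E E' t →
    t ≤ b → NoProj E k t (b + 1) → Pas E t → WellFounded (ULt E (b + 1) k t E' e) →
    ∃ E1 i, IsUlt E b k E1 i ∧ PM E1 (i b + 1) ∧ (∀ x < t, i x = e x) ∧ i t = v ∧ Agree E1 E' v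
  lim : ∀ {J : Type (u + 1)} [LinearOrder J] [Nonempty J] [_root_.Small.{u} J] (E : J → Seq.{u})
    (b : J → Ordinal.{u}) (p : J → J → Ordinal.{u} → Ordinal.{u})
    (r : J → Ordinal.{u} → Ordinal.{u}), (∀ j, PM (E j) (b j + 1)) →
    (∀ i j, i ≤ j → Strong (E i) (b i + 1) (E j) (b j + 1) (p i j)) →
    (∀ i j k, i ≤ j → j ≤ k → ∀ x ≤ b i, p j k (p i j x) = p i k x) →
    (∀ j, StrictMonoOn (r j) (Set.Iic (b j))) →
    (∀ i j, i ≤ j → ∀ x ≤ b i, r j (p i j x) = r i x) →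
    ∃ E' b' m, IsLim (· ≤ ·) E b E' b' p m ∧ PM E' (b' + 1)

/-- Absence of overlapping extenders goes up along strong maps. -/
class CutSt : Prop where
  up : ∀ {E E' : Seq.{u}} {b s g}, PM0 E (b + 1) → PM0 E' (s b + 1) →
    Strong E (b + 1) E' (s b + 1) s → g ≤ b → (∀ x < g, s x = x) →
    (∀ v k t e, g ≤ v → v ≤ b → Act E v k t e → g ≤ k) →
    ∀ v k t e, s g ≤ v → v ≤ s b → Act E' v k t e → g ≤ k

/-- Compatible extenders without cutpoints are equal. -/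
class CompatSt : Prop where
  eq : ∀ {E E' : Seq.{u}} {v v' k t e e'}, LS E v → LS E' v' → Act E v k t e → Act E' v' k t e' →
    e k ≤ e' k →
    (∀ X a, In t X → In (e k) a → (Nm E (X.map e) a ↔ Nm E' (X.map e') a)) →
    Agree E E' t → v = v' ∧ E v = E' v'

/-- Structure of iteration trees: agreement, applicability, almost linearity. -/
class TreeSt : Prop where
  pm : ∀ {T : IT.{u}} {l j}, T.IsTr l → j ≤ l → PM (T.E j) (T.b j + 1)
  la_mono : ∀ {T : IT.{u}} {l i j}, T.IsTr l → i ≤ j → j < l → T.la i ≤ T.la j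
  la_le : ∀ {T : IT.{u}} {l i j}, T.IsTr l → i < l → i ≤ j → j ≤ l → T.la i ≤ T.b j
  agree : ∀ {T : IT.{u}} {l i j}, T.IsTr l → i < j → j ≤ l → Agree (T.E i) (T.E j) (T.la i)
  card : ∀ {T : IT.{u}} {l i j}, T.IsTr l → i < j → j ≤ l → IsCard (T.E j) (T.b j + 1) (T.la i)
  strong : ∀ {T : IT.{u}} {l i j}, T.IsTr l → j ≤ l → T.ND i j →
    Strong (T.E i) (T.b i + 1) (T.E j) (T.b j + 1) (T.mp i j)
  comp : ∀ {T : IT.{u}} {l i j k}, T.IsTr l → k ≤ l → T.ND i j → T.ND j k →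
    ∀ x ≤ T.b i, T.mp j k (T.mp i j x) = T.mp i k x
  fix : ∀ {T : IT.{u}} {l m i j}, T.IsTr l → j ≤ l → T.ND i j → m < i →
    ∀ x < T.la m, T.mp i j x = x
  al : ∀ {T : IT.{u}} {j v k t e i}, T.IsTr j → T.Use j v k t e → T.n ≤ i → i < j →
    k < T.la i → k < T.ka i
  pred_ex : ∀ {T : IT.{u}} {j v k t e}, T.IsTr j → T.Use j v k t e → ∃ p s, T.Pred j k t p s
  pred_le : ∀ {T : IT.{u}} {j v k t e p s}, T.IsTr j → T.Use j v k t e → T.Pred j k t p s →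
    T.Le p j
  pred_agree : ∀ {T : IT.{u}} {j v k t e p s}, T.IsTr j → T.Use j v k t e → T.Pred j k t p s →
    Agree (T.E p) (T.E j) t ∧ Pas (T.E p) t ∧ (p < j → t ≤ T.la p)
  pred_ext : ∀ {T : IT.{u}} {j v k t e p s}, T.IsTr j → T.Use j v k t e → T.Pred j k t p s →
    Ext (T.E p) k t (T.E j) v e
  pred_ka : ∀ {T : IT.{u}} {j v k t e p s d}, T.IsTr j → T.Use j v k t e → T.Pred j k t p s →
    T.n ≤ d → p ≤ d → d < j → k < T.ka d ∧ t ≤ T.ka d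
  pred_card : ∀ {T : IT.{u}} {j v k t e p s m}, T.IsTr j → T.Use j v k t e → T.Pred j k t p s →
    p < m → m ≤ j → IsCard (T.E m) (T.b m + 1) t
  pred_st : ∀ {T : IT.{u}} {j v k t e p s}, T.IsTr j → T.Use j v k t e → T.Pred j k t p s →
    (p = j → v ≤ s) ∧ (T.n ≤ p → p < j → T.nu p ≤ s)
  cof : ∀ {T : IT.{u}} {c}, T.n < c → Order.IsSuccLimit c → (∀ j < c, T.n ≤ j → T.IsTr j) →
    ∀ a < c, ∃ m, a < m ∧ m < c ∧ T.Le m c
  next : ∀ {T : IT.{u}} {l i j}, T.IsTr l → j ≤ l → T.ND i j → i < j →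
    ∃ k, T.n ≤ k ∧ k < j ∧ T.pr k = i ∧ ¬ T.Drop k ∧ T.ND (k + 1) j
  last : ∀ {T : IT.{u}} {l j}, T.IsTr l → j ≤ l →
    (∃ r, T.Root r j ∧ T.ND r j) ∨ ∃ k, T.n ≤ k ∧ k < j ∧ T.Drop k ∧ T.ND (k + 1) j
  ind : ∀ {T : IT.{u}} {l i} (P : Ordinal.{u} → Prop), T.IsTr l → P i →
    (∀ k, T.n ≤ k → k < l → i ≤ k → T.ND i (k + 1) → T.ND i (T.pr k) → ¬ T.Drop k → P (T.pr k) →
      P (k + 1)) →
    (∀ c, Order.IsSuccLimit c → T.n < c → c ≤ l → i < c → T.ND i c →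
      (∀ m < c, i ≤ m → T.ND m c → P m) → P c) →
    ∀ j ≤ l, T.ND i j → P j
  nu_agree : ∀ {T : IT.{u}} {l i j}, T.IsTr l → T.Normal l → T.n ≤ i → i < j → j ≤ l →
    Agree (T.E i) (T.E j) (T.nu i) ∧ Pas (T.E j) (T.nu i) ∧ T.nu i ≤ T.b j ∧
      IsCard (T.E j) (T.b j + 1) (T.nu i)
  nu_le : ∀ {T : IT.{u}} {l i j}, T.IsTr l → T.Normal l → T.n ≤ i → i < j → j < l →
    T.nu i ≤ T.la j

/-- Iterability from well-foundedness. -/
class IterSt : Prop where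
  of_wf : ∀ {T : IT.{u}} {g}, T.Phal →
    (∀ (U : IT.{u}) j v k t e p s, T.EqLt U (T.n + 1) → U.IsTr j → U.Above g j →
      U.Use j v k t e → g ≤ k → U.Pred j k t p s →
      WellFounded (ULt (U.E p) (s + 1) k t (U.E j) e)) →
    (∀ (U : IT.{u}) c, T.EqLt U (T.n + 1) → T.n < c → Order.IsSuccLimit c →
      (∀ j < c, T.n ≤ j → U.IsTr j) → U.Above g c →
      (∃ m < c, U.ND m c) ∧ ∃ r : Ordinal.{u} → Ordinal.{u} → Ordinal.{u},
        (∀ i < c, U.ND i c → StrictMonoOn (r i) (Set.Iic (U.b i))) ∧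
        ∀ i j, i ≤ j → j < c → U.ND i c → U.ND j c → ∀ x ≤ U.b i, r j (U.mp i j x) = r i x) →
    T.Iterable g

/-- Comparison. -/
class CmpSt : Prop where
  compare : ∀ {F G : IT.{u}} {g g' h}, F.Iterable g → G.Iterable g' →
    Agree (F.E F.n) (G.E G.n) h → (∀ i < F.n, F.la i < h) → (∀ i < G.n, G.la i < h) →
    g ≤ h → g' ≤ h → (∀ i ≤ F.n, CutPt (F.E i) (F.b i) g) → (∀ i ≤ G.n, CutPt (G.E i) (G.b i) g') →
    ∃ (T : IT.{u}) (l : Ordinal.{u}) (U : IT.{u}) (m : Ordinal.{u}),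
      F.EqLt T (F.n + 1) ∧ G.EqLt U (G.n + 1) ∧ T.Coit l U m ∧ T.Above g l ∧ U.Above g' m ∧
      (∀ i, T.n ≤ i → i < l → h ≤ T.nu i) ∧ ∀ j, U.n ≤ j → j < m → h ≤ U.nu j
  ta_eq : ∀ {T U : IT.{u}} {l m i j}, T.Coit l U m → T.n ≤ i → i < l → U.n ≤ j → j < m →
    T.ka i = U.ka j → T.ta i = U.ta j
  nocomp : ∀ {T U : IT.{u}} {l m i j}, T.Coit l U m → T.n ≤ i → i < l → U.n ≤ j → j < m →
    T.ka i = U.ka j →
    ¬ ∀ X a, In (T.ta i) X → In (T.la i) a → In (U.la j) a →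
      (Nm (T.E i) (X.map (T.e i)) a ↔ Nm (U.E j) (X.map (U.e j)) a)
  nobranch : ∀ {T U : IT.{u}} {l m i j}, T.Coit l U m → T.n ≤ i → i < l → U.n ≤ j → j < m →
    T.ND (i + 1) l → U.ND (j + 1) m → T.ka i = U.ka j →
    ¬ ∀ X a, In (T.ta i) X → In (T.la i) a → In (U.la j) a →
      (Nm (T.E l) (X.map (T.mp (i + 1) l ∘ T.im i)) a ↔
        Nm (U.E m) (X.map (U.mp (j + 1) m ∘ U.im j)) a)

/-- Sizes of the models of a tree. -/
class SizeSt : Prop where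
  lt : ∀ {T : IT.{u}} {l} {c : Cardinal.{u}}, T.IsTr l → c.IsRegular → Cardinal.aleph0 < c →
    (∀ i ≤ T.n, T.b i < c.ord) → ∀ j ≤ l, j < c.ord → T.b j < c.ord

end Pool.Agent.KM
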