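import Pool.Agent.Lib.MP_5c0be7_lc.F.Tree

/-!
Project KM, block F8: the order of a tree; restriction and end extension of trees.
-/

namespace Pool.Agent.KM.IT

open Ordinal Tr

universe u

variable {T U V : IT.{u}} {a i j k l m c p s t v g : Ordinal.{u}} {e : Ordinal.{u} → Ordinal.{u}}

theorem lt_s (h : i ≤ j) : i < j + 1 := Order.lt_add_one_iff.2 h
theorem le_s (h : i < j + 1) : i ≤ j := Order.lt_add_one_iff.1 h
theorem s_le (h : i < j) : i + 1 ≤ j := Order.add_one_le_iff.2 h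
theorem s_lt (h : i + 1 ≤ j) : i < j := Order.add_one_le_iff.1 h

theorem Le.refl : T.Le i i := ⟨le_rfl, fun _ h1 h2 => absurd h2 (not_lt.2 h1)⟩

theorem Le.trans (h : T.Le i j) (h' : T.Le j k) : T.Le i k :=
  ⟨h.1.trans h'.1, fun m h1 h2 h3 => (lt_or_ge m j).elim (fun hm => h.2 m h1 hm h3)
    fun hm => h.1.trans (h'.2 m hm h2 h3)⟩

theorem Le.cut (h : T.Le i l) (hi : i ≤ j) (hj : j ≤ l) : T.Le i j :=
  ⟨hi, fun m h1 h2 h3 => h.2 m h1 (h2.trans_le hj) h3⟩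

theorem le_zero : T.Le 0 j := ⟨zero_le, fun _ _ _ _ => zero_le⟩

theorem le_root (hi : i ≤ j) (hj : j ≤ T.n) : T.Le i j :=
  ⟨hi, fun _ _ h2 h3 => absurd (h2.trans_le hj) (not_lt.2 h3)⟩

theorem le_succ (hn : T.n ≤ j) : T.Le i (j + 1) ↔ i = j + 1 ∨ (T.Le i j ∧ i ≤ T.pr j) := by
  refine ⟨fun h => ?_, ?_⟩
  · rcases h.1.eq_or_lt with h1 | h1
    · exact Or.inl h1
    · exact Or.inr ⟨h.cut (le_s h1) le_self_add, h.2 j (le_s h1) (lt_add_one j) hn⟩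
  · rintro (rfl | ⟨h1, h2⟩)
    · exact Le.refl
    · refine ⟨h1.1.trans le_self_add, fun k k1 k2 k3 => ?_⟩
      rcases (le_s k2).eq_or_lt with rfl | k2
      · exact h2
      · exact h1.2 k k1 k2 k3

theorem le_succ' (hn : T.n ≤ j) (hp : T.Le (T.pr j) j) :
    T.Le i (j + 1) ↔ i = j + 1 ∨ T.Le i (T.pr j) := by
  rw [le_succ hn]
  exact or_congr_right ⟨fun h => h.1.cut h.2 hp.1, fun h => ⟨h.trans hp, h.1⟩⟩

theorem pr_le_succ (hn : T.n ≤ j) (hp : T.Le (T.pr j) j) : T.Le (T.pr j) (j + 1) :=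
  (le_succ' hn hp).2 (Or.inr Le.refl)

/-- The set of nodes that are not cut is closed. -/
theorem le_closed (hm : m ≤ j) (h : ∀ a < m, ∃ i, a < i ∧ i ≤ m ∧ T.Le i j) : T.Le m j := by
  refine ⟨hm, fun k k1 k2 k3 => ?_⟩
  by_contra hc
  obtain ⟨i, i1, i2, i3⟩ := h _ (not_le.1 hc)
  exact absurd (i3.2 k (i2.trans k1) k2 k3) (not_le.2 i1)

theorem ND.le (h : T.ND i j) : i ≤ j := h.1.1

theorem ND.refl : T.ND i i := ⟨Le.refl, fun _ h1 h2 => absurd h2.1 (not_le.2 h1)⟩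

theorem ND.trans (h : T.ND i j) (h' : T.ND j k) : T.ND i k :=
  ⟨h.1.trans h'.1, fun m h1 h2 => (le_or_gt m j).elim
    (fun hm => h.2 m h1 (h2.cut hm h'.le)) fun hm => h'.2 m hm h2⟩

theorem ND.cut (h : T.ND i k) (hi : i ≤ j) (hj : T.Le j k) : T.ND i j :=
  ⟨h.1.cut hi hj.1, fun m h1 h2 => h.2 m h1 (h2.trans hj)⟩

theorem ND.tail (h : T.ND i k) (hi : i ≤ j) (hj : T.Le j k) : T.ND j k :=
  ⟨hj, fun m h1 h2 => h.2 m (hi.trans_lt h1) h2⟩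

theorem ND.n_lt (h : T.ND i j) (hij : i < j) : T.n < j := (h.2 j hij Le.refl).1

theorem nd_succ (hn : T.n ≤ j) (hp : T.Le (T.pr j) j) :
    T.ND i (j + 1) ↔ i = j + 1 ∨ (T.ND i (T.pr j) ∧ ¬ T.Drop j) := by
  refine ⟨fun h => ?_, ?_⟩
  · rcases (le_succ' hn hp).1 h.1 with h1 | h1
    · exact Or.inl h1
    · exact Or.inr ⟨h.cut h1.1 (pr_le_succ hn hp),
        (h.2 _ (lt_s (h1.1.trans hp.1)) Le.refl).2 j rfl⟩
  · rintro (rfl | ⟨h1, h2⟩)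
    · exact ND.refl
    · refine ⟨(le_succ' hn hp).2 (Or.inr h1.1), fun m m1 m2 => ?_⟩
      rcases (le_succ' hn hp).1 m2 with rfl | m3
      · refine ⟨lt_s hn, fun k hk => ?_⟩
        rwa [← le_antisymm (le_s (s_lt hk.le)) (le_s (s_lt hk.ge))]
      · exact h1.2 m m1 m3

theorem nd_pr (hn : T.n ≤ j) (hp : T.Le (T.pr j) j) (hd : ¬ T.Drop j) : T.ND (T.pr j) (j + 1) :=
  (nd_succ hn hp).2 (Or.inr ⟨ND.refl, hd⟩)

theorem Root.unique (h : T.Root i j) (h' : T.Root k j) : i = k := by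
  rcases lt_trichotomy i k with h1 | h1 | h1
  · exact absurd (h.2.2 k h1 h'.2.1) (not_lt.2 h'.1)
  · exact h1
  · exact absurd (h'.2.2 i h1 h.2.1) (not_lt.2 h.1)

theorem ND.root (h : T.ND i j) (hi : i ≤ T.n) : T.Root i j :=
  ⟨hi, h.1, fun m h1 h2 => (h.2 m h1 h2).1⟩

theorem exists_root (T : IT.{u}) (j : Ordinal.{u}) : ∃ r, T.Root r j := by
  let S : Set Ordinal.{u} := {r | r ≤ T.n ∧ T.Le r j}
  have hb : BddAbove S := ⟨T.n, fun r hr => hr.1⟩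
  have hne : S.Nonempty := ⟨0, zero_le, le_zero⟩
  refine ⟨sSup S, csSup_le hne fun r hr => hr.1, le_closed (csSup_le hne fun r hr => hr.2.1)
    fun a ha => ?_, fun m h1 h2 => ?_⟩
  · obtain ⟨r, hr, har⟩ := exists_lt_of_lt_csSup hne ha
    exact ⟨r, har, le_csSup hb hr, hr.2⟩
  · by_contra hc
    exact absurd (le_csSup hb ⟨not_lt.1 hc, h2⟩) (not_le.2 h1)

/-! Limit nodes, unfolded. -/

theorem Lim.strong (h : T.Lim c) (hi : i < c) (hn : T.ND i c) :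
    Strong (T.E i) (T.b i + 1) (T.E c) (T.b c + 1) (T.mp i c) := h.lim.strong ⟨i, hi, hn⟩

theorem Lim.comm (h : T.Lim c) (hij : i ≤ j) (hj : j < c) (hi : T.ND i c) (hn : T.ND j c) :
    ∀ x ≤ T.b i, T.mp j c (T.mp i j x) = T.mp i c x :=
  h.lim.comm ⟨i, hij.trans_lt hj, hi⟩ ⟨j, hj, hn⟩ hij

theorem Lim.onto (h : T.Lim c) {y : Ordinal.{u}} (hy : y ≤ T.b c) :
    ∃ i < c, T.ND i c ∧ ∃ x ≤ T.b i, T.mp i c x = y := by
  obtain ⟨i, hi⟩ := h.lim.onto y hy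
  exact ⟨i.1, i.2.1, i.2.2, hi⟩

theorem Lim.intro (ex : ∃ m < c, T.ND m c) (pm : PM (T.E c) (T.b c + 1))
    (id : ∀ x ≤ T.b c, T.mp c c x = x)
    (strong : ∀ i < c, T.ND i c → Strong (T.E i) (T.b i + 1) (T.E c) (T.b c + 1) (T.mp i c))
    (comm : ∀ i j, i ≤ j → j < c → T.ND i c → T.ND j c → ∀ x ≤ T.b i,
      T.mp j c (T.mp i j x) = T.mp i c x)
    (onto : ∀ y ≤ T.b c, ∃ i < c, T.ND i c ∧ ∃ x ≤ T.b i, T.mp i c x = y) : T.Lim c :=
  ⟨ex, ⟨pm.toPM0, fun i => strong i.1 i.2.1 i.2.2,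
    fun i j h => comm i.1 j.1 h j.2.1 i.2.2 j.2.2,
    fun y hy => let ⟨i, h1, h2, h3⟩ := onto y hy; ⟨⟨i, h1, h2⟩, h3⟩⟩, pm, id⟩

/-! Restriction. -/

theorem IsTr.mono (h : T.IsTr l) (hn : T.n ≤ j) (hj : j ≤ l) : T.IsTr j :=
  ⟨h.phal, hn, fun k k1 k2 => h.step k k1 (k2.trans_le hj),
    fun c c1 c2 c3 => h.lim c c1 (c2.trans hj) c3⟩

theorem Phal.isTr (h : T.Phal) : T.IsTr T.n :=
  ⟨h, le_rfl, fun _ k1 k2 => absurd k2 (not_lt.2 k1), fun _ c1 c2 => absurd c1 (not_lt.2 c2)⟩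

theorem IsTr.pr_le (h : T.IsTr l) (hn : T.n ≤ k) (hk : k < l) : T.pr k ≤ k :=
  (h.step k hn hk).pred.le

theorem Above.mono (h : T.Above g l) (hj : j ≤ l) : T.Above g j :=
  fun k k1 k2 => h k k1 (k2.trans_le hj)

theorem Normal.mono (h : T.Normal l) (hj : j ≤ l) : T.Normal j :=
  fun i k k1 k2 k3 => h i k k1 k2 (k3.trans_le hj)

theorem above_zero : T.Above 0 l := fun _ _ _ => zero_le

/-! End extension. -/

theorem EqLt.refl : T.EqLt T a := ⟨rfl, fun _ _ => rfl⟩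
theorem EqLt.symm (h : T.EqLt U a) : U.EqLt T a := ⟨h.1.symm, fun i hi => (h.2 i hi).symm⟩
theorem EqLt.trans (h : T.EqLt U a) (h' : U.EqLt V a) : T.EqLt V a :=
  ⟨h'.1.trans h.1, fun i hi => (h'.2 i hi).trans (h.2 i hi)⟩
theorem EqLt.mono (h : T.EqLt U a) (hc : c ≤ a) : T.EqLt U c :=
  ⟨h.1, fun i hi => h.2 i (hi.trans_le hc)⟩
theorem EqLt.n (h : T.EqLt U a) : U.n = T.n := h.1
theorem EqLt.E (h : T.EqLt U a) (hi : i < a) : U.E i = T.E i := congrArg Nd.E (h.2 i hi)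
theorem EqLt.b (h : T.EqLt U a) (hi : i < a) : U.b i = T.b i := congrArg Nd.b (h.2 i hi)
theorem EqLt.mp (h : T.EqLt U a) (hj : j < a) : U.mp i j = T.mp i j :=
  congrArg (fun x => Nd.mp x i) (h.2 j hj)
theorem EqLt.nu (h : T.EqLt U a) (hj : j + 1 < a) : U.nu j = T.nu j := congrArg Nd.nu (h.2 _ hj)
theorem EqLt.ka (h : T.EqLt U a) (hj : j + 1 < a) : U.ka j = T.ka j := congrArg Nd.ka (h.2 _ hj)
theorem EqLt.ta (h : T.EqLt U a) (hj : j + 1 < a) : U.ta j = T.ta j := congrArg Nd.ta (h.2 _ hj)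
theorem EqLt.la (h : T.EqLt U a) (hj : j + 1 < a) : U.la j = T.la j := congrArg Nd.la (h.2 _ hj)
theorem EqLt.ee (h : T.EqLt U a) (hj : j + 1 < a) : U.e j = T.e j := congrArg Nd.e (h.2 _ hj)
theorem EqLt.pr (h : T.EqLt U a) (hj : j + 1 < a) : U.pr j = T.pr j := congrArg Nd.pr (h.2 _ hj)
theorem EqLt.st (h : T.EqLt U a) (hj : j + 1 < a) : U.st j = T.st j := congrArg Nd.st (h.2 _ hj)
theorem EqLt.im (h : T.EqLt U a) (hj : j + 1 < a) : U.im j = T.im j := congrArg Nd.im (h.2 _ hj)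

theorem EqLt.le_iff' (h : T.EqLt U a) (hj : ∀ k < j, k + 1 < a) : U.Le i j ↔ T.Le i j := by
  unfold Le
  rw [h.n]
  exact and_congr_right fun _ => forall_congr' fun k => imp_congr_right fun _ =>
    imp_congr_right fun k2 => by rw [h.pr (hj k k2)]

theorem EqLt.drop_iff (h : T.EqLt U a) (hk : k + 1 < a) (hp : T.pr k ≤ k) :
    U.Drop k ↔ T.Drop k := by
  unfold Drop
  rw [h.st hk, h.pr hk, h.b ((lt_s hp).trans hk)]

theorem EqLt.nd_iff' (h : T.EqLt U a) (hj : ∀ k < j, k + 1 < a)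
    (hp : ∀ k, T.n ≤ k → k < j → T.pr k ≤ k) : U.ND i j ↔ T.ND i j := by
  unfold ND
  rw [h.le_iff' hj, h.n]
  refine and_congr_right fun _ => forall_congr' fun m => imp_congr_right fun _ => ?_
  rw [h.le_iff' hj]
  refine imp_congr_right fun m2 => and_congr_right fun m3 => forall_congr' fun k =>
    imp_congr_right fun hk => ?_
  subst hk
  rw [h.drop_iff (hj k (s_lt m2.1)) (hp k (le_s m3) (s_lt m2.1))]

theorem EqLt.le_iff (h : T.EqLt U a) (hj : j < a) : U.Le i j ↔ T.Le i j :=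
  h.le_iff' fun _ hk => (s_le hk).trans_lt hj

theorem EqLt.nd_iff (h : T.EqLt U a) (hj : j < a) (ht : T.IsTr l) (hl : j ≤ l) :
    U.ND i j ↔ T.ND i j :=
  h.nd_iff' (fun _ hk => (s_le hk).trans_lt hj) fun _ k1 k2 => ht.pr_le k1 (k2.trans_le hl)

theorem EqLt.root_iff (h : T.EqLt U a) (hj : j < a) : U.Root i j ↔ T.Root i j := by
  unfold Root
  simp only [h.le_iff hj, h.n]

theorem EqLt.phal (h : T.EqLt U a) (hn : T.n < a) (hp : T.Phal) : U.Phal := by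
  have h1 : ∀ i ≤ U.n, i < a := fun i hi => (h.n ▸ hi : i ≤ T.n).trans_lt hn
  have h2 : ∀ i < U.n, i + 1 < a := fun i hi => h1 _ (s_le hi)
  have hn := h.n
  refine ⟨fun i hi => ?_, fun i hi => ?_, fun i j hij hj => ?_, fun i hi => ?_, fun i hi => ?_,
    fun i j hij hj => ?_, fun i j hij hj => ?_, fun i j hij hj => ?_⟩
  · rw [h.E (h1 i hi), h.b (h1 i hi)]; exact hp.pm i (hn ▸ hi)
  · rw [h.mp (h1 i hi), h.b (h1 i hi)]; exact hp.id i (hn ▸ hi)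
  · rw [h.la (h2 j hj), h.la (h2 i (hij.trans hj))]; exact hp.mono i j hij (hn ▸ hj)
  · rw [h.la (h2 i hi), h.b (h1 i hi.le)]; exact hp.le i (hn ▸ hi)
  · rw [h.la (h2 i hi), h.E (h1 i hi.le)]; exact hp.pas i (hn ▸ hi)
  · rw [h.la (h2 i (hij.trans_le hj)), h.E (h1 j hj), h.E (h1 i (hij.le.trans hj))]
    exact hp.agree i j hij (hn ▸ hj)
  · rw [h.la (h2 i (hij.trans_le hj)), h.b (h1 j hj)]; exact hp.le' i j hij (hn ▸ hj)
  · rw [h.la (h2 i (hij.trans_le hj)), h.E (h1 j hj), h.b (h1 j hj)]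
    exact hp.card i j hij (hn ▸ hj)

theorem EqLt.use (h : T.EqLt U a) (hj : j < a) (hu : T.Use j v k t e) : U.Use j v k t e := by
  refine ⟨?_, ?_, fun i hi => ?_, fun i hi hn => ?_⟩
  · rw [h.E hj]; exact hu.act
  · rw [h.b hj]; exact hu.le
  · rw [h.la ((s_le hi).trans_lt hj)]; exact hu.inc i hi
  · rw [h.la ((s_le hi).trans_lt hj)]; exact hu.inc' i hi (h.n ▸ hn)

theorem EqLt.pred (h : T.EqLt U a) (hj : j < a) (hu : T.Pred j k t p s) : U.Pred j k t p s := by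
  have hp := hu.le.trans_lt hj
  refine ⟨hu.le, fun h1 => ?_, fun i hi => ?_, hu.ta_le, ?_, ?_, ?_⟩
  · rw [h.la ((s_le h1).trans_lt hj)]; exact hu.lt h1
  · rw [h.la ((s_le hi).trans_lt hp)]; exact hu.min i hi
  · rw [h.b hp]; exact hu.st_le
  · rw [h.E hp]; exact hu.noproj
  · rw [h.b hp, h.E hp]; exact hu.max

theorem EqLt.isTr (h : T.EqLt U a) (hl : l < a) (ht : T.IsTr l) : U.IsTr l := by
  refine ⟨h.phal (ht.le.trans_lt hl) ht.phal, h.n ▸ ht.le, fun j j1 j2 => ?_,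
    fun c c1 c2 c3 => ?_⟩
  · have hs := ht.step j (h.n ▸ j1) j2
    have j3 : j + 1 < a := (s_le j2).trans_lt hl
    have j4 : j < a := j2.trans hl
    have j5 : T.pr j < a := hs.pred.le.trans_lt j4
    refine ⟨?_, ?_, ?_, ?_, ?_, ?_, ?_, ?_, ?_, ?_, fun i hi hn => ?_⟩
    · rw [h.nu j3, h.ka j3, h.ta j3, h.ee j3]; exact h.use j4 hs.use
    · rw [h.la j3, h.ka j3, h.ee j3]; exact hs.la
    · rw [h.ka j3, h.ta j3, h.pr j3, h.st j3]; exact h.pred j4 hs.pred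
    · rw [h.ka j3, h.pr j3, h.st j3, h.im j3, h.E j3, h.E j5]; exact hs.ult
    · rw [h.b j3, h.st j3, h.im j3]; exact hs.b
    · rw [h.ta j3, h.im j3, h.ee j3]; exact hs.ext
    · rw [h.ta j3, h.im j3, h.nu j3]; exact hs.top
    · rw [h.E j3, h.E j4, h.nu j3]; exact hs.agree
    · rw [h.E j3, h.b j3]; exact hs.pm
    · rw [h.mp j3, h.b j3]; exact hs.id
    · rw [h.mp j3, h.im j3, h.pr j3, h.mp j5, h.b (hi.trans_lt j4)]
      exact hs.mp i hi ((h.nd_iff j3 ht (s_le j2)).1 hn)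
  · have hs := ht.lim c (h.n ▸ c1) c2 c3
    have c4 : c < a := c2.trans_lt hl
    have hn : ∀ i, U.ND i c ↔ T.ND i c := fun i => h.nd_iff c4 ht c2
    refine Lim.intro ?_ ?_ ?_ (fun i hi h1 => ?_) (fun i j hij hj h1 h2 => ?_) fun y hy => ?_
    · simpa only [hn] using hs.ex
    · rw [h.E c4, h.b c4]; exact hs.pm
    · rw [h.mp c4, h.b c4]; exact hs.id
    · rw [h.E c4, h.b c4, h.mp c4, h.E (hi.trans c4), h.b (hi.trans c4)]
      exact hs.strong hi ((hn i).1 h1)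
    · rw [h.mp c4, h.mp c4, h.mp (hj.trans c4), h.b ((hij.trans_lt hj).trans c4)]
      exact hs.comm hij hj ((hn i).1 h1) ((hn j).1 h2)
    · obtain ⟨i, i1, i2, i3⟩ := hs.onto (h.b c4 ▸ hy)
      refine ⟨i, i1, (hn i).2 i2, ?_⟩
      rwa [h.mp c4, h.b (i1.trans c4)]

theorem EqLt.above (h : T.EqLt U a) (hl : ∀ k < l, k + 1 < a) (ht : T.Above g l) :
    U.Above g l := fun k k1 k2 => by rw [h.ka (hl k k2)]; exact ht k (h.n ▸ k1) k2

end Pool.Agent.KM.IT
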