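import Pool.Agent.Lib.MP_5c0be7_lc.O.Pm

/-!
Project KM, fine hierarchy, part 4: iteration trees on phalanxes, iterability, coiteration.
-/

namespace Pool.Agent.KM

open Ordinal Tr
open scoped Classical

universe u

/-- The data at one node: the model `(b + 1, E)`, the data of the step that leads to the node
(index, critical point, domain, exchange ordinal, extender map, predecessor, level, ultrapower
map), and the maps from earlier nodes. -/
structure Nd : Type (u + 1) where
  E : Seq.{u}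
  b : Ordinal.{u}
  nu : Ordinal.{u}
  ka : Ordinal.{u}
  ta : Ordinal.{u}
  la : Ordinal.{u}
  e : Ordinal.{u} → Ordinal.{u}
  pr : Ordinal.{u}
  st : Ordinal.{u}
  im : Ordinal.{u} → Ordinal.{u}
  mp : Ordinal.{u} → Ordinal.{u} → Ordinal.{u}

/-- Raw tree: the nodes `i ≤ n` are the roots. -/
structure IT : Type (u + 1) where
  n : Ordinal.{u}
  nd : Ordinal.{u} → Nd.{u}

namespace IT

variable (T : IT.{u})

/-- Sequence of the model at node `i`. -/
def E (i : Ordinal.{u}) : Seq.{u} := (T.nd i).E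
/-- The model at node `i` has height `b i + 1`. -/
def b (i : Ordinal.{u}) : Ordinal.{u} := (T.nd i).b
/-- Index of the extender used at step `j`. -/
def nu (j : Ordinal.{u}) : Ordinal.{u} := (T.nd (j + 1)).nu
/-- Critical point of the extender used at step `j`. -/
def ka (j : Ordinal.{u}) : Ordinal.{u} := (T.nd (j + 1)).ka
/-- Domain of the extender used at step `j`. -/
def ta (j : Ordinal.{u}) : Ordinal.{u} := (T.nd (j + 1)).ta
/-- Exchange ordinal at `j`: given for `j < n`, the image of the critical point for `n ≤ j`. -/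
def la (j : Ordinal.{u}) : Ordinal.{u} := (T.nd (j + 1)).la
/-- Map of the extender used at step `j`. -/
def e (j : Ordinal.{u}) : Ordinal.{u} → Ordinal.{u} := (T.nd (j + 1)).e
/-- Predecessor of node `j + 1`. -/
def pr (j : Ordinal.{u}) : Ordinal.{u} := (T.nd (j + 1)).pr
/-- The extender of step `j` is applied to `(st j + 1, E (pr j))`. -/
def st (j : Ordinal.{u}) : Ordinal.{u} := (T.nd (j + 1)).st
/-- Ultrapower map of step `j`. -/
def im (j : Ordinal.{u}) : Ordinal.{u} → Ordinal.{u} := (T.nd (j + 1)).im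
/-- Map from node `i` to node `j`. -/
def mp (i j : Ordinal.{u}) : Ordinal.{u} → Ordinal.{u} := (T.nd j).mp i

/-- `i` has not been cut off up to time `j`: `i` is on the branch of `j` or an earlier root. -/
def Le (i j : Ordinal.{u}) : Prop := i ≤ j ∧ ∀ k, i ≤ k → k < j → T.n ≤ k → i ≤ T.pr k

/-- Step `k` drops. -/
def Drop (k : Ordinal.{u}) : Prop := T.st k < T.b (T.pr k)

/-- `i` is on the branch of `j` and there is no drop in `(i, j]`. -/
def ND (i j : Ordinal.{u}) : Prop :=
  T.Le i j ∧ ∀ m, i < m → T.Le m j → T.n < m ∧ ∀ k, m = k + 1 → ¬ T.Drop k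

/-- `r` is the root of the branch of `j`. -/
def Root (r j : Ordinal.{u}) : Prop := r ≤ T.n ∧ T.Le r j ∧ ∀ m, r < m → T.Le m j → T.n < m

/-- The trees have the same nodes below `a`. -/
def EqLt (U : IT.{u}) (a : Ordinal.{u}) : Prop := U.n = T.n ∧ ∀ i < a, U.nd i = T.nd i

/-- All critical points used before node `l` are at least `g`. -/
def Above (g l : Ordinal.{u}) : Prop := ∀ j, T.n ≤ j → j < l → g ≤ T.ka j

/-- The roots form a phalanx. -/
structure Phal : Prop where
  pm : ∀ i ≤ T.n, PM (T.E i) (T.b i + 1)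
  id : ∀ i ≤ T.n, ∀ x ≤ T.b i, T.mp i i x = x
  mono : ∀ i j, i < j → j < T.n → T.la i ≤ T.la j
  le : ∀ i < T.n, T.la i ≤ T.b i
  pas : ∀ i < T.n, Pas (T.E i) (T.la i)
  agree : ∀ i j, i < j → j ≤ T.n → Agree (T.E i) (T.E j) (T.la i)
  le' : ∀ i j, i < j → j ≤ T.n → T.la i ≤ T.b j
  card : ∀ i j, i < j → j ≤ T.n → IsCard (T.E j) (T.b j + 1) (T.la i)

/-- The index `v` may be used at node `j`. -/
structure Use (j v k t : Ordinal.{u}) (e : Ordinal.{u} → Ordinal.{u}) : Prop where
  act : Act (T.E j) v k t e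
  le : v ≤ T.b j
  inc : ∀ i < j, T.la i ≤ e k
  inc' : ∀ i < j, T.n ≤ i → T.la i < e k

/-- `p` is the predecessor and `s` the level for an extender with critical point `k`, domain `t`
used at node `j`. -/
structure Pred (j k t p s : Ordinal.{u}) : Prop where
  le : p ≤ j
  lt : p < j → k < T.la p
  min : ∀ i < p, T.la i ≤ k
  ta_le : t ≤ s
  st_le : s ≤ T.b p
  noproj : NoProj (T.E p) k t (s + 1)
  max : s < T.b p → rho (T.E p) (s + 1) ≤ k

/-- Step `j` is correct. -/
structure Step (j : Ordinal.{u}) : Prop where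
  use : T.Use j (T.nu j) (T.ka j) (T.ta j) (T.e j)
  la : T.la j = T.e j (T.ka j)
  pred : T.Pred j (T.ka j) (T.ta j) (T.pr j) (T.st j)
  ult : IsUlt (T.E (T.pr j)) (T.st j) (T.ka j) (T.E (j + 1)) (T.im j)
  b : T.b (j + 1) = T.im j (T.st j)
  ext : ∀ x < T.ta j, T.im j x = T.e j x
  top : T.im j (T.ta j) = T.nu j
  agree : Agree (T.E (j + 1)) (T.E j) (T.nu j)
  pm : PM (T.E (j + 1)) (T.b (j + 1) + 1)
  id : ∀ x ≤ T.b (j + 1), T.mp (j + 1) (j + 1) x = x
  mp : ∀ i ≤ j, T.ND i (j + 1) → ∀ x ≤ T.b i, T.mp i (j + 1) x = T.im j (T.mp i (T.pr j) x)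

/-- The limit node `c` is correct. -/
structure Lim (c : Ordinal.{u}) : Prop where
  ex : ∃ m < c, T.ND m c
  lim : IsLim (J := {i // i < c ∧ T.ND i c}) (fun i j => i.1 ≤ j.1) (fun i => T.E i.1)
    (fun i => T.b i.1) (T.E c) (T.b c) (fun i j => T.mp i.1 j.1) (fun i => T.mp i.1 c)
  pm : PM (T.E c) (T.b c + 1)
  id : ∀ x ≤ T.b c, T.mp c c x = x

/-- `T` is an iteration tree with last node `l`. -/
structure IsTr (l : Ordinal.{u}) : Prop where
  phal : T.Phal
  le : T.n ≤ l
  step : ∀ j, T.n ≤ j → j < l → T.Step j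
  lim : ∀ c, T.n < c → c ≤ l → Order.IsSuccLimit c → T.Lim c

/-- Every tree above `g` on the roots of `T` can be continued. -/
structure Iterable (g : Ordinal.{u}) : Prop where
  phal : T.Phal
  succ : ∀ (U : IT.{u}) j v k t e, T.EqLt U (T.n + 1) → U.IsTr j → U.Above g j →
    U.Use j v k t e → g ≤ k → ∃ V : IT.{u}, U.EqLt V (j + 1) ∧ V.IsTr (j + 1) ∧ V.nu j = v
  lim : ∀ (U : IT.{u}) c, T.EqLt U (T.n + 1) → T.n < c → Order.IsSuccLimit c →
    (∀ j < c, T.n ≤ j → U.IsTr j) → U.Above g c → ∃ V : IT.{u}, U.EqLt V c ∧ V.IsTr c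

/-- The indices increase. -/
def Normal (l : Ordinal.{u}) : Prop := ∀ i j, T.n ≤ i → i < j → j < l → T.nu i < T.nu j

/-- `T` and `U`, with last nodes `l` and `m`, form a successful comparison. -/
structure Coit (l : Ordinal.{u}) (U : IT.{u}) (m : Ordinal.{u}) : Prop where
  tr : T.IsTr l
  tr' : U.IsTr m
  nor : T.Normal l
  nor' : U.Normal m
  agree : Agree (T.E l) (U.E m) (min (T.b l) (U.b m) + 1)
  le : ∀ i, T.n ≤ i → i < l → T.nu i ≤ U.b m
  le' : ∀ j, U.n ≤ j → j < m → U.nu j ≤ T.b l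
  ne : ∀ i j, T.n ≤ i → i < l → U.n ≤ j → j < m → T.nu i = U.nu j →
    T.E i (T.nu i) ≠ U.E j (U.nu j)

end IT

/-- No extender of `(b + 1, E)` overlaps `g`. -/
def CutPt (E : Seq.{u}) (b g : Ordinal.{u}) : Prop :=
  ∀ v k t e, g ≤ v → v ≤ b → Act E v k t e → g ≤ k

/-- The node with model `(b + 1, E)` and exchange ordinal `g` for the previous root. -/
def Nd.root (E : Seq.{u}) (b g : Ordinal.{u}) : Nd.{u} :=
  ⟨E, b, 0, 0, 0, g, id, 0, 0, id, fun _ => id⟩

/-- The phalanx with one root. -/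
def IT.one (E : Seq.{u}) (b : Ordinal.{u}) : IT.{u} := ⟨0, fun _ => Nd.root E b 0⟩

/-- The phalanx with two roots and exchange ordinal `g`. -/
noncomputable def IT.two (E : Seq.{u}) (b : Ordinal.{u}) (E' : Seq.{u}) (b' g : Ordinal.{u}) :
    IT.{u} := ⟨1, fun i => if i = 0 then Nd.root E b 0 else Nd.root E' b' g⟩

end Pool.Agent.KM
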