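import Pool.Agent.Lib.MP_5c0be7_lc.O.FO2
import Pool.Agent.Lib.MP_5c0be7_lc.O.Once
import Pool.Agent.Lib.MP_5c0be7_lc.O.StF3
import Pool.Agent.Lib.MP_5c0be7_lc.K.Nm
import Pool.Agent.Lib.MP_5c0be7_lc.F.StTree

/-!
Project KM, block F8: basic facts on active levels.
-/

namespace Pool.Agent.KM

open Ordinal Tr
open scoped Classical

universe u

namespace ActF

variable {E : Seq.{u}} {v k t : Ordinal.{u}} {e : Ordinal.{u} → Ordinal.{u}}

theorem rel_iff (h : Act E v k t e) {x y : Tr.{u}} : Rel (E v) x y ↔ In t x ∧ y = x.map e := by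
  induction x generalizing y with
  | nil => cases y <;> simp [Tr.Rel]
  | leaf a => cases y <;> simp [Tr.Rel, h.graph]
  | node l r ihl ihr => cases y <;> simp [Tr.Rel, ihl, ihr]; tauto

theorem code_ext : Code.{u} fun E b z => some (tv (ora E b z)) :=
  ⟨extc, rfl, fun E b z => (law E b).extc z⟩

/-- A test as a partial function. -/
theorem code_test {A : PR.{u}} (h : Code fun E b z => some (tv (A E b z))) :
    Code fun E b z => if A E b z then some .nil else none :=
  (h.post (IsOp.id.fst.ite_nil (IsOp.nil.pair IsOp.nil) IsOp.nil)).congr fun E b z _ => by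
    by_cases h : A E b z <;> simp [h]

/-- Existential statements come down along maps that commute with the next level. -/
theorem down {f : PF.{u}} (hf : Cp 1 f) {E E' : Seq.{u}} {b b' : Ordinal.{u}} {s z}
    (l : LS E (b + 1)) (l' : LS E' (b' + 1)) (h : Comm E (b + 1) E' (b' + 1) s) (i : In b z)
    (i' : In b' (z.map s)) {w} (hw : In b' w) (hs : (f E' b' (node w (z.map s))).isSome) :
    ∃ w, In b w ∧ (f E b (node w z)).isSome := by
  obtain ⟨g, g1, g2⟩ := Cp.find (n := 0) hf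
  have h1 := (g2 E' b' _ (by simpa using l') i').2 w hw hs
  rw [g1.comm (by simpa using l) (by simpa using l') (by simpa using h) i i', Option.isSome_map,
    Option.isSome_iff_exists] at h1
  exact h1.imp (g2 E b z (by simpa using l) i).1

theorem df_card : Df.{u} fun E b z => ∀ a < b, z.lab ≤ a → z.lab ≤ rho E a :=
  Df.oall (Q := fun E _ a z => z.lab ≤ a → z.lab ≤ rho E a) On.top
    ((Df.ole (On.lab IsOp.id.snd) (On.lab IsOp.id.fst)).imp
      (Df.ole (On.lab IsOp.id.snd) (On.lab IsOp.id.fst).rho))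

theorem df_top {o o' : OF.{u}} (ho : On o) (ho' : On o') :
    Df fun E b z => TopC E (o E b z) (o' E b z) :=
  (Df.oall (Q := fun E b c z => ∃ a < o' E b z, c ≤ a ∧ rho E a ≤ o E b z) ho'
    (Df.oex (Q := fun E b a w => w.fst.lab ≤ a ∧ rho E a ≤ o E b w.snd) (ho'.pre IsOp.id.snd)
      ((Df.ole (On.lab IsOp.id.snd.fst) (On.lab IsOp.id.fst)).and
        (Df.ole (On.lab IsOp.id.fst).rho (ho.pre IsOp.id.snd.snd))))).congr fun _ _ _ _ =>
    forall₂_congr fun _ _ => exists_congr fun _ => by tauto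

theorem lim (h : Act E v k t e) : ¬ Suc v := not_suc_iff.2 fun y hy => by
  obtain ⟨x, h1, h2⟩ := h.cof y hy
  exact (Order.add_one_le_iff.2 h2).trans_lt (h.weak.maps x h1)

theorem ora_iff (h : Act E v k t e) {x y : Tr.{u}} :
    ora E v (node x y) ↔ In t x ∧ y = x.map e := by simp [ora, lim h, rel_iff h]

/-- The map of an active level is computed at the next level. -/
theorem app : ∃ c : Tr.{u}, c.erase = c ∧ ∀ E v k t e x, LS E (v + 1) → Act E v k t e → In t x →
    ev E (v + 1) c x = some (x.map e) := by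
  obtain ⟨g, ⟨c, g1, g2⟩, g3⟩ := Cp.find (n := 0) (Cp.of (code_test
    (A := fun E b z => ora E b (node z.snd z.fst)) (code_ext.pre
    (IsOp.id.snd.pair IsOp.id.fst))))
  refine ⟨c, g1, fun E v k t e x l h i => ?_⟩
  have i' := i.mono h.dom.le
  obtain ⟨h1, h2⟩ := g3 E v x (by simpa using l) i'
  have h3 := g2 E v x (by simpa using l)
  rw [if_pos i'] at h3
  obtain ⟨w, hw⟩ := Option.isSome_iff_exists.1 (h2 _ (KE.w_in h.weak i) (by simp [ora_iff h, i]))
  have h4 := (h1 w hw).2
  simp [ora_iff h] at h4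
  rw [← h4.2, ← hw, ← h3]; simp

variable [DiagSt.{u}]

theorem lim_dom (l : LS E v) (h : Act E v k t e) : ¬ Suc t := by
  rintro ⟨b, rfl⟩
  obtain ⟨a, h1, h2, h3⟩ := h.top b (lt_add_one b)
  obtain rfl : a = b := le_antisymm (KE.le1 h2) h1
  exact absurd ((h.next _ le_rfl h.dom).trans_le (DiagSt.rho_succ E a (l a (h2.trans h.dom))))
    (not_lt.2 h3)

theorem succ_lt (l : LS E v) (h : Act E v k t e) {a} (ha : a < t) : a + 1 < t :=
  not_suc_iff.1 (lim_dom l h) a ha

theorem map_succ (l : LS E v) (h : Act E v k t e) {a} (ha : a < t) : e (a + 1) = e a + 1 :=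
  (h.weak.comm _ (succ_lt l h ha)).succ_eq

/-- Definable notions are preserved by the map of an active level. -/
theorem df (l : LS E v) (h : Act E v k t e) {A : PR.{u}} (hA : Df A) {b z} (hb : b < t)
    (i : In b z) : A E (e b) (z.map e) ↔ A E b z :=
  hA.weak_lim h.weak (l.mono h.dom.le) l (lim_dom l h) hb le_rfl i

theorem cof2 (l : LS E v) (h : Act E v k t e) {y} (hy : y < v) :
    ∃ a < t, k < a ∧ y < e a ∧ rho E a ≤ k ∧ rho E (e a) ≤ e k := by
  obtain ⟨x, h1, h2⟩ := h.cof y hy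
  obtain ⟨a, h3, h4, h5⟩ := h.top _ (max_lt h1 (succ_lt l h h.lt))
  have h6 : k < a := Order.add_one_le_iff.1 ((le_max_right _ _).trans h3)
  refine ⟨a, h4, h6, h2.trans_le ((KE.w_le h.weak h1 h4).2 ((le_max_left _ _).trans h3)), h5,
    not_lt.1 fun h7 => h5.not_gt ?_⟩
  exact (df l h (Df.olt (On.lab IsOp.id) On.top.rho) h4 (z := leaf k) (by simpa using h6)).1 h7

theorem top (l : LS E v) (h : Act E v k t e) : TopC E (e k) v := fun _ hb =>
  let ⟨a, h1, _, h2, _, h3⟩ := cof2 l h hb; ⟨e a, h2.le, h.weak.maps a h1, h3⟩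

theorem card (l : LS E v) (h : Act E v k t e) : IsCard E v (e k) := fun a h1 h2 =>
  let ⟨x, h3, h4, h5, _⟩ := cof2 l h h2
  (df l h df_card h3 (z := leaf k) (by simpa using h4)).2
    (fun b h6 h7 => h.card b h7 (h6.trans h3)) a h5 h1

theorem lt (l : LS E v) (h : Act E v k t e) : t < e k := by
  by_contra h1
  rcases (not_lt.1 h1).lt_or_eq with h1 | h1
  · obtain ⟨a, h2, h3, h4⟩ := h.top _ h1
    exact absurd ((card l h a h2 (h3.trans h.dom)).trans h4) h.move.not_ge
  have h2 := succ_lt l h h.lt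
  obtain ⟨m, h3, h4⟩ := (df l h (Df.oex (Q := fun E _ m z => TopC E m z.lab) (On.lab IsOp.id)
    (df_top (On.lab IsOp.id.fst) (On.lab IsOp.id.snd))) h2 (z := leaf k) (by simp)).1
    ⟨k, h.move, by simpa [h1] using h.top⟩
  have h5 := (df l h (df_top (On.lab IsOp.id.fst) (On.lab IsOp.id.snd)) h2 (z := node (leaf m) (leaf k))
    (by simpa using (show m < k from h3).le)).2 h4
  simp only [map_node, map_leaf, fst_node, snd_node, lab_leaf, h1, h.fix m h3] at h5
  obtain ⟨a, h6, h7, h8⟩ := h5 k h.lt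
  exact absurd ((h.card a h6 h7).trans h8) (not_le.2 h3)

theorem gen (l : LS E (v + 1)) (h : Act E v k t e) : Gen E (v + 1) (e k) .nil := by
  intro y hy
  have l' := l.mono (lt_add_one v).le
  obtain ⟨c, w, h1, h2⟩ := DiagSt.gen_top E v y hy
  obtain ⟨a, a1, -, a2, -, a3⟩ := cof2 l' h
    (h1.ht_lt (limit_of_not_suc (lim h) (h.dom.trans_le' zero_le).ne'))
  have a4 := h.weak.maps a a1
  obtain ⟨d, x, h3, h4⟩ := DiagSt.gen_succ E (e a) (l' _ a4) w
    ((in_ht w).mono (a2.le.trans (lt_add_one _).le))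
  obtain ⟨p, p1, p2⟩ := app.{u}
  have a5 := succ_lt l' h a1
  obtain ⟨q, -, q2⟩ := Code.bind (IsOp.id.fst.pair ((IsOp.const (erase_erase d)).pair
    (IsOp.id.snd.fst.snd.pair IsOp.nil))) ((Code.self p1).pre IsOp.id.fst.fst)
    (Code.call.post IsOp.id.fst)
  have hk : e k ≤ v + 1 := (h.weak.maps k h.lt).le.trans (lt_add_one v).le
  have i : In (e k) (node (leaf (a + 1)) x) := by simp [a5.trans (lt l' h), h3.mono a3]
  refine ⟨cmp (.pair .fst .nil) c q, node (leaf (a + 1)) x, i, ?_⟩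
  rw [(law E _).cmp, q2 E _ _ (by simpa using i.mono hk)]
  simp only [fst_node, snd_node]
  rw [p2 E v k t e _ l h (by simpa using a5), map_leaf, map_succ l' h a1, Option.bind_some,
    Option.bind_some, call_leaf (KE.s1lt a4)]
  simpa [h4] using h2

end ActF

instance [DiagSt.{u}] : ActSt.{u} :=
  ⟨ActF.top, ActF.card, ActF.lt, fun l h => DiagSt.gen_rho _ _ _ _ (ActF.gen l h)⟩

end Pool.Agent.KM
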