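import Pool.Agent.Lib.MP_5c0be7_lc.F.CmpT
import Pool.Agent.Lib.MP_5c0be7_lc.K.EvI

/-!
Project KM, block F8: comparison.
-/

namespace Pool.Agent.KM

open Ordinal Tr IT Cardinal Set

universe u

namespace Cmp

variable {F G T U : IT.{u}} {g g' h l m a a' v : Ordinal.{u}}

theorem lim1 {J : Type*} [Nonempty J] (T : J → IT.{u}) (l : J → Ordinal.{u}) {d : Ordinal.{u}}
    (hI : F.Iterable g) (hF : ∀ s, F.EqLt (T s) (F.n + 1)) (tr : ∀ s, (T s).IsTr (l s))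
    (ab : ∀ s, (T s).Above g (l s)) (bd : ∀ s, l s ≤ d)
    (ch : ∀ s t, l s ≤ l t → (T s).EqLt (T t) (l s + 1)) :
    ∃ (V : IT.{u}) (L : Ordinal.{u}), L ≤ d ∧ V.IsTr L ∧
      (∀ s, l s ≤ L ∧ (T s).EqLt V (l s + 1)) ∧ ∀ i < L, ∃ s, i < l s := by
  classical
  have hb : BddAbove (range l) := ⟨d, by rintro _ ⟨s, rfl⟩; exact bd s⟩
  have h1 : ∀ s, l s ≤ sSup (range l) := fun s => le_csSup hb ⟨s, rfl⟩
  have h2 : ∀ i < sSup (range l), ∃ s, i < l s := fun i hi =>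
    let ⟨_, ⟨s, e⟩, h⟩ := exists_lt_of_lt_csSup (range_nonempty l) hi; ⟨s, e ▸ h⟩
  have h3 : sSup (range l) ≤ d := csSup_le (range_nonempty l) (by rintro _ ⟨s, rfl⟩; exact bd s)
  generalize sSup (range l) = L at h1 h2 h3
  by_cases h4 : ∃ s, l s = L
  · obtain ⟨s, rfl⟩ := h4
    exact ⟨T s, l s, h3, tr s, fun t => ⟨h1 t, ch t s (h1 t)⟩, h2⟩
  have h5 : ∀ s, l s < L := fun s => (h1 s).lt_of_ne fun e => h4 ⟨s, e⟩
  obtain ⟨s0⟩ := ‹Nonempty J›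
  have n0 : ∀ s, F.n ≤ l s := fun s => (hF s).n ▸ (tr s).le
  let U : IT.{u} := ⟨F.n, fun i => if h : ∃ s, i ≤ l s then (T h.choose).nd i else (T s0).nd i⟩
  have e : ∀ s, (T s).EqLt U (l s + 1) := fun s => ⟨(hF s).n.symm, fun i hi => by
    have h : ∃ s, i ≤ l s := ⟨s, le_s hi⟩
    change dite _ _ _ = _
    rw [dif_pos h]
    rcases le_total (l s) (l h.choose) with h6 | h6
    · exact (ch _ _ h6).2 i hi
    · exact ((ch _ _ h6).2 i (lt_s h.choose_spec)).symm⟩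
  obtain ⟨V, v1, v2⟩ := hI.lim U L ((hF s0).trans ((e s0).mono (s_le (lt_s (n0 s0)))))
    ((n0 s0).trans_lt (h5 s0)) (limit_of_not_suc (not_suc_iff.2 fun i hi =>
      let ⟨s, hs⟩ := h2 i hi; (s_le hs).trans_lt (h5 s)) (h5 s0).ne_bot)
    (fun j j1 j2 => let ⟨s, hs⟩ := h2 j j1
      (e s).isTr (lt_s hs.le) ((tr s).mono ((hF s).n ▸ j2) hs.le))
    fun k k1 k2 => by
      obtain ⟨s, hs⟩ := h2 k k2
      rw [(e s).ka (lt_s (s_le hs))]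
      exact ab s k ((hF s).n ▸ k1) hs
  exact ⟨V, L, h3, v2, fun s => ⟨h1 s, (e s).trans (v1.mono (s_le (h5 s)))⟩, h2⟩

variable [TreeSt.{u}]

/-- No extender of a model of a tree above `g` overlaps `g`. -/
theorem cut [CutSt.{u}] (h : T.IsTr l) (ab : T.Above g l)
    (hc : ∀ i ≤ T.n, CutPt (T.E i) (T.b i) g) : ∀ j ≤ l, CutPt (T.E j) (T.b j) g := by
  intro j
  induction j using WellFoundedLT.induction with
  | ind j ih =>
    intro hj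
    rcases le_or_gt j T.n with h1 | h1
    · exact hc j h1
    rcases zero_or_succ_or_isSuccLimit j with rfl | ⟨k, rfl⟩ | h2
    · simp at h1
    · have s := h.step k (le_s h1) (s_lt hj)
      have A := s.use.act
      have gk := ab k (le_s h1) (s_lt hj)
      have c1 := ih _ (lt_s s.pred.le) (s.pred.le.trans (s_lt hj).le)
      intro v k' t e v1 v2 B
      rcases lt_or_ge v (T.nu k) with h3 | h3
      · exact ih k (lt_add_one k) (s_lt hj).le v k' t e v1 (h3.le.trans s.use.le)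
          (KL.act_ag (KL.ag_mono s.agree (s_le h3)) B)
      · refine CutSt.up s.ult.pm s.ult.pm' s.ult.toStrong ((gk.trans A.lt.le).trans s.pred.ta_le)
          (fun x hx => (s.ext x ((hx.trans_le gk).trans A.lt)).trans (A.fix x (hx.trans_le gk)))
          (fun v k t e a1 a2 => c1 v k t e a1 (a2.trans s.pred.st_le)) v k' t e ?_ (s.b ▸ v2) B
        rw [s.ext g (gk.trans_lt A.lt)]
        exact (A.weak.maps g (gk.trans_lt A.lt)).le.trans h3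
    · obtain ⟨m0, m1, m2⟩ := (h.lim j h1 hj h2).ex
      obtain ⟨m, m3, m4, m5⟩ := TreeSt.cof h1 h2 (fun i i1 i2 => h.mono i2 (i1.le.trans hj)) _
        (max_lt h1 m1)
      have nd := m2.tail ((le_max_right _ _).trans m3.le) m5
      have nm : T.n < m := (le_max_left _ _).trans_lt m3
      have nl := h1.trans_le hj
      have s := h.step _ le_rfl nl
      have gl : g < T.la T.n := (ab _ le_rfl nl).trans_lt (s.la ▸ s.use.act.move)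
      have S := TreeSt.strong h hj nd
      have e := KE.s1inj (S.top _ rfl)
      have f := TreeSt.fix h hj nd nm
      intro v k t e' v1 v2 B
      exact CutSt.up (TreeSt.pm h (m4.le.trans hj)).toPM0 (e ▸ (TreeSt.pm h hj).toPM0) (e ▸ S)
        (gl.le.trans (TreeSt.la_le h nl nm.le (m4.le.trans hj))) (fun x hx => f x (hx.trans gl))
        (ih m m4 (m4.le.trans hj)) v k t e' ((f g gl).symm ▸ v1) (e ▸ v2) B

/-- One step on one side. -/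
theorem ext1 (hI : F.Iterable g) (hF : F.EqLt T (F.n + 1)) (h : T.IsTr l) (nor : T.Normal l)
    (ab : T.Above g l) (hc : CutPt (T.E l) (T.b l) g) (v1 : v ≤ T.b l) (v2 : g ≤ v)
    (v3 : ∀ i < l, T.la i < v) (v4 : ∀ i, T.n ≤ i → i < l → T.nu i < v) :
    ∃ (V : IT.{u}) (L : Ordinal.{u}), l ≤ L ∧ L ≤ l + 1 ∧ T.EqLt V (l + 1) ∧ V.IsTr L ∧
      V.Normal L ∧ V.Above g L ∧ Pas (V.E L) v ∧ Agree (T.E l) (V.E L) v ∧ v ≤ V.b L ∧
      (∀ i, l ≤ i → i < L → i = l ∧ V.nu l = v) ∧ (L = l → Pas (T.E l) v) := by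
  have pm := TreeSt.pm h le_rfl
  obtain P | ⟨k, t, e, A⟩ := pm.act v (lt_s v1)
  · exact ⟨T, l, le_rfl, le_self_add, EqLt.refl, h, nor, ab, P, fun _ _ => rfl, v1,
      fun i i1 i2 => absurd i2 i1.not_gt, fun _ => P⟩
  have top := KL.ext_top A.toExt
  have key : ∀ c < v, IsCard (T.E l) (T.b l + 1) c → c ≤ e k := fun c c1 c2 =>
    let ⟨x, x1, x2, x3⟩ := top c c1; (c2 x x1 (x2.trans (lt_s v1))).trans x3
  have gk := hc v k t e v2 v1 A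
  obtain ⟨V, e1, t1, n1⟩ := hI.succ T l v k t e hF h ab
    ⟨A, v1, fun i hi => key _ (v3 i hi) (TreeSt.card h hi le_rfl), fun i hi hn =>
      (CmpT.la_lt_nu h hn hi).trans_le
        (key _ (v4 i hn hi) (TreeSt.nu_agree h nor hn hi le_rfl).2.2.2)⟩ gk
  have nl : V.n ≤ l := e1.n ▸ h.le
  have nor' : V.Normal (l + 1) := fun i j i1 i2 i3 => by
    have i4 : i < l := i2.trans_le (le_s i3)
    rw [e1.nu (lt_s (s_le i4))]
    rcases (le_s i3).lt_or_eq with j1 | rfl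
    · rw [e1.nu (lt_s (s_le j1))]; exact nor i j (e1.n ▸ i1) i2 j1
    · rw [n1]; exact v4 i (e1.n ▸ i1) i4
  obtain ⟨g1, g2, g3, -⟩ := TreeSt.nu_agree t1 nor' nl (lt_add_one l) le_rfl
  rw [n1] at g1 g2 g3
  rw [e1.E (lt_add_one l)] at g1
  refine ⟨V, l + 1, le_self_add, le_rfl, e1, t1, nor', fun i i1 i2 => ?_, g2, g1, g3,
    fun i i1 i2 => ⟨(le_s i2).antisymm i1, n1⟩, fun e => absurd e (lt_add_one l).ne'⟩
  rcases (le_s i2).lt_or_eq with j1 | rfl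
  · rw [e1.ka (lt_s (s_le j1))]; exact ab i (e1.n ▸ i1) j1
  · have B := (t1.step i i1 i2).use.act
    rw [n1, e1.E i2] at B
    exact (KL.act_uniq A B).1 ▸ gk

end Cmp

/-- A stage of a comparison that extends `(T0, a)` and `(U0, a')`. -/
structure Cmp.Sg (T0 U0 : IT.{u}) (a a' g g' h d : Ordinal.{u}) where
  T : IT.{u}
  l : Ordinal.{u}
  U : IT.{u}
  m : Ordinal.{u}
  e : T0.EqLt T (a + 1)
  e' : U0.EqLt U (a' + 1)
  al : a ≤ l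
  am : a' ≤ m
  ld : l ≤ d
  md : m ≤ d
  pc : T.PC l U m
  ab : T.Above g l
  ab' : U.Above g' m
  ag : Agree (T.E l) (U.E m) h
  ge : ∀ i, a ≤ i → i < l → h ≤ T.nu i
  ge' : ∀ i, a' ≤ i → i < m → h ≤ U.nu i

namespace Cmp

variable {F G T0 U0 : IT.{u}} {g g' h a a' d : Ordinal.{u}}

/-- Extension of stages. -/
structure Sg.Le (s t : Sg T0 U0 a a' g g' h d) : Prop where
  l : s.l ≤ t.l
  m : s.m ≤ t.m
  e : s.T.EqLt t.T (s.l + 1)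
  e' : s.U.EqLt t.U (s.m + 1)
  lt : ∀ i, s.T.n ≤ i → i < s.l → ∀ j, s.m ≤ j → j < t.m → s.T.nu i < t.U.nu j
  lt' : ∀ j, s.U.n ≤ j → j < s.m → ∀ i, s.l ≤ i → i < t.l → s.U.nu j < t.T.nu i

theorem Sg.Le.refl (s : Sg T0 U0 a a' g g' h d) : s.Le s :=
  ⟨le_rfl, le_rfl, EqLt.refl, EqLt.refl, fun _ _ _ _ j1 j2 => absurd j2 j1.not_gt,
    fun _ _ _ _ j1 j2 => absurd j2 j1.not_gt⟩

theorem Sg.Le.trans {r s t : Sg T0 U0 a a' g g' h d} (x : r.Le s) (y : s.Le t) : r.Le t := by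
  refine ⟨x.l.trans y.l, x.m.trans y.m, x.e.trans (y.e.mono (s_le (lt_s x.l))),
    x.e'.trans (y.e'.mono (s_le (lt_s x.m))), fun i i1 i2 j j1 j2 => ?_, fun j j1 j2 i i1 i2 => ?_⟩
  · rcases lt_or_ge j s.m with h1 | h1
    · rw [y.e'.nu (lt_s (s_le h1))]; exact x.lt i i1 i2 j j1 h1
    · rw [← x.e.nu (lt_s (s_le i2))]; exact y.lt i (x.e.n ▸ i1) (i2.trans_le x.l) j h1 j2
  · rcases lt_or_ge i s.l with h1 | h1
    · rw [y.e.nu (lt_s (s_le h1))]; exact x.lt' j j1 j2 i i1 h1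
    · rw [← x.e'.nu (lt_s (s_le j2))]; exact y.lt' j (x.e'.n ▸ j1) (j2.trans_le x.m) i h1 i2

variable [TreeSt.{u}]

/-- Passage from a node to the last node of a normal tree. -/
theorem tail {V : IT.{u}} {L l x : Ordinal.{u}} (h : V.IsTr L) (nor : V.Normal L) (n1 : V.n ≤ l)
    (l1 : l ≤ L) (hx : l < L → x ≤ V.nu l) :
    Agree (V.E l) (V.E L) x ∧ (x ≤ V.b l → x ≤ V.b L) := by
  rcases l1.lt_or_eq with h1 | rfl
  · obtain ⟨g1, -, g2, -⟩ := TreeSt.nu_agree h nor n1 h1 le_rfl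
    exact ⟨KL.ag_mono g1 (hx h1), fun _ => (hx h1).trans g2⟩
  · exact ⟨fun _ _ => rfl, id⟩

theorem chain (hI : F.Iterable g) (hI' : G.Iterable g') (hF : F.EqLt T0 (F.n + 1))
    (hG : G.EqLt U0 (G.n + 1)) (n1 : F.n ≤ a) (n2 : G.n ≤ a') (c : Set (Sg T0 U0 a a' g g' h d))
    (hc : IsChain Sg.Le c) (hne : c.Nonempty) : ∃ t, ∀ s ∈ c, s.Le t := by
  have : Nonempty c := hne.to_subtype
  have tot : ∀ s t : c, s.1.Le t.1 ∨ t.1.Le s.1 := fun s t =>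
    (eq_or_ne s.1 t.1).elim (fun e => Or.inl (e ▸ Sg.Le.refl _)) (hc s.2 t.2)
  obtain ⟨V, L, v1, v2, v3, v4⟩ := lim1 (fun s : c => s.1.T) (fun s => s.1.l) hI
    (fun s => hF.trans (s.1.e.mono (s_le (lt_s n1)))) (fun s => s.1.pc.tr) (fun s => s.1.ab)
    (fun s => s.1.ld) fun s t h => (tot s t).elim (·.e) fun x => h.antisymm x.l ▸ x.e.symm
  obtain ⟨X, M, x1, x2, x3, x4⟩ := lim1 (fun s : c => s.1.U) (fun s => s.1.m) hI'
    (fun s => hG.trans (s.1.e'.mono (s_le (lt_s n2)))) (fun s => s.1.pc.tr') (fun s => s.1.ab')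
    (fun s => s.1.md) fun s t h => (tot s t).elim (·.e') fun x => h.antisymm x.m ▸ x.e'.symm
  have nu : ∀ (s : c) i, i < s.1.l → V.nu i = s.1.T.nu i := fun s i hi =>
    (v3 s).2.nu (lt_s (s_le hi))
  have nu' : ∀ (s : c) i, i < s.1.m → X.nu i = s.1.U.nu i := fun s i hi =>
    (x3 s).2.nu (lt_s (s_le hi))
  have nor : V.Normal L := fun i j i1 i2 i3 => by
    obtain ⟨s, hs⟩ := v4 j i3
    rw [nu s j hs, nu s i (i2.trans hs)]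
    exact s.1.pc.nor i j ((v3 s).2.n ▸ i1) i2 hs
  have nor' : X.Normal M := fun i j i1 i2 i3 => by
    obtain ⟨s, hs⟩ := x4 j i3
    rw [nu' s j hs, nu' s i (i2.trans hs)]
    exact s.1.pc.nor' i j ((x3 s).2.n ▸ i1) i2 hs
  have lt : ∀ (s : c) i, s.1.T.n ≤ i → i < s.1.l → ∀ j, s.1.m ≤ j → j < M →
      s.1.T.nu i < X.nu j := fun s i i1 i2 j j1 j2 => by
    obtain ⟨t, ht⟩ := x4 j j2
    rw [nu' t j ht]
    exact ((tot s t).resolve_right fun x => (ht.trans_le (x.m.trans j1)).false).lt i i1 i2 j j1 ht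
  have lt' : ∀ (s : c) j, s.1.U.n ≤ j → j < s.1.m → ∀ i, s.1.l ≤ i → i < L →
      s.1.U.nu j < V.nu i := fun s i i1 i2 j j1 j2 => by
    obtain ⟨t, ht⟩ := v4 j j2
    rw [nu t j ht]
    exact ((tot s t).resolve_right fun x => (ht.trans_le (x.l.trans j1)).false).lt' i i1 i2 j j1 ht
  have ge : ∀ i, a ≤ i → i < L → h ≤ V.nu i := fun i i1 i2 =>
    let ⟨s, hs⟩ := v4 i i2; nu s i hs ▸ s.1.ge i i1 hs
  have ge' : ∀ i, a' ≤ i → i < M → h ≤ X.nu i := fun i i1 i2 =>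
    let ⟨s, hs⟩ := x4 i i2; nu' s i hs ▸ s.1.ge' i i1 hs
  have tl : ∀ (s : c) {x}, (s.1.l < L → x ≤ V.nu s.1.l) → Agree (s.1.T.E s.1.l) (V.E L) x ∧
      (x ≤ s.1.T.b s.1.l → x ≤ V.b L) := fun s x hx => by
    rw [← (v3 s).2.E (lt_add_one _), ← (v3 s).2.b (lt_add_one _)]
    exact tail v2 nor ((v3 s).2.n ▸ s.1.pc.tr.le) (v3 s).1 hx
  have tl' : ∀ (s : c) {x}, (s.1.m < M → x ≤ X.nu s.1.m) → Agree (s.1.U.E s.1.m) (X.E M) x ∧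
      (x ≤ s.1.U.b s.1.m → x ≤ X.b M) := fun s x hx => by
    rw [← (x3 s).2.E (lt_add_one _), ← (x3 s).2.b (lt_add_one _)]
    exact tail x2 nor' ((x3 s).2.n ▸ s.1.pc.tr'.le) (x3 s).1 hx
  have ag : ∀ (s : c) {x}, Agree (s.1.T.E s.1.l) (s.1.U.E s.1.m) x →
      (s.1.l < L → x ≤ V.nu s.1.l) → (s.1.m < M → x ≤ X.nu s.1.m) → Agree (V.E L) (X.E M) x :=
    fun s x h1 h2 h3 => KL.ag_trans (KL.ag_trans (KL.ag_symm (tl s h2).1) h1) (tl' s h3).1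
  obtain ⟨s0⟩ := this
  refine ⟨⟨V, L, X, M, s0.1.e.trans ((v3 s0).2.mono (s_le (lt_s s0.1.al))),
    s0.1.e'.trans ((x3 s0).2.mono (s_le (lt_s s0.1.am))), s0.1.al.trans (v3 s0).1,
    s0.1.am.trans (x3 s0).1, v1, x1, ⟨v2, x2, nor, nor', fun i i1 i2 => ?_, fun i i1 i2 => ?_,
      fun i i1 i2 => ?_, fun i i1 i2 => ?_, fun i j i1 i2 j1 j2 => ?_⟩, fun i i1 i2 => ?_,
    fun i i1 i2 => ?_, ag s0 s0.1.ag (ge _ s0.1.al) (ge' _ s0.1.am), ge, ge'⟩,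
    fun s hs => ⟨(v3 ⟨s, hs⟩).1, (x3 ⟨s, hs⟩).1, (v3 ⟨s, hs⟩).2, (x3 ⟨s, hs⟩).2, lt ⟨s, hs⟩,
      lt' ⟨s, hs⟩⟩⟩
  · obtain ⟨s, hs⟩ := v4 i i2
    have i3 : s.1.T.n ≤ i := (v3 s).2.n ▸ i1
    exact ag s (nu s i hs ▸ s.1.pc.ag i i3 hs) (fun y => s_le (nor i _ i1 hs y))
      fun y => s_le (nu s i hs ▸ lt s i i3 hs _ le_rfl y)
  · obtain ⟨s, hs⟩ := x4 i i2
    have i3 : s.1.U.n ≤ i := (x3 s).2.n ▸ i1
    exact ag s (nu' s i hs ▸ s.1.pc.ag' i i3 hs)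
      (fun y => s_le (nu' s i hs ▸ lt' s i i3 hs _ le_rfl y)) fun y => s_le (nor' i _ i1 hs y)
  · obtain ⟨s, hs⟩ := v4 i i2
    have i3 : s.1.T.n ≤ i := (v3 s).2.n ▸ i1
    rw [nu s i hs]
    exact (tl' s fun y => (lt s i i3 hs _ le_rfl y).le).2 (s.1.pc.le i i3 hs)
  · obtain ⟨s, hs⟩ := x4 i i2
    have i3 : s.1.U.n ≤ i := (x3 s).2.n ▸ i1
    rw [nu' s i hs]
    exact (tl s fun y => (lt' s i i3 hs _ le_rfl y).le).2 (s.1.pc.le' i i3 hs)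
  · obtain ⟨s, h1, h2⟩ : ∃ s : c, i < s.1.l ∧ j < s.1.m := by
      obtain ⟨s, hs⟩ := v4 i i2
      obtain ⟨t, ht⟩ := x4 j j2
      exact (tot s t).elim (fun x => ⟨t, hs.trans_le x.l, ht⟩) fun x => ⟨s, hs, ht.trans_le x.m⟩
    rw [nu s i h1, nu' s j h2, (v3 s).2.E (lt_s h1.le), (x3 s).2.E (lt_s h2.le)]
    exact s.1.pc.ne i j ((v3 s).2.n ▸ i1) h1 ((x3 s).2.n ▸ j1) h2
  · obtain ⟨s, hs⟩ := v4 i i2
    rw [(v3 s).2.ka (lt_s (s_le hs))]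
    exact s.1.ab i ((v3 s).2.n ▸ i1) hs
  · obtain ⟨s, hs⟩ := x4 i i2
    rw [(x3 s).2.ka (lt_s (s_le hs))]
    exact s.1.ab' i ((x3 s).2.n ▸ i1) hs

theorem step [CutSt.{u}] (hI : F.Iterable g) (hI' : G.Iterable g') (hF : F.EqLt T0 (F.n + 1))
    (hG : G.EqLt U0 (G.n + 1)) (n1 : F.n ≤ a) (n2 : G.n ≤ a') (l1 : ∀ i < F.n, F.la i < h)
    (l2 : ∀ i < G.n, G.la i < h) (g1 : g ≤ h) (g2 : g' ≤ h)
    (c1 : ∀ i ≤ F.n, CutPt (F.E i) (F.b i) g) (c2 : ∀ i ≤ G.n, CutPt (G.E i) (G.b i) g')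
    (s : Sg T0 U0 a a' g g' h d) (d1 : s.l < d) (d2 : s.m < d)
    (hn : ¬ Agree (s.T.E s.l) (s.U.E s.m) (min (s.T.b s.l) (s.U.b s.m) + 1)) :
    ∃ t, s.Le t ∧ ¬ t.Le s := by
  obtain ⟨v, ⟨v1, v2⟩, v3⟩ := wellFounded_lt.has_min
    {v | v < min (s.T.b s.l) (s.U.b s.m) + 1 ∧ s.T.E s.l v ≠ s.U.E s.m v}
    (by by_contra h; exact hn fun v hv => by_contra fun e => h ⟨v, hv, e⟩)
  have v4 : Agree (s.T.E s.l) (s.U.E s.m) v := fun x hx =>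
    by_contra fun e => v3 x ⟨hx.trans v1, e⟩ hx
  have hv : h ≤ v := not_lt.1 fun y => v2 (s.ag v y)
  have o1 : ∀ i, s.T.n ≤ i → i < s.l → s.T.nu i < v := fun i i1 i2 =>
    not_le.1 fun y => v2 (s.pc.ag i i1 i2 v (lt_s y))
  have o2 : ∀ i, s.U.n ≤ i → i < s.m → s.U.nu i < v := fun i i1 i2 =>
    not_le.1 fun y => v2 (s.pc.ag' i i1 i2 v (lt_s y))
  have eT := hF.trans (s.e.mono (s_le (lt_s n1)))
  have eU := hG.trans (s.e'.mono (s_le (lt_s n2)))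
  have la : ∀ {F T : IT.{u}} {l}, F.EqLt T (F.n + 1) → T.IsTr l → (∀ i < F.n, F.la i < h) →
      (∀ i, T.n ≤ i → i < l → T.nu i < v) → ∀ i < l, T.la i < v := fun e t l1 o i hi =>
    (lt_or_ge i _).elim (fun y => e.la (lt_s (s_le y)) ▸ (l1 i y).trans_le hv)
      fun y => (CmpT.la_lt_nu t (e.n ▸ y) hi).trans (o i (e.n ▸ y) hi)
  have ct : ∀ {F T : IT.{u}} {g}, F.EqLt T (F.n + 1) → (∀ i ≤ F.n, CutPt (F.E i) (F.b i) g) →
      ∀ i ≤ T.n, CutPt (T.E i) (T.b i) g := fun e c i hi => by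
    rw [e.E (lt_s (e.n ▸ hi)), e.b (lt_s (e.n ▸ hi))]; exact c i (e.n ▸ hi)
  obtain ⟨V, L, a1, a2, a3, a4, a5, a6, a7, a8, a9, a10, a11⟩ := ext1 hI eT s.pc.tr s.pc.nor s.ab
    (cut s.pc.tr s.ab (ct eT c1) _ le_rfl) ((le_s v1).trans (min_le_left _ _)) (g1.trans hv)
    (la eT s.pc.tr l1 o1) o1
  obtain ⟨X, M, b1, b2, b3, b4, b5, b6, b7, b8, b9, b10, b11⟩ := ext1 hI' eU s.pc.tr' s.pc.nor'
    s.ab' (cut s.pc.tr' s.ab' (ct eU c2) _ le_rfl) ((le_s v1).trans (min_le_right _ _))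
    (g2.trans hv) (la eU s.pc.tr' l2 o2) o2
  have pp : ∀ {E E' : Seq.{u}}, Pas E v → Pas E' v → E v = E' v := fun p q =>
    funext₂ fun x y => propext (iff_of_false (p x y) (q x y))
  have ag : Agree (V.E L) (X.E M) (v + 1) := fun x hx => (le_s hx).lt_or_eq.elim
    (fun y => ((a8 x y).symm.trans (v4 x y)).trans (b8 x y)) fun y => y ▸ pp a7 b7
  have p1 : ∀ i, V.n ≤ i → i < L → (i < s.l ∧ V.nu i = s.T.nu i ∧ V.nu i < v) ∨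
      (i = s.l ∧ V.nu i = v) := fun i i1 i2 => (lt_or_ge i s.l).imp
    (fun y => ⟨y, a3.nu (lt_s (s_le y)), a3.nu (lt_s (s_le y)) ▸ o1 i (a3.n ▸ i1) y⟩)
    fun y => ⟨(a10 i y i2).1, (a10 i y i2).1 ▸ (a10 i y i2).2⟩
  have p2 : ∀ i, X.n ≤ i → i < M → (i < s.m ∧ X.nu i = s.U.nu i ∧ X.nu i < v) ∨
      (i = s.m ∧ X.nu i = v) := fun i i1 i2 => (lt_or_ge i s.m).imp
    (fun y => ⟨y, b3.nu (lt_s (s_le y)), b3.nu (lt_s (s_le y)) ▸ o2 i (b3.n ▸ i1) y⟩)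
    fun y => ⟨(b10 i y i2).1, (b10 i y i2).1 ▸ (b10 i y i2).2⟩
  have q1 : ∀ i, V.n ≤ i → i < L → V.nu i ≤ v := fun i i1 i2 =>
    (p1 i i1 i2).elim (·.2.2.le) (·.2.le)
  have q2 : ∀ i, X.n ≤ i → i < M → X.nu i ≤ v := fun i i1 i2 =>
    (p2 i i1 i2).elim (·.2.2.le) (·.2.le)
  refine ⟨⟨V, L, X, M, s.e.trans (a3.mono (s_le (lt_s s.al))), s.e'.trans (b3.mono (s_le (lt_s s.am))),
    s.al.trans a1, s.am.trans b1, a2.trans (s_le d1), b2.trans (s_le d2),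
    ⟨a4, b4, a5, b5, fun i i1 i2 => KL.ag_mono ag (s_le (lt_s (q1 i i1 i2))),
      fun i i1 i2 => KL.ag_mono ag (s_le (lt_s (q2 i i1 i2))),
      fun i i1 i2 => (q1 i i1 i2).trans b9, fun i i1 i2 => (q2 i i1 i2).trans a9,
      fun i j i1 i2 j1 j2 e => ?_⟩, a6, b6, KL.ag_mono ag (hv.trans le_self_add),
    fun i i1 i2 => ?_, fun i i1 i2 => ?_⟩, ⟨a1, b1, a3, b3, fun i i1 i2 j j1 j2 => ?_,
      fun i i1 i2 j j1 j2 => ?_⟩, fun y => v2 (pp (a11 (y.l.antisymm a1)) (b11 (y.m.antisymm b1)))⟩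
  · rcases p1 i i1 i2 with ⟨y1, y2, y3⟩ | ⟨rfl, y2⟩ <;> rcases p2 j j1 j2 with ⟨z1, z2, z3⟩ | ⟨rfl, z2⟩
    · rw [y2, z2] at e
      rw [y2, z2, a3.E (lt_s y1.le), b3.E (lt_s z1.le)]
      exact s.pc.ne i j (a3.n ▸ i1) y1 (b3.n ▸ j1) z1 e
    · exact absurd (e.trans z2) y3.ne
    · exact absurd (e.symm.trans y2) z3.ne
    · rw [y2, z2, a3.E (lt_add_one _), b3.E (lt_add_one _)]; exact v2
  · rcases p1 i ((eT.trans (a3.mono (s_le (lt_s (n1.trans s.al))))).n ▸ n1.trans i1) i2 with y | y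
    · exact y.2.1 ▸ s.ge i i1 y.1
    · exact y.2 ▸ hv
  · rcases p2 i ((eU.trans (b3.mono (s_le (lt_s (n2.trans s.am))))).n ▸ n2.trans i1) i2 with y | y
    · exact y.2.1 ▸ s.ge' i i1 y.1
    · exact y.2 ▸ hv
  · obtain ⟨rfl, y⟩ := b10 j j1 j2
    exact (o1 i i1 i2).trans_eq y.symm
  · obtain ⟨rfl, y⟩ := a10 j j1 j2
    exact (o2 i i1 i2).trans_eq y.symm

variable [CutSt.{u}] [CompatSt.{u}] [SizeSt.{u}]

omit [TreeSt.{u}] [CutSt.{u}] [CompatSt.{u}] in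
theorem long {T U : IT.{u}} {m : Ordinal.{u}} {W : Cardinal.{u}} (hW : W.IsRegular) (h0 : ℵ₀ < W)
    (h : T.PC W.ord U m) (hn : T.n < W.ord) (hb : ∀ i ≤ U.n, U.b i < W.ord) : W.ord ≤ m :=
  not_lt.1 fun hm => by
    obtain ⟨i, i1, i2, i3⟩ := CmpT.la_cof hW.aleph0_le h.tr hn
      (SizeSt.lt h.tr' hW h0 hb m le_rfl hm)
    exact (i3.trans (CmpT.la_lt_nu h.tr i2 i1)).not_ge (h.le i i2 i1)

/-- Every unfinished comparison can be completed. -/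
theorem ext2 (hI : F.Iterable g) (hI' : G.Iterable g') (hF : F.EqLt T0 (F.n + 1))
    (hG : G.EqLt U0 (G.n + 1)) (pc : T0.PC a U0 a') (ab : T0.Above g a) (ab' : U0.Above g' a')
    (ag : Agree (T0.E a) (U0.E a') h) (l1 : ∀ i < F.n, F.la i < h)
    (l2 : ∀ i < G.n, G.la i < h) (g1 : g ≤ h) (g2 : g' ≤ h)
    (c1 : ∀ i ≤ F.n, CutPt (F.E i) (F.b i) g) (c2 : ∀ i ≤ G.n, CutPt (G.E i) (G.b i) g') :
    ∃ (T : IT.{u}) (l : Ordinal.{u}) (U : IT.{u}) (m : Ordinal.{u}),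
      T0.EqLt T (a + 1) ∧ a ≤ l ∧ U0.EqLt U (a' + 1) ∧ a' ≤ m ∧ T.Coit l U m ∧ T.Above g l ∧
      U.Above g' m ∧ (∀ i, a ≤ i → i < l → h ≤ T.nu i) ∧ ∀ j, a' ≤ j → j < m → h ≤ U.nu j := by
  have n1 : F.n ≤ a := hF.n ▸ pc.tr.le
  have n2 : G.n ≤ a' := hG.n ▸ pc.tr'.le
  obtain ⟨x, hx⟩ := Ordinal.bddAbove_of_small (s := (T0.b '' Iic a) ∪ (U0.b '' Iic a'))
  let W := Order.succ (max ℵ₀ (max x (max a a')).card)
  have hW : W.IsRegular := isRegular_succ (le_max_left _ _)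
  have h0 : ℵ₀ < W := Order.lt_succ_of_le (le_max_left _ _)
  have h1 : max x (max a a') < W.ord := lt_ord.2 (Order.lt_succ_of_le (le_max_right _ _))
  rw [max_lt_iff, max_lt_iff] at h1
  have : Nonempty (Sg T0 U0 a a' g g' h W.ord) := ⟨⟨T0, a, U0, a', EqLt.refl, EqLt.refl, le_rfl,
    le_rfl, h1.2.1.le, h1.2.2.le, pc, ab, ab', ag, fun _ i1 i2 => absurd i2 i1.not_gt,
    fun _ i1 i2 => absurd i2 i1.not_gt⟩⟩
  obtain ⟨s, hs⟩ := exists_maximal_of_nonempty_chains_bounded (r := Sg.Le)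
    (chain (h := h) (d := W.ord) hI hI' hF hG n1 n2) Sg.Le.trans
  have m1 : s.T.n ≤ a := s.e.n ▸ pc.tr.le
  have m2 : s.U.n ≤ a' := s.e'.n ▸ pc.tr'.le
  have b1 : ∀ i ≤ s.T.n, s.T.b i < W.ord := fun i hi => s.e.b (lt_s (hi.trans m1)) ▸
    (hx (Or.inl ⟨i, hi.trans m1, rfl⟩)).trans_lt h1.1
  have b2 : ∀ i ≤ s.U.n, s.U.b i < W.ord := fun i hi => s.e'.b (lt_s (hi.trans m2)) ▸
    (hx (Or.inr ⟨i, hi.trans m2, rfl⟩)).trans_lt h1.1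
  have fin : ¬ (s.l = W.ord ∧ s.m = W.ord) := fun ⟨e1, e2⟩ =>
    CmpT.term hW h0 (by have := s.pc; rwa [e1, e2] at this) (m1.trans_lt h1.2.1)
      (m2.trans_lt h1.2.2) (fun i hi => SizeSt.lt s.pc.tr hW h0 b1 i (hi.le.trans e1.ge) hi)
      fun i hi => SizeSt.lt s.pc.tr' hW h0 b2 i (hi.le.trans e2.ge) hi
  have d1 : s.l < W.ord := s.ld.lt_of_ne fun e =>
    fin ⟨e, s.md.antisymm (long hW h0 (by have := s.pc; rwa [e] at this)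
      (m1.trans_lt h1.2.1) b2)⟩
  have d2 : s.m < W.ord := s.md.lt_of_ne fun e =>
    fin ⟨s.ld.antisymm (long hW h0 (by have := CmpT.symm s.pc; rwa [e] at this)
      (m2.trans_lt h1.2.2) b1), e⟩
  refine ⟨s.T, s.l, s.U, s.m, s.e, s.al, s.e', s.am, ⟨s.pc.tr, s.pc.tr', s.pc.nor, s.pc.nor',
    by_contra fun hn => ?_, s.pc.le, s.pc.le', s.pc.ne⟩, s.ab, s.ab', s.ge, s.ge'⟩
  obtain ⟨t, t1, t2⟩ := step hI hI' hF hG n1 n2 l1 l2 g1 g2 c1 c2 s d1 d2 hn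
  exact t2 (hs t t1)

/-- Comparison that continues a given tree on the left side. -/
theorem ext (hI : F.Iterable g) (hI' : G.Iterable g') (hF : F.EqLt T0 (F.n + 1))
    (tr : T0.IsTr a) (nor : T0.Normal a) (ab : T0.Above g a) (ag : Agree (T0.E a) (G.E G.n) h)
    (nu : ∀ i, T0.n ≤ i → i < a → T0.nu i < h ∧ T0.nu i ≤ G.b G.n) (l1 : ∀ i < F.n, F.la i < h)
    (l2 : ∀ i < G.n, G.la i < h) (g1 : g ≤ h) (g2 : g' ≤ h)
    (c1 : ∀ i ≤ F.n, CutPt (F.E i) (F.b i) g) (c2 : ∀ i ≤ G.n, CutPt (G.E i) (G.b i) g') :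
    ∃ (T : IT.{u}) (l : Ordinal.{u}) (U : IT.{u}) (m : Ordinal.{u}),
      T0.EqLt T (a + 1) ∧ a ≤ l ∧ G.EqLt U (G.n + 1) ∧ T.Coit l U m ∧ T.Above g l ∧
      U.Above g' m ∧ (∀ i, a ≤ i → i < l → h ≤ T.nu i) ∧ ∀ j, U.n ≤ j → j < m → h ≤ U.nu j :=
  let ⟨T, l, U, m, a1, a2, a3, _, a5, a6, a7, a8, a9⟩ := ext2 hI hI' hF EqLt.refl
    ⟨tr, hI'.phal.isTr, nor, fun _ _ i1 i2 i3 => absurd (i2.trans i3) i1.not_gt,
      fun i i1 i2 => KL.ag_mono ag (s_le (nu i i1 i2).1), fun _ i1 i2 => absurd i2 i1.not_gt,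
      fun i i1 i2 => (nu i i1 i2).2, fun _ i1 i2 => absurd i2 i1.not_gt,
      fun _ _ _ _ i1 i2 => absurd i2 i1.not_gt⟩ ab (fun _ i1 i2 => absurd i2 i1.not_gt) ag
    l1 l2 g1 g2 c1 c2
  ⟨T, l, U, m, a1, a2, a3, a5, a6, a7, a8, fun j j1 => a9 j (a3.n ▸ j1)⟩

end Cmp

instance [TreeSt.{u}] [CutSt.{u}] [CompatSt.{u}] [SizeSt.{u}] : CmpSt.{u} :=
  ⟨fun hI hI' ag l1 l2 g1 g2 c1 c2 =>
    let ⟨T, l, U, m, a1, _, a3, a4, a5, a6, a7, a8⟩ := Cmp.ext hI hI' EqLt.refl hI.phal.isTr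
      (fun _ _ i1 i2 i3 => absurd (i2.trans i3) i1.not_gt) (fun _ i1 i2 => absurd i2 i1.not_gt) ag
      (fun _ i1 i2 => absurd i2 i1.not_gt) l1 l2 g1 g2 c1 c2
    ⟨T, l, U, m, a1, a3, a4, a5, a6, fun i i1 => a7 i (a1.n ▸ i1), a8⟩,
    CmpA.ta_eq, CmpA.nocomp, CmpA.nobranch⟩

end Pool.Agent.KM
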