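import Pool.Agent.Lib.MP_5c0be7_lc.F.TreeOrd
import Pool.Agent.Lib.MP_5c0be7_lc.K.Loc

/-!
Project KM, block F8: extenders used on the two sides of a comparison are incompatible.
-/

namespace Pool.Agent.KM.CmpA

open Ordinal Tr IT

universe u

variable {T U : IT.{u}} {l m i j : Ordinal.{u}}

theorem symm (h : T.Coit l U m) : U.Coit m T l :=
  ⟨h.tr', h.tr, h.nor', h.nor, min_comm (T.b l) (U.b m) ▸ KL.ag_symm h.agree, h.le', h.le,
    fun j i j1 j2 i1 i2 e => (h.ne i j i1 i2 j1 j2 e.symm).symm⟩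

theorem next_uniq {E : Seq.{u}} {d k t t'} (h : IsNext E d k t) (h' : IsNext E d k t') : t = t' :=
  (KL.top_le h.2.2.1 (KL.noProj_mono h'.2.2.2 h.2.1)).antisymm
    (KL.top_le h'.2.2.1 (KL.noProj_mono h.2.2.2 h'.2.1))

variable [TreeSt.{u}]

theorem next (h : T.Coit l U m) (i1 : T.n ≤ i) (i2 : i < l) :
    IsNext (T.E l) (min (T.b l) (U.b m) + 1) (T.ka i) (T.ta i) := by
  obtain ⟨h1, -, h2, h3⟩ := TreeSt.nu_agree h.tr h.nor i1 i2 le_rfl
  have a := (h.tr.step i i1 i2).use.act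
  refine ⟨a.lt, (a.dom.le.trans (le_min h2 (h.le i i1 i2))).trans (lt_add_one _).le,
    KL.topC_ag (KL.ag_mono h1 a.dom.le) a.top, fun x x1 x2 => ?_⟩
  rcases lt_or_ge x (T.nu i) with h4 | h4
  · exact KL.noProj_ag h1 a.next x x1 h4
  · exact (a.lt.trans a.dom).trans_le (h3 x h4 (lt_s ((le_s x2).trans (min_le_left _ _))))

theorem ta_eq (h : T.Coit l U m) (i1 : T.n ≤ i) (i2 : i < l) (j1 : U.n ≤ j) (j2 : j < m)
    (hk : T.ka i = U.ka j) : T.ta i = U.ta j := by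
  have h1 := next (symm h) j1 j2
  rw [← hk, min_comm] at h1
  exact next_uniq (KL.next_ag h.agree (next h i1 i2)) h1

theorem agree (h : T.Coit l U m) (i1 : T.n ≤ i) (i2 : i < l) (j1 : U.n ≤ j) (j2 : j < m) :
    Agree (T.E i) (U.E j) (min (T.nu i) (U.nu j)) := by
  obtain ⟨h1, -, h2, -⟩ := TreeSt.nu_agree h.tr h.nor i1 i2 le_rfl
  obtain ⟨h3, -⟩ := TreeSt.nu_agree h.tr' h.nor' j1 j2 le_rfl
  exact KL.ag_trans (KL.ag_trans (KL.ag_mono h1 (min_le_left _ _)) (KL.ag_mono h.agree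
    ((min_le_left _ _).trans ((le_min h2 (h.le i i1 i2)).trans (lt_add_one _).le))))
    (KL.ag_mono (KL.ag_symm h3) (min_le_right _ _))

theorem branch (h : T.IsTr l) (hn : T.Normal l) (i1 : T.n ≤ i) (i2 : i < l) (hd : T.ND (i + 1) l)
    {X a} (hX : In (T.ta i) X) (ha : In (T.la i) a) :
    Nm (T.E l) (X.map (T.mp (i + 1) l ∘ T.im i)) a ↔ Nm (T.E i) (X.map (T.e i)) a := by
  have s := h.step i i1 i2
  obtain ⟨h1, -, h2, -⟩ := TreeSt.nu_agree h hn i1 (lt_add_one i) (s_le i2)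
  have h3 := KE.w_in s.use.act.weak hX
  have h4 : T.la i < T.nu i := s.la ▸ s.use.act.weak.maps _ s.use.act.lt
  have h5 := KN.wnm (TreeSt.strong h le_rfl hd).toWeak (h3.mono (h2.trans (lt_add_one _).le))
    (ha.mono (h4.le.trans (h2.trans (lt_add_one _).le)))
  rw [map_eq_self fun y hy => TreeSt.fix h le_rfl hd (lt_add_one i) y (ha y hy)] at h5
  rw [← KN.mm, KN.map_eq s.ext hX, h5, KN.anm h1 h3]

variable [CompatSt.{u}]

theorem nocomp' (h : T.Coit l U m) (i1 : T.n ≤ i) (i2 : i < l) (j1 : U.n ≤ j) (j2 : j < m)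
    (hk : T.ka i = U.ka j) (hl : T.la i ≤ U.la j) :
    ¬ ∀ X a, In (T.ta i) X → In (T.la i) a →
      (Nm (T.E i) (X.map (T.e i)) a ↔ Nm (U.E j) (X.map (U.e j)) a) := by
  intro H
  have s := h.tr.step i i1 i2
  have s' := h.tr'.step j j1 j2
  have ht := ta_eq h i1 i2 j1 j2 hk
  have a := s'.use.act
  have h1 := s'.la
  rw [← hk] at h1
  rw [← hk, ← ht] at a
  obtain ⟨h2, h3⟩ := CompatSt.eq
    (KE.pm_mono (TreeSt.pm h.tr i2.le) (s.use.le.trans (lt_add_one _).le)).ls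
    (KE.pm_mono (TreeSt.pm h.tr' j2.le) (s'.use.le.trans (lt_add_one _).le)).ls s.use.act a
    (s.la ▸ h1 ▸ hl) (s.la ▸ H)
    (KL.ag_mono (agree h i1 i2 j1 j2) (le_min s.use.act.dom.le a.dom.le))
  exact h.ne i j i1 i2 j1 j2 h2 h3

theorem nocomp (h : T.Coit l U m) (i1 : T.n ≤ i) (i2 : i < l) (j1 : U.n ≤ j) (j2 : j < m)
    (hk : T.ka i = U.ka j) :
    ¬ ∀ X a, In (T.ta i) X → In (T.la i) a → In (U.la j) a →
      (Nm (T.E i) (X.map (T.e i)) a ↔ Nm (U.E j) (X.map (U.e j)) a) := fun H =>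
  (le_total (T.la i) (U.la j)).elim
    (fun hl => nocomp' h i1 i2 j1 j2 hk hl fun X a h1 h2 => H X a h1 h2 (h2.mono hl))
    fun hl => nocomp' (symm h) j1 j2 i1 i2 hk.symm hl fun X a h1 h2 =>
      (H X a (ta_eq h i1 i2 j1 j2 hk ▸ h1) (h2.mono hl) h2).symm

theorem nobranch (h : T.Coit l U m) (i1 : T.n ≤ i) (i2 : i < l) (j1 : U.n ≤ j) (j2 : j < m)
    (hd : T.ND (i + 1) l) (hd' : U.ND (j + 1) m) (hk : T.ka i = U.ka j) :
    ¬ ∀ X a, In (T.ta i) X → In (T.la i) a → In (U.la j) a →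
      (Nm (T.E l) (X.map (T.mp (i + 1) l ∘ T.im i)) a ↔
        Nm (U.E m) (X.map (U.mp (j + 1) m ∘ U.im j)) a) := fun H =>
  nocomp h i1 i2 j1 j2 hk fun X a h1 h2 h3 => by
    rw [← branch h.tr h.nor i1 i2 hd h1 h2,
      ← branch h.tr' h.nor' j1 j2 hd' (ta_eq h i1 i2 j1 j2 hk ▸ h1) h3]
    exact H X a h1 h2 h3

end Pool.Agent.KM.CmpA
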