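import Pool.Agent.Lib.MP_5c0be7_lc.F.CmpA
import Pool.Agent.Lib.MP_5c0be7_lc.T.Fat

/-!
Project KM, block F8: a comparison does not reach a regular cardinal above the roots.
-/

namespace Pool.Agent.KM

open Ordinal Tr IT Cardinal Set

universe u

/-- A comparison that is not yet finished. -/
structure IT.PC (T : IT.{u}) (l : Ordinal.{u}) (U : IT.{u}) (m : Ordinal.{u}) : Prop where
  tr : T.IsTr l
  tr' : U.IsTr m
  nor : T.Normal l
  nor' : U.Normal m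
  ag : ∀ i, T.n ≤ i → i < l → Agree (T.E l) (U.E m) (T.nu i + 1)
  ag' : ∀ j, U.n ≤ j → j < m → Agree (T.E l) (U.E m) (U.nu j + 1)
  le : ∀ i, T.n ≤ i → i < l → T.nu i ≤ U.b m
  le' : ∀ j, U.n ≤ j → j < m → U.nu j ≤ T.b l
  ne : ∀ i j, T.n ≤ i → i < l → U.n ≤ j → j < m → T.nu i = U.nu j →
    T.E i (T.nu i) ≠ U.E j (U.nu j)

namespace CmpT

variable {T U : IT.{u}} {l m i j c k : Ordinal.{u}} {W : Cardinal.{u}}

theorem symm (h : T.PC l U m) : U.PC m T l :=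
  ⟨h.tr', h.tr, h.nor', h.nor, fun j a b => KL.ag_symm (h.ag' j a b),
    fun j a b => KL.ag_symm (h.ag j a b), h.le', h.le,
    fun j i j1 j2 i1 i2 e => (h.ne i j i1 i2 j1 j2 e.symm).symm⟩

theorem la_lt_nu (h : T.IsTr l) (i1 : T.n ≤ i) (i2 : i < l) : T.la i < T.nu i :=
  have s := h.step i i1 i2
  s.la ▸ s.use.act.weak.maps _ s.use.act.lt

theorem la_lt (h : T.IsTr l) (i1 : T.n ≤ i) (i2 : i < j) (j2 : j < l) : T.la i < T.la j :=
  have s := h.step j (i1.trans i2.le) j2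
  s.la ▸ s.use.inc' i i2 i1

theorem le_la (h : T.IsTr l) (x : Ordinal.{u}) (hx : T.n + x < l) : x ≤ T.la (T.n + x) := by
  induction x using WellFoundedLT.induction with
  | ind x ih =>
    refine le_of_forall_lt fun y hy => ?_
    have h1 : T.n + y < T.n + x := (add_lt_add_iff_left _).2 hy
    exact (ih y hy (h1.trans hx)).trans_lt (la_lt h le_self_add h1 hx)

theorem la_cof (hW : ℵ₀ ≤ W) (h : T.IsTr W.ord) (hn : T.n < W.ord) {x} (hx : x < W.ord) :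
    ∃ i < W.ord, T.n ≤ i ∧ x < T.la i :=
  have h1 := isPrincipal_add_ord hW hn ((isSuccLimit_ord hW).add_one_lt hx)
  ⟨_, h1, le_self_add, (lt_add_one x).trans_le (le_la h _ h1)⟩

theorem mp_id (h : T.IsTr l) (hj : j ≤ l) {x} (hx : x ≤ T.b j) : T.mp j j x = x := by
  rcases le_or_gt j T.n with h1 | h1
  · exact h.phal.id j h1 x hx
  rcases zero_or_succ_or_isSuccLimit j with rfl | ⟨d, rfl⟩ | h2
  · simp at h1
  · exact (h.step d (le_s h1) (s_lt hj)).id x hx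
  · exact (h.lim j h1 hj h2).id x hx

variable [TreeSt.{u}]

theorem next (h : T.IsTr l) (hn : T.Normal l) (i1 : T.n ≤ i) (i2 : i < l) {d}
    (h0 : T.nu i ≤ d) (hd : d ≤ T.b l) : IsNext (T.E l) d (T.ka i) (T.ta i) := by
  obtain ⟨h1, -, h2, h3⟩ := TreeSt.nu_agree h hn i1 i2 le_rfl
  have a := (h.step i i1 i2).use.act
  refine ⟨a.lt, a.dom.le.trans h0,
    KL.topC_ag (KL.ag_mono h1 a.dom.le) a.top, fun x x1 x2 => ?_⟩
  rcases lt_or_ge x (T.nu i) with h4 | h4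
  · exact KL.noProj_ag h1 a.next x x1 h4
  · exact (a.lt.trans a.dom).trans_le (h3 x h4 (lt_s (x2.le.trans hd)))

theorem ta_eq (h : T.PC l U m) (i1 : T.n ≤ i) (i2 : i < l) (j1 : U.n ≤ j) (j2 : j < m)
    (hk : T.ka i = U.ka j) : T.ta i = U.ta j := by
  have h1 := next h.tr h.nor i1 i2 (le_max_left _ (U.nu j))
    (max_le (TreeSt.nu_agree h.tr h.nor i1 i2 le_rfl).2.2.1 (h.le' j j1 j2))
  have h2 := next h.tr' h.nor' j1 j2 (le_max_right (T.nu i) _)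
    (max_le (h.le i i1 i2) (TreeSt.nu_agree h.tr' h.nor' j1 j2 le_rfl).2.2.1)
  refine CmpA.next_uniq (KL.next_ag (fun v hv => ?_) h1) (hk ▸ h2)
  exact (lt_max_iff.1 hv).elim (fun h3 => h.ag i i1 i2 v (lt_s h3.le))
    fun h3 => h.ag' j j1 j2 v (lt_s h3.le)

theorem agree (h : T.PC l U m) (i1 : T.n ≤ i) (i2 : i < l) (j1 : U.n ≤ j) (j2 : j < m) :
    Agree (T.E i) (U.E j) (min (T.nu i) (U.nu j)) := fun v hv =>
  (((TreeSt.nu_agree h.tr h.nor i1 i2 le_rfl).1 v (hv.trans_le (min_le_left _ _))).trans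
    (h.ag i i1 i2 v (lt_s (hv.le.trans (min_le_left _ _))))).trans
    ((TreeSt.nu_agree h.tr' h.nor' j1 j2 le_rfl).1 v (hv.trans_le (min_le_right _ _))).symm

theorem mp_le (h : T.IsTr l) (hj : j ≤ l) (hd : T.ND i j) {x} (hx : x ≤ T.b i) :
    T.mp i j x ≤ T.b j := le_s ((TreeSt.strong h hj hd).maps x (lt_s hx))

theorem mp_lt (h : T.IsTr l) (hj : j ≤ l) (hd : T.ND i j) {x y} (hx : x ≤ T.b i) (hy : y ≤ T.b i) :
    T.mp i j x < T.mp i j y ↔ x < y := KE.w_lt (TreeSt.strong h hj hd).toWeak (lt_s hx) (lt_s hy)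

theorem back (h : T.IsTr l) (c1 : T.n < c) (c2 : c ≤ l) (c3 : Order.IsSuccLimit c) {X}
    (hX : In (T.b c + 1) X) :
    ∃ i < c, T.ND i c ∧ ∃ Y, In (T.b i + 1) Y ∧ Y.map (T.mp i c) = X := by
  have L := h.lim c c1 c2 c3
  induction X with
  | nil => exact let ⟨i, h1, h2⟩ := L.ex; ⟨i, h1, h2, .nil, in_nil _, rfl⟩
  | leaf a =>
    obtain ⟨i, h1, h2, x, h3, h4⟩ := L.onto (le_s ((in_leaf _ _).1 hX))
    exact ⟨i, h1, h2, leaf x, (in_leaf _ _).2 (lt_s h3), by rw [map_leaf, h4]⟩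
  | node X1 X2 ih1 ih2 =>
    obtain ⟨i, i1, i2, Y, y1, y2⟩ := ih1 ((in_node _ _ _).1 hX).1
    obtain ⟨j, j1, j2, Z, z1, z2⟩ := ih2 ((in_node _ _ _).1 hX).2
    have up : ∀ {i j Y}, i ≤ j → j < c → T.ND i c → T.ND j c → In (T.b i + 1) Y →
        In (T.b j + 1) (Y.map (T.mp i j)) ∧ (Y.map (T.mp i j)).map (T.mp j c) = Y.map (T.mp i c) :=
      fun a1 a2 a3 a4 a5 => ⟨KE.w_in (TreeSt.strong h (a2.le.trans c2) (a3.cut a1 a4.1)).toWeak a5,
        (map_map _ _ _).trans (map_congr fun x hx => L.comm a1 a2 a3 a4 x (le_s (a5 x hx)))⟩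
    rcases le_total i j with h1 | h1
    · obtain ⟨u1, u2⟩ := up h1 j1 i2 j2 y1
      exact ⟨j, j1, j2, node _ Z, (in_node _ _ _).2 ⟨u1, z1⟩, by rw [map_node, u2, y2, z2]⟩
    · obtain ⟨u1, u2⟩ := up h1 i1 j2 i2 z1
      exact ⟨i, i1, i2, node Y _, (in_node _ _ _).2 ⟨y1, u1⟩, by rw [map_node, u2, y2, z2]⟩

/-- The trees over the last model that come from node `i`. -/
def Im (T : IT.{u}) (l i : Ordinal.{u}) : Set Tr.{u} :=
  {X | T.ND i l ∧ ∃ Y, In (T.b i + 1) Y ∧ Y.map (T.mp i l) = X}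

theorem im_lim (h : T.IsTr l) (c1 : T.n < c) (c2 : c ≤ l) (c3 : Order.IsSuccLimit c) {X}
    (hX : X ∈ Im T l c) : ∃ i < c, X ∈ Im T l i := by
  obtain ⟨h1, Y, h2, rfl⟩ := hX
  obtain ⟨i, i1, i2, Z, z1, rfl⟩ := back h c1 c2 c3 h2
  exact ⟨i, i1, i2.trans h1, Z, z1, ((map_map _ _ _).trans
    (map_congr fun x hx => TreeSt.comp h le_rfl i2 h1 x (le_s (z1 x hx)))).symm⟩

theorem im_mono (h : T.IsTr l) (hi : i ≤ c) (hc : T.ND c l) {X} (hX : X ∈ Im T l i) :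
    X ∈ Im T l c := by
  obtain ⟨h1, Y, h2, rfl⟩ := hX
  have h3 := h1.cut hi hc.1
  exact ⟨hc, _, KE.w_in (TreeSt.strong h hc.le h3).toWeak h2, (map_map _ _ _).trans
    (map_congr fun x hx => TreeSt.comp h le_rfl h3 hc x (le_s (h2 x hx)))⟩

omit [TreeSt.{u}] in
theorem im_leaf {y} (hX : leaf y ∈ Im T l i) : ∃ x ≤ T.b i, T.mp i l x = y := by
  obtain ⟨-, Y, h2, h3⟩ := hX
  obtain ⟨x, rfl, h4⟩ := map_eq_leaf.1 h3
  exact ⟨x, le_s ((in_leaf _ _).1 h2), h4⟩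

omit [TreeSt.{u}] in
theorem im_small (hW : W.IsRegular) (h0 : ℵ₀ < W) (hb : T.b i < W.ord) :
    HasCardinalLT (Im T l i) W := by
  refine small_mono (small_image (X := {Y | In (T.b i + 1) Y}) ?_ (Tr.map (T.mp i l)))
    fun X hX => hX.2
  unfold HasCardinalLT
  rw [Cardinal.lift_id'.{u, u + 1}]
  exact KL.mk_in_lt h0 ((isSuccLimit_ord hW.aleph0_le).add_one_lt hb)

/-- Almost every node of a long tree is on the branch and is the critical point of its map. -/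
theorem side (hW : W.IsRegular) (h0 : ℵ₀ < W) (h : T.IsTr W.ord) (hn : T.n < W.ord)
    (hb : ∀ i < W.ord, T.b i < W.ord) :
    Clb W.ord {c | T.ND c W.ord ∧ T.n < c ∧ Order.IsSuccLimit c ∧
      (∀ x < c, T.mp c W.ord x = x) ∧
      ∃ k, T.n ≤ k ∧ k < W.ord ∧ T.pr k = c ∧ T.ND (k + 1) W.ord ∧ T.ka k = c ∧ T.ta k ≤ T.b c ∧
        ∀ x ≤ T.b c, T.mp (k + 1) W.ord (T.im k x) = T.mp c W.ord x} := by
  have hl := isSuccLimit_ord hW.aleph0_le
  have hc := Clb.cof_reg hW h0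
  obtain ⟨m0, m1, m2⟩ := (h.lim _ hn le_rfl hl).ex
  have h1 : Clb W.ord {c | T.ND c W.ord} := by
    refine ⟨{c | T.ND c W.ord}, fun a ha => ?_, fun c c1 c2 c3 => ?_⟩
    · obtain ⟨x, x1, x2, x3⟩ := TreeSt.cof hn hl (fun j j1 j2 => h.mono j2 j1.le) _ (max_lt ha m1)
      exact ⟨x, m2.tail ((le_max_right _ _).trans x1.le) x3, (le_max_left _ _).trans_lt x1, x2⟩
    · obtain ⟨x, x1, -, x2⟩ := c3 0 c2
      exact x1.tail x2.le (le_closed c1.le fun a ha =>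
        let ⟨y, y1, y2, y3⟩ := c3 a ha; ⟨y, y2, y3.le, y1.1⟩)
  have h2 := Clb.wit hW h0 (R := fun a y => a < T.la y) fun a ha =>
    let ⟨i, i1, _, i2⟩ := la_cof hW.aleph0_le h hn ha; ⟨i, i1, i2⟩
  have h3 : W.ord ≤ T.b W.ord := le_of_forall_lt fun a ha =>
    let ⟨i, i1, _, i2⟩ := la_cof hW.aleph0_le h hn ha
    i2.trans_le (TreeSt.la_le h i1 i1.le le_rfl)
  obtain ⟨i0, i1, i2⟩ := im_lim h hn le_rfl hl (X := leaf W.ord)
    ⟨ND.refl, leaf _, (in_leaf _ _).2 (lt_s h3), by rw [map_leaf, mp_id h le_rfl h3]⟩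
  have h4 := Clb.filtr hW h0 (A := fun i => Im T W.ord i ∩ {X | In W.ord X})
    (B := fun j => {X | In j X}) (fun i hi => small_mono (im_small hW h0 (hb i hi))
      inter_subset_left) fun i _ X hX => ⟨_, hX.2.ht_lt hl, in_ht X⟩
  refine ((((h1.inter hc h2).inter hc h4).inter hc (Clb.limits hl)).inter hc
    (Clb.gt hl (max_lt hn i1))).mono fun c c1 ⟨⟨⟨⟨a1, a2⟩, a3⟩, a4⟩, a5⟩ => ?_
  have n1 : T.n < c := (le_max_left _ _).trans_lt a5
  have f : ∀ x < c, T.mp c W.ord x = x := fun x hx =>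
    let ⟨y, y1, y2⟩ := a2 x hx; TreeSt.fix h le_rfl a1 y1 x y2
  have cb : c ≤ T.b c := le_of_forall_lt fun x hx =>
    let ⟨y, y1, y2⟩ := a2 x hx; y2.trans_le (TreeSt.la_le h (y1.trans c1) y1.le c1.le)
  have mv : c < T.mp c W.ord c := by
    refine lt_of_le_of_ne (KE.w_self (TreeSt.strong h le_rfl a1).toWeak (lt_s cb)) fun e => ?_
    obtain ⟨i, i3, i4⟩ := im_lim h n1 c1.le a4 (X := leaf c)
      ⟨a1, leaf c, (in_leaf _ _).2 (lt_s cb), by rw [map_leaf, ← e]⟩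
    obtain ⟨j, j1, j2⟩ := a3 i i3 _ ⟨i4, (in_leaf _ _).2 c1⟩
    exact j1.not_gt ((in_leaf _ _).1 j2)
  obtain ⟨k, k1, k2, k3, k4, k5⟩ := TreeSt.next h le_rfl a1 c1
  have s := h.step k k1 k2
  have A := s.use.act
  have nd : T.ND c (k + 1) := k3 ▸ nd_pr k1 (TreeSt.pred_le (h.mono k1 k2.le) s.use s.pred) k4
  have tb : T.ta k ≤ T.b c := k3 ▸ s.pred.ta_le.trans s.pred.st_le
  have e : ∀ x ≤ T.b c, T.mp (k + 1) W.ord (T.im k x) = T.mp c W.ord x := fun x hx => by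
    rw [← TreeSt.comp h le_rfl nd k5 x hx, s.mp c (k3 ▸ s.pred.le) nd x hx, k3,
      mp_id h c1.le hx]
  refine ⟨a1, n1, a4, f, k, k1, k2, k3, k5, le_antisymm (not_lt.1 fun h5 => mv.ne' ?_)
    (not_lt.1 fun h5 => ?_), tb, e⟩
  · rw [← e c cb, s.ext c (h5.trans A.lt), A.fix c h5]
    exact TreeSt.fix h le_rfl k5 (lt_add_one k) c (h5.trans (s.la ▸ A.move))
  · have h6 := e _ (h5.le.trans cb)
    rw [f _ h5, s.ext _ A.lt] at h6
    exact A.move.not_ge ((KE.w_self (TreeSt.strong h le_rfl k5).toWeak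
      (lt_s (s.la ▸ TreeSt.la_le h k2 (lt_add_one k).le (s_le k2)))).trans_eq h6)

omit [TreeSt.{u}] in
/-- Two increasing enumerations of the same set agree. -/
theorem enum_eq {f g : Ordinal.{u} → Ordinal.{u}} {a b : Ordinal.{u}}
    (hf : ∀ x ≤ a, ∀ y ≤ a, f x < f y ↔ x < y) (hg : ∀ x ≤ b, ∀ y ≤ b, g x < g y ↔ x < y)
    (h1 : ∀ x ≤ a, x ≤ b → f x ≤ g x → ∃ z ≤ b, g z = f x)
    (h2 : ∀ x ≤ a, x ≤ b → g x ≤ f x → ∃ z ≤ a, f z = g x) : ∀ x ≤ a, x ≤ b → f x = g x := by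
  intro x
  induction x using WellFoundedLT.induction with
  | ind x ih =>
    intro xa xb
    rcases le_total (f x) (g x) with h | h
    · obtain ⟨z, z1, z2⟩ := h1 x xa xb h
      rcases (not_lt.1 fun h3 => ((hg x xb z z1).2 h3).not_ge (z2 ▸ h)).lt_or_eq with h3 | rfl
      · exact absurd ((ih z h3 (h3.le.trans xa) z1).trans z2) ((hf z (h3.le.trans xa) x xa).2 h3).ne
      · exact z2.symm
    · obtain ⟨z, z1, z2⟩ := h2 x xa xb h
      rcases (not_lt.1 fun h3 => ((hf x xa z z1).2 h3).not_ge (z2 ▸ h)).lt_or_eq with h3 | rfl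
      · exact absurd ((ih z h3 z1 (h3.le.trans xb)).symm.trans z2)
          ((hg z (h3.le.trans xb) x xb).2 h3).ne
      · exact z2

theorem two (hW : W.IsRegular) (h0 : ℵ₀ < W) (h : U.IsTr W.ord) (hn : U.n < W.ord)
    (hb : ∀ i < W.ord, T.b i < W.ord) :
    Clb W.ord {c | ∀ i < c, ∀ X ∈ Im T W.ord i ∩ {X | In (U.b W.ord + 1) X},
      ∃ j < c, X ∈ Im U W.ord j} :=
  Clb.filtr hW h0 (fun i hi => small_mono (im_small hW h0 (hb i hi)) inter_subset_left)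
    fun _ _ X hX => im_lim h hn le_rfl (isSuccLimit_ord hW.aleph0_le)
      ⟨ND.refl, X, hX.2, map_eq_self fun a ha => mp_id h le_rfl (le_s (hX.2 a ha))⟩

variable [CompatSt.{u}]

theorem nocomp' (h : T.PC l U m) (i1 : T.n ≤ i) (i2 : i < l) (j1 : U.n ≤ j) (j2 : j < m)
    (hk : T.ka i = U.ka j) (hl : T.la i ≤ U.la j) :
    ¬ ∀ X a, In (T.ta i) X → In (T.la i) a →
      (Nm (T.E i) (X.map (T.e i)) a ↔ Nm (U.E j) (X.map (U.e j)) a) := by
  intro H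
  have s := h.tr.step i i1 i2
  have s' := h.tr'.step j j1 j2
  have ht := ta_eq h i1 i2 j1 j2 hk
  have a := s'.use.act
  have h1 := s'.la
  rw [← hk] at h1
  rw [← hk, ← ht] at a
  obtain ⟨h2, h3⟩ := CompatSt.eq
    (KE.pm_mono (TreeSt.pm h.tr i2.le) (s.use.le.trans (lt_add_one _).le)).ls
    (KE.pm_mono (TreeSt.pm h.tr' j2.le) (s'.use.le.trans (lt_add_one _).le)).ls s.use.act a
    (s.la ▸ h1 ▸ hl) (s.la ▸ H)
    (KL.ag_mono (agree h i1 i2 j1 j2) (le_min s.use.act.dom.le a.dom.le))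
  exact h.ne i j i1 i2 j1 j2 h2 h3

theorem nocomp (h : T.PC l U m) (i1 : T.n ≤ i) (i2 : i < l) (j1 : U.n ≤ j) (j2 : j < m)
    (hk : T.ka i = U.ka j) :
    ¬ ∀ X a, In (T.ta i) X → In (T.la i) a → In (U.la j) a →
      (Nm (T.E i) (X.map (T.e i)) a ↔ Nm (U.E j) (X.map (U.e j)) a) := fun H =>
  (le_total (T.la i) (U.la j)).elim
    (fun hl => nocomp' h i1 i2 j1 j2 hk hl fun X a h1 h2 => H X a h1 h2 (h2.mono hl))
    fun hl => nocomp' (symm h) j1 j2 i1 i2 hk.symm hl fun X a h1 h2 =>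
      (H X a (ta_eq h i1 i2 j1 j2 hk ▸ h1) (h2.mono hl) h2).symm

theorem term (hW : W.IsRegular) (h0 : ℵ₀ < W) (h : T.PC W.ord U W.ord) (hn : T.n < W.ord)
    (hn' : U.n < W.ord) (hb : ∀ i < W.ord, T.b i < W.ord) (hb' : ∀ i < W.ord, U.b i < W.ord) :
    False := by
  have hl := isSuccLimit_ord hW.aleph0_le
  have hc := Clb.cof_reg hW h0
  have h4 := Clb.filtr hW h0 (A := fun i => Im T W.ord i ∩
      {X | ∃ a, In W.ord a ∧ ¬ (Nm (T.E W.ord) X a ↔ Nm (U.E W.ord) X a)})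
    (B := fun j => {X | ∃ a, In j a ∧ ¬ (Nm (T.E W.ord) X a ↔ Nm (U.E W.ord) X a)})
    (fun i hi => small_mono (im_small hW h0 (hb i hi)) inter_subset_left)
    fun i _ X hX => let ⟨a, a1, a2⟩ := hX.2; ⟨_, a1.ht_lt hl, a, in_ht a, a2⟩
  obtain ⟨c, ⟨⟨⟨⟨⟨a1, a2, a3, a4, k, k1, k2, k3, k4, k5, k6, k7⟩,
    b1, b2, -, b4, j, j1, j2, j3, j4, j5, j6, j7⟩, c1⟩, c2⟩, c3⟩, -, c4⟩ :=
    (((((side hW h0 h.tr hn hb).inter hc (side hW h0 h.tr' hn' hb')).inter hc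
      (two hW h0 h.tr' hn' hb)).inter hc (two hW h0 h.tr hn hb')).inter hc h4).unb hc 0 hl.pos
  have ht := ta_eq h k1 k2 j1 j2 (k5.trans j5.symm)
  have e := enum_eq (fun x hx y hy => mp_lt h.tr le_rfl a1 hx hy)
    (fun x hx y hy => mp_lt h.tr' le_rfl b1 hx hy)
    (fun x x1 x2 x3 => by
      obtain ⟨i, i1, i2⟩ := im_lim h.tr a2 c4.le a3 (X := leaf (T.mp c W.ord x))
        ⟨a1, leaf x, (in_leaf _ _).2 (lt_s x1), rfl⟩
      obtain ⟨i', i3, i4⟩ := c1 i i1 _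
        ⟨i2, (in_leaf _ _).2 (lt_s (x3.trans (mp_le h.tr' le_rfl b1 x2)))⟩
      exact im_leaf (im_mono h.tr' i3.le b1 i4))
    (fun x x1 x2 x3 => by
      obtain ⟨i, i1, i2⟩ := im_lim h.tr' b2 c4.le a3 (X := leaf (U.mp c W.ord x))
        ⟨b1, leaf x, (in_leaf _ _).2 (lt_s x2), rfl⟩
      obtain ⟨i', i3, i4⟩ := c2 i i1 _
        ⟨i2, (in_leaf _ _).2 (lt_s (x3.trans (mp_le h.tr le_rfl a1 x1)))⟩
      exact im_leaf (im_mono h.tr i3.le a1 i4))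
  have s := h.tr.step k k1 k2
  have s' := h.tr'.step j j1 j2
  have ag : Agree (T.E c) (U.E c) (T.ta k) := by
    have g1 := (TreeSt.pred_agree (h.tr.mono k1 k2.le) s.use s.pred).1
    have g2 := (TreeSt.pred_agree (h.tr'.mono j1 j2.le) s'.use s'.pred).1
    rw [k3] at g1
    rw [j3, ← ht] at g2
    exact KL.ag_trans (KL.ag_trans g1 (KL.ag_mono (agree h k1 k2 j1 j2)
      (le_min s.use.act.dom.le (ht ▸ s'.use.act.dom.le)))) (KL.ag_symm g2)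
  refine nocomp h k1 k2 j1 j2 (k5.trans j5.symm) fun X a x1 x2 x3 => ?_
  have xT : In (T.b c + 1) X := x1.mono (k6.trans (lt_add_one _).le)
  have xU : In (U.b c + 1) X := x1.mono ((ht ▸ j6).trans (lt_add_one _).le)
  have e1 : X.map (U.mp c W.ord) = X.map (T.mp c W.ord) :=
    map_congr fun x hx => (e x (le_s (xT x hx)) (le_s (xU x hx))).symm
  rw [← CmpA.branch h.tr h.nor k1 k2 k4 x1 x2, ← CmpA.branch h.tr' h.nor' j1 j2 j4 (ht ▸ x1) x3,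
    map_congr (f := T.mp (k + 1) W.ord ∘ T.im k) (g := T.mp c W.ord)
      fun x hx => k7 x (le_s (xT x hx)),
    map_congr (f := U.mp (j + 1) W.ord ∘ U.im j) (g := U.mp c W.ord)
      fun x hx => j7 x (le_s (xU x hx)), e1]
  by_contra hne
  obtain ⟨i, i1, i2⟩ := im_lim h.tr a2 c4.le a3 ⟨a1, X, xT, rfl⟩
  obtain ⟨i', i3, a', i4, i5⟩ := c3 i i1 _
    ⟨i2, a, x2.mono ((TreeSt.la_le h.tr k2 le_rfl k2.le).trans (hb k k2).le), hne⟩
  have ck : c < T.ta k := k5 ▸ s.use.act.lt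
  have i6 : In (T.ta k) a' := i4.mono (i3.le.trans ck.le)
  have g1 := KN.wnm (TreeSt.strong h.tr le_rfl a1).toWeak xT
    (i6.mono (k6.trans (lt_add_one _).le))
  have g2 := KN.wnm (TreeSt.strong h.tr' le_rfl b1).toWeak xU
    (i6.mono ((ht ▸ j6).trans (lt_add_one _).le))
  rw [map_eq_self fun y hy => a4 y ((i4 y hy).trans i3)] at g1
  rw [map_eq_self fun y hy => b4 y ((i4 y hy).trans i3), e1] at g2
  exact i5 (g1.trans ((KN.anm ag x1).trans g2.symm))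

end CmpT

end Pool.Agent.KM
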