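import Pool.Agent.Lib.MP_5c0be7_lc.F.StTree
import Pool.Agent.Lib.MP_5c0be7_lc.K.Loc
import Pool.Agent.Lib.MP_5c0be7_lc.K.Nm
import Pool.Agent.Lib.MP_5c0be7_lc.O.FO3

/-!
Project KM, block F8: compatible extenders without cutpoints are equal.
-/

namespace Pool.Agent.KM

open Ordinal Tr
open scoped Classical

universe u

namespace Compat

variable {E E' : Seq.{u}} {v v' k t : Ordinal.{u}} {e e' : Ordinal.{u} → Ordinal.{u}}

theorem nm {A : PR.{u}} (hA : Df A) : ∃ (n : ℕ) (c : Tr.{u}), c.erase = c ∧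
    ∀ E v k t e b z q, LS E v → Act E v k t e → b < t → k ≤ b → In b z → In (e k) q →
      (Nm E ((node (leaf (b + n)) (node c z)).map e) q ↔ A E (e b) (node q (z.map e))) := by
  obtain ⟨n, c, c0, hc⟩ := hA.name
  refine ⟨n, c, c0, fun E v k t e b z q l h hb kb hz hq => ?_⟩
  have h1 := add_nat_lt (KL.ext_lim h.toExt) hb n
  have h2 := h.weak.add_nat n h1
  rw [map_node, map_node, map_leaf, map_of_lv (erase_eq_self.1 c0), h2,
    hc E _ _ q (l.mono (h2 ▸ h.weak.maps _ h1).le)]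
  exact and_iff_right ((in_node _ _ _).2 ⟨hq.mono ((KE.w_le h.weak h.lt hb).2 kb),
    (h.weak.in_map hb (hz.mono hb.le)).2 hz⟩)

/-- Definable properties of generators are the same on both sides. -/
theorem tr (l : LS E v) (l' : LS E' v') (h : Act E v k t e) (h' : Act E' v' k t e')
    (hk : e k ≤ e' k) (H : ∀ X a, In t X → In (e k) a → (Nm E (X.map e) a ↔ Nm E' (X.map e') a))
    {A : PR.{u}} (hA : Df A) {b z q} (hb : b < t) (kb : k ≤ b) (hz : In b z) (hq : In (e k) q) :
    A E (e b) (node q (z.map e)) ↔ A E' (e' b) (node q (z.map e')) := by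
  obtain ⟨n, c, c0, hc⟩ := nm hA
  rw [← hc E v k t e b z q l h hb kb hz hq, ← hc E' v' k t e' b z q l' h' hb kb hz (hq.mono hk)]
  exact H _ _ (by simp [add_nat_lt (KL.ext_lim h.toExt) hb n, in_of_lf c0, hz.mono hb.le]) hq

theorem crit (l : LS E v) (l' : LS E' v') (h : Act E v k t e) (h' : Act E' v' k t e')
    (hk : e k ≤ e' k) (H : ∀ X a, In t X → In (e k) a → (Nm E (X.map e) a ↔ Nm E' (X.map e') a)) :
    e k = e' k := by
  refine hk.antisymm (not_lt.1 fun h1 => ?_)
  obtain ⟨f, a, y, f1, a1, h2, h3, h4⟩ := h'.typeA _ h.move h1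
  have tl := limit_of_not_suc (KL.ext_lim h.toExt) (h.lt.trans_le' zero_le).ne'
  have hb := max_lt (f1.ht_lt tl) (tl.add_one_lt h.lt)
  have kb := (lt_add_one k).trans_le (le_max_right f.ht _)
  have fb := (in_ht f).mono (le_max_left _ (k + 1))
  have I := Fn.id.{u}
  have h5 := (tr l l' h h' hk H ((Df.isleaf (I.snd.snd.fv I.fst).snd).and (Df.bd I.snd.fst
    (I.snd.snd.fv I.fst).snd)) (z := node (leaf k) f) hb kb.le (by simp [kb, fb]) a1).2
    (by simp [h2, h4])
  simp only [map_node, map_leaf, fst_node, snd_node, leaf.injEq, exists_eq_left'] at h5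
  obtain ⟨⟨y0, h5⟩, h6⟩ := h5
  have h7 := (tr l l' h h' hk H (Df.eq (I.snd.fv I.fst.fst).snd I.fst.snd) hb kb.le fb
    (q := node a (leaf y0)) ((in_node _ _ _).2 ⟨a1, h5 ▸ h6⟩)).1 h5
  simp only [fst_node, snd_node, h2, opt_some, leaf.injEq] at h7
  rw [h5, in_leaf, ← h7] at h6
  exact h6.not_ge h3

theorem le (l : LS E v) (l' : LS E' v') (h : Act E v k t e) (h' : Act E' v' k t e')
    (hk : e k ≤ e' k) (H : ∀ X a, In t X → In (e k) a → (Nm E (X.map e) a ↔ Nm E' (X.map e') a))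
    (ha : Agree E E' t) {x} (hx : x < t) : e x ≤ e' x := by
  have tl := KL.ext_lim h.toExt
  obtain ⟨a, a1, a2, a3⟩ := h.top _ (max_lt (not_suc_iff.1 tl x hx) (not_suc_iff.1 tl k h.lt))
  have xa : x < a := Order.add_one_le_iff.1 ((le_max_left _ _).trans a1)
  have ka : k < a := Order.add_one_le_iff.1 ((le_max_right _ _).trans a1)
  obtain ⟨p, p1, -, -, p2⟩ := (l a (a2.trans h.dom)).1
  have g : Gen E a k p := fun y hy => let ⟨c, w, h1, h2⟩ := p2 y hy; ⟨c, w, h1.mono a3, h2⟩
  have G : Gen E (e a) (e k) (p.map e) :=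
    ((Df.gen On.top (On.lab IsOp.id.fst) Fn.id.snd).weak_lim (z := node (leaf k) p) h.weak
      (l.mono h.dom.le) l tl a2 le_rfl (by simp [ka, p1])).2 g
  have I := Fn.id.{u}
  have F1 := (I.fst.fst.fst.evTop (I.fst.fst.snd.pair I.snd)).snd
  have F2 := (I.fst.snd.fst.evTop (I.fst.snd.snd.pair I.snd)).snd
  have key : ∀ y' y c w, In (e k) w → ev E (e a) c (node w (p.map e)) = some (leaf y) →
      ev E' (e' a) c (node w (p.map e')) = some (leaf y') → y ≤ y' := by
    intro y'
    induction y' using WellFoundedLT.induction with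
    | ind y' ih =>
      refine fun y c w hw h1 h2 => le_of_forall_lt fun z hz => ?_
      obtain ⟨d, r, hr, h3⟩ := G (leaf z) (by simpa using hz.trans (by simpa using ev_in h1))
      have h4 := (tr l l' h h' hk H ((Df.isleaf F1).and (Df.bd F2 F1)) a2 ka.le p1
        (q := node (node d.erase r) (node c.erase w)) (by simp [hr, hw])).1 (by simp [h1, h3, hz])
      simp only [fst_node, snd_node, ev_erase, h2, opt_some, leaf.injEq, exists_eq_left'] at h4
      obtain ⟨⟨z', h4⟩, h5⟩ := h4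
      rw [h4, in_leaf] at h5
      refine (ih z' h5 z d r hr h3 ?_).trans_lt h5
      cases h6 : ev E' (e' a) d (node r (p.map e')) <;> simp_all
  obtain ⟨c, w, hw, h1⟩ := g (leaf x) (by simpa using xa)
  have i := in_of_ev_eq h1
  have h2 := h.weak.comm a a2 c _ i
  have h3 := h'.weak.comm a a2 c _ i
  rw [← KN.ev_agree ha a2] at h3
  rw [h1, map_node, map_eq_self fun y hy => h.fix y (hw y hy)] at h2
  rw [h1, map_node, map_eq_self fun y hy => h'.fix y (hw y hy)] at h3
  exact key _ _ c w (hw.mono h.move.le) h2 h3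

theorem eq (l : LS E v) (l' : LS E' v') (h : Act E v k t e) (h' : Act E' v' k t e')
    (hk : e k ≤ e' k) (H : ∀ X a, In t X → In (e k) a → (Nm E (X.map e) a ↔ Nm E' (X.map e') a))
    (ha : Agree E E' t) : v = v' ∧ E v = E' v' := by
  have h1 := crit l l' h h' hk H
  have h2 : ∀ x < t, e x = e' x := fun x hx => (le l l' h h' hk H ha hx).antisymm
    (le l' l h' h h1.ge (fun X a i j => (H X a i (h1 ▸ j)).symm) (KL.ag_symm ha) hx)
  refine ⟨le_antisymm (le_of_forall_lt fun y hy => ?_) (le_of_forall_lt fun y hy => ?_), ?_⟩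
  · obtain ⟨x, h3, h4⟩ := h.cof y hy
    exact h4.trans (h2 x h3 ▸ h'.weak.maps x h3)
  · obtain ⟨x, h3, h4⟩ := h'.cof y hy
    exact h4.trans (h2 x h3 ▸ h.weak.maps x h3)
  · funext x y
    rw [h.graph, h'.graph]
    exact propext (and_congr_right fun hx => by rw [h2 x hx])

end Compat

instance : CompatSt.{u} := ⟨Compat.eq⟩

end Pool.Agent.KM
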