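import Pool.Agent.Lib.MP_5c0be7_lc.F.ActI

/-!
Project KM, block F8: absence of overlapping extenders goes up along strong maps.
-/

namespace Pool.Agent.KM

open Ordinal Tr
open scoped Classical

universe u

namespace CutI

/-- The extender of the level moves the input. -/
theorem code_top : Code.{u} fun E b z =>
    if ora E b (node z.snd z.fst) ∧ z.fst ≠ z.snd then some .nil else none :=
  ((ActF.code_ext.pre (IsOp.id.snd.pair IsOp.id.fst)).post (IsOp.id.fst.ite_nil
    ((IsOp.id.snd.fst.eq IsOp.id.snd.snd).ite_nil IsOp.nil (IsOp.nil.pair IsOp.nil))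
      IsOp.nil)).congr fun E b z _ => by
    by_cases h : ora E b (node z.snd z.fst) <;> by_cases k : z.fst = z.snd <;> simp [h, k]

/-- The extender of a lower level, not below a bound, moves the input. -/
theorem code_low : Code.{u} fun E b z =>
    if call (ev E) b (node z.fst.fst (node extc (node z.snd.fst z.fst.snd))) = node .nil .nil ∧
      z.fst.snd ≠ z.snd.fst ∧ ¬ Lt z.fst.fst z.snd.snd then some .nil else none :=
  ((Code.call.pre (IsOp.id.fst.fst.pair ((IsOp.const (c := extc) rfl).pair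
    (IsOp.id.snd.fst.pair IsOp.id.fst.snd)))).post
    ((IsOp.id.fst.eq (IsOp.nil.pair IsOp.nil)).ite_nil
      ((IsOp.id.snd.fst.snd.eq IsOp.id.snd.snd.fst).ite_nil IsOp.nil
        ((IsOp.id.snd.fst.fst.lt IsOp.id.snd.snd.snd).ite_nil IsOp.nil (IsOp.nil.pair IsOp.nil)))
      IsOp.nil)).congr fun E b z _ => by
    simp only [Option.bind_some, fst_node, snd_node, tv_eq_nil]
    split_ifs <;> simp_all

theorem lt_leaf {a b : Ordinal.{u}} : Lt (leaf a) (leaf b) ↔ a < b := by
  refine ⟨fun h => lt_of_le_of_ne (KE.s1le h.ht_le) fun e => lt_irrefl' _ (e ▸ h),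
    fun h => Or.inl (KE.s1lt h)⟩

theorem crit {E : Seq.{u}} {d v k : Ordinal.{u}} {y : Tr.{u}} (p : PM0 E d) (hv : v < d)
    (h : ora E v (node (leaf k) y)) (hy : y ≠ leaf k) : ∃ k0 t e, Act E v k0 t e ∧ k0 ≤ k := by
  rcases p.act v hv with h1 | ⟨k0, t, e, h1⟩
  · have h2 := h.2
    cases y with
    | leaf y => exact absurd h2 (h1 k y)
    | _ => exact h2.elim
  · refine ⟨k0, t, e, h1, not_lt.1 fun h2 => hy ?_⟩
    rw [((ActF.ora_iff h1).1 h).2, map_leaf, h1.fix k h2]

theorem up {E E' : Seq.{u}} {b s g} (p : PM0 E (b + 1)) (p' : PM0 E' (s b + 1))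
    (h : Strong E (b + 1) E' (s b + 1) s) (hg : g ≤ b) (hs : ∀ x < g, s x = x)
    (H : ∀ v k t e, g ≤ v → v ≤ b → Act E v k t e → g ≤ k) (v k t e) (h1 : s g ≤ v)
    (h2 : v ≤ s b) (ha : Act E' v k t e) : g ≤ k := by
  by_contra hk
  have hk := not_le.1 hk
  have o : ora E' v (node (leaf k) (leaf (e k))) := (ActF.ora_iff ha).2 ⟨by simpa using ha.lt, rfl⟩
  have m := ha.weak.maps k ha.lt
  have kv : k < v := ha.lt.trans ha.dom
  rcases h2.eq_or_lt with rfl | h2
  · obtain ⟨w, -, h3⟩ := ActF.down (Cp.of code_top) p.ls p'.ls h.commTop (z := leaf k)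
      (by simpa using hk.trans_le hg) (by simpa [hs k hk] using kv) (w := leaf (e k))
      (by simpa using m) (by simp [hs k hk, o, ha.move.ne'])
    simp only [fst_node, snd_node] at h3
    split_ifs at h3 with h4
    · obtain ⟨k0, t0, e0, h5, h6⟩ := crit p (lt_add_one b) h4.1 h4.2
      exact absurd ((H _ _ _ _ hg le_rfl h5).trans h6) hk.not_ge
    · simp at h3
  have gb : g < b := (KE.w_lt h.toWeak (KE.lt1 hg) (lt_add_one b)).1 (h1.trans_lt h2)
  obtain ⟨w, i, h3⟩ := ActF.down (Cp.of code_low) p.ls p'.ls h.commTop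
    (z := node (leaf k) (leaf g)) (by simp [gb, hk.trans gb])
    (by simp [hs k hk, kv.trans h2, h1.trans_lt h2]) (w := node (leaf v) (leaf (e k)))
    (by simp [h2, m.trans h2]) (by
      simp [hs k hk, call_leaf h2, ha.move.ne', lt_leaf, h1,
        (law E' v).extc (node (leaf k) (leaf (e k))) (by simp [kv, m]), tv_pos o])
  simp only [fst_node, snd_node] at h3
  split_ifs at h3 with h4
  · obtain ⟨h4, h5, h6⟩ := h4
    unfold call at h4
    simp only [fst_node, snd_node] at h4
    split_ifs at h4 with h7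
    rw [opt_eq_node] at h4
    rw [(law E _).extc _ (in_of_ev_eq h4), Option.some_inj, tv_eq_nil] at h4
    obtain ⟨k0, t0, e0, h8, h9⟩ := crit p (h7.2.trans (lt_add_one b)) h4 h5
    rw [h7.1, lt_leaf] at h6
    exact absurd ((H _ _ _ _ (not_lt.1 h6) h7.2.le h8).trans h9) hk.not_ge
  · simp at h3

end CutI

instance : CutSt.{u} := ⟨CutI.up⟩

end Pool.Agent.KM
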