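import Pool.Agent.Lib.MP_5c0be7_lc.F.StTree
import Pool.Agent.Lib.MP_5c0be7_lc.F.TreeOrd

/-!
Project KM, block F8: iterability follows from well-foundedness.
-/

namespace Pool.Agent.KM.Iter

open Ordinal Tr IT
open scoped Classical

universe u

/-- The tree `U` with the node `c` replaced by `N`. -/
noncomputable def put (U : IT.{u}) (c : Ordinal.{u}) (N : Nd.{u}) : IT.{u} :=
  ⟨U.n, fun x => if x = c then N else U.nd x⟩

theorem put_eq (U : IT.{u}) (c : Ordinal.{u}) (N : Nd.{u}) : U.EqLt (put U c N) c :=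
  ⟨rfl, fun _ hi => if_neg hi.ne⟩

theorem put_nd (U : IT.{u}) (c : Ordinal.{u}) (N : Nd.{u}) : (put U c N).nd c = N := if_pos rfl

theorem pm_mono {E : Seq.{u}} {d d' : Ordinal.{u}} (h : PM E d) (hd : d' ≤ d) : PM E d' :=
  ⟨⟨fun b hb => h.ls b (hb.trans_le hd), fun v hv => h.act v (hv.trans_le hd)⟩,
    fun v hv => h.small v (hv.trans_le hd)⟩

/-- Adding a successor node. -/
theorem isTr_succ {V : IT.{u}} {j : Ordinal.{u}} (h : V.IsTr j) (hs : V.Step j) :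
    V.IsTr (j + 1) := by
  refine ⟨h.phal, h.le.trans le_self_add, fun k k1 k2 => ?_, fun c c1 c2 c3 => ?_⟩
  · rcases (le_s k2).eq_or_lt with rfl | k3
    · exact hs
    · exact h.step k k1 k3
  · refine h.lim c c1 (le_of_not_gt fun hc => ?_) c3
    exact absurd (c3.add_one_lt hc) (not_lt.2 c2)

/-- Adding a limit node. -/
theorem isTr_lim {V : IT.{u}} {c : Ordinal.{u}} (hn : V.n < c) (hc : Order.IsSuccLimit c)
    (h : ∀ j < c, V.n ≤ j → V.IsTr j) (hl : V.Lim c) : V.IsTr c := by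
  refine ⟨(h _ hn le_rfl).phal, hn.le, fun k k1 k2 => ?_, fun a a1 a2 a3 => ?_⟩
  · exact (h _ (hc.add_one_lt k2) (k1.trans le_self_add)).step k k1 (lt_add_one k)
  · rcases a2.eq_or_lt with rfl | a4
    · exact hl
    · exact (h a a4 a1.le).lim a a1 le_rfl a3

variable [TreeSt.{u}] [UltExSt.{u}]

theorem succ {U : IT.{u}} {j v k t p s : Ordinal.{u}} {e : Ordinal.{u} → Ordinal.{u}}
    (h : U.IsTr j) (hu : U.Use j v k t e) (hp : U.Pred j k t p s)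
    (hw : WellFounded (ULt (U.E p) (s + 1) k t (U.E j) e)) :
    ∃ V : IT.{u}, U.EqLt V (j + 1) ∧ V.IsTr (j + 1) ∧ V.nu j = v := by
  obtain ⟨a1, a2, -⟩ := TreeSt.pred_agree h hu hp
  obtain ⟨E1, i, b1, b2, b3, b4, b5⟩ := UltExSt.ult
    (pm_mono (TreeSt.pm h hp.le) (add_le_add_left hp.st_le 1))
    (pm_mono (TreeSt.pm h le_rfl) (hu.le.trans le_self_add)) hu.act a1 hp.ta_le hp.noproj a2 hw
  let N : Nd.{u} := ⟨E1, i s, v, k, t, e k, e, p, s, i,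
    fun a => if a = j + 1 then id else i ∘ U.mp a p⟩
  have hq := put_eq U (j + 1) N
  have hN := put_nd U (j + 1) N
  generalize put U (j + 1) N = V at hq hN
  have hj : j < j + 1 := lt_add_one j
  have hpj : p < j + 1 := lt_s hp.le
  have e1 : V.E (j + 1) = E1 := congrArg Nd.E hN
  have e2 : V.b (j + 1) = i s := congrArg Nd.b hN
  have e3 : V.nu j = v := congrArg Nd.nu hN
  have e4 : V.ka j = k := congrArg Nd.ka hN
  have e5 : V.ta j = t := congrArg Nd.ta hN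
  have e6 : V.la j = e k := congrArg Nd.la hN
  have e7 : V.e j = e := congrArg Nd.e hN
  have e8 : V.pr j = p := congrArg Nd.pr hN
  have e9 : V.st j = s := congrArg Nd.st hN
  have e10 : V.im j = i := congrArg Nd.im hN
  have e11 : ∀ a, V.mp a (j + 1) = if a = j + 1 then id else i ∘ U.mp a p := fun a =>
    congrArg (fun x => Nd.mp x a) hN
  refine ⟨V, hq, isTr_succ (hq.isTr hj h) ⟨?_, ?_, ?_, ?_, ?_, ?_, ?_, ?_, ?_, ?_, ?_⟩, e3⟩
  · rw [e3, e4, e5, e7]; exact hq.use hj hu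
  · rw [e6, e7, e4]
  · rw [e4, e5, e8, e9]; exact hq.pred hj hp
  · rw [e8, e9, e4, e1, e10, hq.E hpj]; exact b1
  · rw [e2, e10, e9]
  · rw [e5, e10, e7]; exact b3
  · rw [e10, e5, e3]; exact b4
  · rw [e1, e3, hq.E hj]; exact b5
  · rw [e1, e2]; exact b2
  · intro x _; rw [e11, if_pos rfl]; rfl
  · intro a ha _ x _
    rw [e11, if_neg (lt_s ha).ne, e10, e8, hq.mp hpj]; rfl

theorem lim {U : IT.{u}} {c : Ordinal.{u}} (hn : U.n < c) (hc : Order.IsSuccLimit c)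
    (h : ∀ j < c, U.n ≤ j → U.IsTr j) (hm : ∃ m < c, U.ND m c)
    {r : Ordinal.{u} → Ordinal.{u} → Ordinal.{u}}
    (r1 : ∀ i < c, U.ND i c → StrictMonoOn (r i) (Set.Iic (U.b i)))
    (r2 : ∀ i j, i ≤ j → j < c → U.ND i c → U.ND j c → ∀ x ≤ U.b i, r j (U.mp i j x) = r i x) :
    ∃ V : IT.{u}, U.EqLt V c ∧ V.IsTr c := by
  have tr : ∀ j < c, U.IsTr (max j U.n) := fun j hj => h _ (max_lt hj hn) (le_max_right _ _)
  have : _root_.Small.{u} {i // i < c ∧ U.ND i c} :=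
    small_subset (t := {i | i < c ∧ U.ND i c}) (s := Set.Iio c) fun _ h => h.1
  have : Nonempty {i // i < c ∧ U.ND i c} := let ⟨m, h1, h2⟩ := hm; ⟨⟨m, h1, h2⟩⟩
  obtain ⟨E', b', m, hl, hp⟩ := UltExSt.lim (J := {i // i < c ∧ U.ND i c}) (fun i => U.E i.1)
    (fun i => U.b i.1) (fun i j => U.mp i.1 j.1) (fun i => r i.1)
    (fun j => TreeSt.pm (tr j.1 j.2.1) (le_max_left _ _))
    (fun i j hij => TreeSt.strong (tr j.1 j.2.1) (le_max_left _ _) (i.2.2.cut hij j.2.2.1))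
    (fun i j l hij hjl => TreeSt.comp (tr l.1 l.2.1) (le_max_left _ _) (i.2.2.cut hij j.2.2.1)
      (j.2.2.cut hjl l.2.2.1))
    (fun j => r1 j.1 j.2.1 j.2.2) (fun i j hij => r2 i.1 j.1 hij j.2.1 i.2.2 j.2.2)
  let N : Nd.{u} := ⟨E', b', 0, 0, 0, 0, id, 0, 0, id,
    fun a => if ha : a < c ∧ U.ND a c then m ⟨a, ha⟩ else id⟩
  have hq := put_eq U c N
  have hN := put_nd U c N
  generalize put U c N = V at hq hN
  have e1 : V.E c = E' := congrArg Nd.E hN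
  have e2 : V.b c = b' := congrArg Nd.b hN
  have e3 : ∀ a, V.mp a c = if ha : a < c ∧ U.ND a c then m ⟨a, ha⟩ else id := fun a =>
    congrArg (fun x => Nd.mp x a) hN
  have nd : ∀ i, V.ND i c ↔ U.ND i c := fun i =>
    hq.nd_iff' (fun k hk => hc.add_one_lt hk) fun k k1 k2 =>
      (h _ (hc.add_one_lt k2) (k1.trans le_self_add)).pr_le k1 (lt_add_one k)
  refine ⟨V, hq, isTr_lim (hq.n ▸ hn) hc (fun j hj j1 => hq.isTr hj (h j hj (hq.n ▸ j1)))
    (Lim.intro ?_ ?_ ?_ (fun i hi h1 => ?_) (fun i j hij hj h1 h2 => ?_) fun y hy => ?_)⟩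
  · simpa only [nd] using hm
  · rw [e1, e2]; exact hp
  · intro x _; rw [e3, dif_neg fun h => lt_irrefl _ h.1]; rfl
  · rw [e1, e2, e3, dif_pos ⟨hi, (nd i).1 h1⟩, hq.E hi, hq.b hi]
    exact hl.strong ⟨i, hi, (nd i).1 h1⟩
  · have hi := hij.trans_lt hj
    rw [e3 j, e3 i, dif_pos ⟨hj, (nd j).1 h2⟩, dif_pos ⟨hi, (nd i).1 h1⟩, hq.mp hj, hq.b hi]
    exact hl.comm ⟨i, hi, (nd i).1 h1⟩ ⟨j, hj, (nd j).1 h2⟩ hij
  · obtain ⟨i, x, h1, h2⟩ := hl.onto y (e2 ▸ hy)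
    refine ⟨i.1, i.2.1, (nd _).2 i.2.2, x, ?_, ?_⟩
    · rw [hq.b i.2.1]; exact h1
    · rw [e3, dif_pos i.2]; exact h2

end Pool.Agent.KM.Iter

namespace Pool.Agent.KM

universe u

instance [TreeSt.{u}] [UltExSt.{u}] : IterSt.{u} where
  of_wf := by
    intro T g hT h1 h2
    refine ⟨hT, fun U j v k t e e1 e2 e3 e4 e5 => ?_, fun U c e1 e2 e3 e4 e5 => ?_⟩
    · obtain ⟨p, s, hp⟩ := TreeSt.pred_ex e2 e4
      exact Iter.succ e2 e4 hp (h1 U j v k t e p s e1 e2 e3 e4 e5 hp)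
    · obtain ⟨h3, r, r1, r2⟩ := h2 U c e1 e2 e3 e4 e5
      exact Iter.lim (e1.n ▸ e2) e3 (e1.n ▸ e4) h3 r1 r2

end Pool.Agent.KM
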