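import Pool.Agent.Lib.MP_5c0be7_lc.F.Ev

/-!
Project KM, fine hierarchy, part 3: embeddings, premice, ultrapowers.
-/

namespace Pool.Agent.KM

open Ordinal Tr
open scoped Classical

universe u

/-- `f` is strictly increasing on `S`, fixes finite ordinals and keeps infinite ones infinite. -/
def Mono (f : Ordinal.{u} → Ordinal.{u}) (S : Set Ordinal.{u}) : Prop :=
  StrictMonoOn f S ∧ ∀ a ∈ S, (a < ω → f a = a) ∧ (ω ≤ a → ω ≤ f a)

/-- Agreement of two sequences below `d`. -/
def Agree (E E' : Seq.{u}) (d : Ordinal.{u}) : Prop := ∀ v < d, E v = E' v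

variable [Par.{u}]

/-- `s` commutes with evaluation at level `b` of `E` and level `b'` of `E'`. -/
def Comm (E : Seq.{u}) (b : Ordinal.{u}) (E' : Seq.{u}) (b' : Ordinal.{u})
    (s : Ordinal.{u} → Ordinal.{u}) : Prop :=
  ∀ c x, In b x → ev E' b' c (x.map s) = (ev E b c x).map (Tr.map s)

/-- Weak embedding of `(d, E)` in `(d', E')`: commutes with all levels below `d`. -/
structure Weak (E : Seq.{u}) (d : Ordinal.{u}) (E' : Seq.{u}) (d' : Ordinal.{u})
    (s : Ordinal.{u} → Ordinal.{u}) : Prop where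
  mono : Mono s (Set.Iio d)
  maps : ∀ a < d, s a < d'
  top : ∀ b, d = b + 1 → d' = s b + 1
  comm : ∀ b < d, Comm E b E' (s b) s

/-- Strong embedding: also commutes with level `d`. -/
structure Strong (E : Seq.{u}) (d : Ordinal.{u}) (E' : Seq.{u}) (d' : Ordinal.{u})
    (s : Ordinal.{u} → Ordinal.{u}) : Prop extends Weak E d E' d' s where
  commTop : Comm E d E' d' s

/-- Inclusion of named sets on the stratum `k` goes up along `s`. -/
def UpInc (E : Seq.{u}) (d : Ordinal.{u}) (E' : Seq.{u}) (s : Ordinal.{u} → Ordinal.{u})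
    (k : Ordinal.{u}) : Prop :=
  ∀ t n, In d t → In d n → (∀ v, St k v → Nm E t v → Nm E n v) →
    ∀ v, St (s k) v → Nm E' (t.map s) v → Nm E' (n.map s) v

/-- Good weak embedding between premice of successor height `b + 1`. -/
structure Good (E : Seq.{u}) (b : Ordinal.{u}) (E' : Seq.{u}) (s : Ordinal.{u} → Ordinal.{u}) :
    Prop extends Weak E (b + 1) E' (s b + 1) s where
  proj : ∀ k < rho E b, s k < rho E' (s b)
  card : ∀ k t, k < b → t < b → (∀ a, t ≤ a → a < b → k ≤ rho E a) →
    ∀ a, s t ≤ a → a < s b → s k ≤ rho E' a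
  inc : ∀ k < rho E b, UpInc E (b + 1) E' s k

/-- Below `t`, cofinally many levels project to `k`. -/
def TopC (E : Seq.{u}) (k t : Ordinal.{u}) : Prop := ∀ b < t, ∃ a, b ≤ a ∧ a < t ∧ rho E a ≤ k

/-- No level in `[t, d)` projects to `k`. -/
def NoProj (E : Seq.{u}) (k t d : Ordinal.{u}) : Prop := ∀ a, t ≤ a → a < d → k < rho E a

/-- `t` is the successor cardinal of `k` in `(d, E)`. -/
def IsNext (E : Seq.{u}) (d k t : Ordinal.{u}) : Prop :=
  k < t ∧ t ≤ d ∧ TopC E k t ∧ NoProj E k t d

/-- `k` is a cardinal of `(d, E)`. -/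
def IsCard (E : Seq.{u}) (d k : Ordinal.{u}) : Prop := ∀ a, k ≤ a → a < d → k ≤ rho E a

/-- The value at `x` of the function named by `t`. -/
noncomputable def fv (E : Seq.{u}) (t x : Tr.{u}) : Option Tr.{u} :=
  if t.fst = leaf t.fst.lab then ev E t.fst.lab t.snd.fst (node x t.snd.snd) else none

/-- `F` is the fragment below `l` of an extender with critical point `k` on `(d, E)` that coheres
with `E`; `F X a` says that the set named by `X` has measure one for the generators `a`. -/
structure Frag (E : Seq.{u}) (d k t l : Ordinal.{u}) (F : Tr.{u} → Tr.{u} → Prop) : Prop where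
  fix : ∀ X a, In t X → In k a → In l a → (F X a ↔ Nm E X a)
  inter : ∀ X Y Z a, In t X → In t Y → In t Z → In l a →
    (∀ v, In k v → Nm E X v → Nm E Y v → Nm E Z v) → F X a → F Y a → F Z a
  ultra : ∀ X Y a, In t X → In t Y → In l a → (∀ v, In k v → (Nm E X v ↔ ¬ Nm E Y v)) →
    (F X a ↔ ¬ F Y a)
  prog : ∀ (P : BP) z X Y a, In k z → In t X → In t Y → In l a → In l (bev0 E d P (node a z)) →
    (∀ v, In k v → (Nm E Y v ↔ Nm E X (bev0 E k P (node v z)))) →
    (F Y a ↔ F X (bev0 E d P (node a z)))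
  normal : ∀ f X g a, In t f → In t X → g < l → In l a →
    (∀ v, In k v → (Nm E X v ↔ ∃ y, fv E f v.snd = some (leaf y) ∧ y < v.fst.lab)) →
    F X (node (leaf g) a) → ∃ g' < g, ∀ Y, In t Y →
      (∀ v, In k v → (Nm E Y v ↔ fv E f v.snd = some v.fst)) → F Y (node (leaf g') a)
  thread : ∀ s f, In t s → In d f →
    (∀ m, In 0 m → ∃ a a', fv E f m = some a ∧ fv E f (node .nil m) = some a' ∧ a'.snd = a ∧
      In l a ∧ ∀ Y, In t Y → (∀ v, In k v → (Nm E Y v ↔ Nm E s (node m v))) → F Y a) →
    ∃ g, In d g ∧ ∀ m, In 0 m → ∃ v v', fv E g m = some v ∧ fv E g (node .nil m) = some v' ∧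
      v'.snd = v ∧ In k v ∧ Nm E s (node m v)

/-- `k` is strong below `d`, witnessed by named fragments. -/
def StrongTo (E : Seq.{u}) (d k : Ordinal.{u}) : Prop :=
  ω < k ∧ ∃ t, t < d ∧ IsNext E d k t ∧
    ∀ l < d, ∃ n, In d n ∧ Frag E d k t l fun X a => Nm E n (node X a)

/-- `k` is not a limit of ordinals that are strong below `k`. -/
def Small (E : Seq.{u}) (k : Ordinal.{u}) : Prop := ∃ a < k, ∀ m, a < m → m < k → ¬ StrongTo E k m

/-- `e` has no cutpoint strictly between `k` and `e k`. -/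
def TypeA (E' : Seq.{u}) (k t : Ordinal.{u}) (e : Ordinal.{u} → Ordinal.{u}) : Prop :=
  ∀ l, k < l → l < e k → ∃ f a y, In t f ∧ In l a ∧ fv E' (f.map e) a = some (leaf y) ∧
    l ≤ y ∧ y < e k

/-- `e` is a cofinal weak embedding of level `t` of `E` in level `v` of `E'`, and `k` is the
largest cardinal below `t`. The critical point of `e` may be smaller than `k`. -/
structure Ext (E : Seq.{u}) (k t : Ordinal.{u}) (E' : Seq.{u}) (v : Ordinal.{u})
    (e : Ordinal.{u} → Ordinal.{u}) : Prop where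
  inf : ω ≤ k
  lt : k < t
  weak : Weak E t E' v e
  cof : ∀ y < v, ∃ x < t, y < e x
  top : TopC E k t
  card : ∀ a, k ≤ a → a < t → k ≤ rho E a

/-- The index `v` is active, with critical point `k`, domain `t` and map `e`. -/
structure Act (E : Seq.{u}) (v k t : Ordinal.{u}) (e : Ordinal.{u} → Ordinal.{u}) : Prop
    extends Ext E k t E v e where
  graph : ∀ x y, E v x y ↔ x < t ∧ y = e x
  big : ω < k
  fix : ∀ x < k, e x = x
  move : k < e k
  dom : t < v
  next : NoProj E k t v
  typeA : TypeA E k t e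

/-- The index `v` is passive. -/
def Pas (E : Seq.{u}) (v : Ordinal.{u}) : Prop := ∀ x y, ¬ E v x y

/-- Premouse of height `d`, without smallness. -/
structure PM0 (E : Seq.{u}) (d : Ordinal.{u}) : Prop where
  ls : LS E d
  act : ∀ v < d, Pas E v ∨ ∃ k t e, Act E v k t e

/-- Small premouse of height `d`. -/
structure PM (E : Seq.{u}) (d : Ordinal.{u}) : Prop extends PM0 E d where
  small : ∀ v < d, ∀ k t e, Act E v k t e → Small E k

/-- `x` is generated at level `d` by labels from `X`. -/
def InHull (E : Seq.{u}) (d : Ordinal.{u}) (X : Set Ordinal.{u}) (y : Ordinal.{u}) : Prop :=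
  ∃ c x, x.lv ⊆ X ∧ ev E d c x = some (leaf y)

/-- `i` is the ultrapower map of `(b + 1, E)` with generators below `i k`; the ultrapower is
`(i b + 1, E')`. -/
structure IsUlt (E : Seq.{u}) (b k : Ordinal.{u}) (E' : Seq.{u})
    (i : Ordinal.{u} → Ordinal.{u}) : Prop extends Strong E (b + 1) E' (i b + 1) i where
  pm : PM0 E (b + 1)
  pm' : PM0 E' (i b + 1)
  inf : ω ≤ k
  lt : k < rho E b
  inc : UpInc E (b + 1) E' i k
  gen : ∀ y < i b, ∃ f a, In (b + 1) f ∧ In (i k) a ∧ fv E' (f.map i) a = some (leaf y)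

/-- Measure one for the generators `a` of `e`. -/
def AE (E : Seq.{u}) (k t : Ordinal.{u}) (E' : Seq.{u}) (e : Ordinal.{u} → Ordinal.{u})
    (a : Tr.{u}) (A : Tr.{u} → Prop) : Prop :=
  ∃ n, In t n ∧ Nm E' (n.map e) a ∧ ∀ v, In k v → Nm E n v → A v

/-- The order of the formal ultrapower of `(d, E)` by `e`. -/
def ULt (E : Seq.{u}) (d k t : Ordinal.{u}) (E' : Seq.{u}) (e : Ordinal.{u} → Ordinal.{u})
    (p q : Tr.{u} × Tr.{u}) : Prop :=
  In (e k) p.1 ∧ In (e k) q.1 ∧ In d p.2 ∧ In d q.2 ∧ AE E k t E' e (node p.1 q.1) fun v =>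
    ∃ x y, fv E p.2 v.fst = some (leaf x) ∧ fv E q.2 v.snd = some (leaf y) ∧ x < y

/-- `(d', E')` with the maps `m j` is the direct limit of a directed system. -/
structure IsLim {J : Type (u + 1)} (le : J → J → Prop) (E : J → Seq.{u}) (b : J → Ordinal.{u})
    (E' : Seq.{u}) (b' : Ordinal.{u}) (p : J → J → Ordinal.{u} → Ordinal.{u})
    (m : J → Ordinal.{u} → Ordinal.{u}) : Prop where
  pm' : PM0 E' (b' + 1)
  strong : ∀ j, Strong (E j) (b j + 1) E' (b' + 1) (m j)
  comm : ∀ j j', le j j' → ∀ x ≤ b j, m j' (p j j' x) = m j x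
  onto : ∀ y ≤ b', ∃ j, ∃ x ≤ b j, m j x = y

/-! The calculus of codes. -/

/-- `g` is the value of a natural operation. -/
def IsOp (g : Tr.{u} → Tr.{u}) : Prop := ∃ a : Op, ∀ t, bop a t = g t

/-- The closure properties of the codes at level `b`; `B`, `U`, `S` are fixed code makers. -/
structure CalcAt (B : BP → Tr.{u}) (U : Tr.{u}) (E : Seq.{u}) (b : Ordinal.{u}) : Prop where
  cmp : ∀ s c1 c2 x, In b x → ev E b (cmp s c1 c2) x =
    (ev E b c2 x).bind fun w => ev E b c1 (bop s (node w x))
  app : Suc b → ∀ c x, In b (node c x) → ev E b app (node c x) = ev E b c x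
  bas : ∀ P x, In b x → ev E b (B P) x = some (bev E b P x)
  unopt : ∀ x, In b x → ev E b U x = unopt x

/-- Remove the oracle calls and the finite searches. -/
def strip : BP → BP
  | .op a => .op a
  | .seq s P Q => .seq s (strip P) (strip Q)
  | .ev => .ev
  | .ext => .op (.pair .nil .nil)
  | .fmu _ => .op .nil

/-- On `node n x`, run a program on `x` with the set named by `n` as oracle. -/
def simB : BP → BP
  | .op a => .op (.comp a .snd)
  | .seq s P Q => .seq (.pair (.comp .fst .snd) (.comp s (.pair .fst (.comp .snd .snd))))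
      (simB P) (simB Q)
  | .ev => .seq (.comp .snd .snd) .ev (.op .nil)
  | .ext => .seq (.ite .fst (.pair .nil .nil) .nil) (.op .id)
      (.seq (.comp (.pair (.comp .fst .fst) (.pair (.comp .fst (.comp .snd .fst))
        (.pair .snd (.comp .snd (.comp .snd .fst))))) .snd) .ev (.op .nil))
  | .fmu _ => .op .nil

/-- On `node n x`, compute the limit reading of a code on `x` with the set named by `n` as
oracle; the value is coded by `opt`. -/
def simL : Tr.{u} → BP
  | node tg (node a (node b d)) =>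
    match unnum tg with
    | 0 => .seq .id (.seq (.ite (.comp .fst .snd) .nil .fst) (.op .id)
        (.seq (.comp (.pair (.comp .fst .snd) (.comp (decO d)
          (.pair (.comp .snd .fst) (.comp .snd .snd)))) .snd) (simL a) (.op .nil))) (simL b)
    | 1 => .op .nil
    | _ => .seq .fst (.op (.ite .id .nil (.ite .isleaf .nil (.pair .nil .snd))))
        (.seq (.comp (.pair .fst (.pair (Op.const (node tg (node a (node b d)))) .snd)) .snd)
          (simB (decB a)) (.op .nil))
  | _ => .op .nil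

/-- The calculus holds at every level whose lower levels are sound. -/
class Calc where
  B : BP → Tr.{u}
  U : Tr.{u}
  mkB : IsOp fun t => B (decB t)
  mkK : IsOp fun t => B (strip (body t))
  mkS : IsOp fun t => B (simL t)
  lf : ∀ P, (B P).erase = B P
  lfU : U.erase = U
  holds : ∀ E b, LS E b → CalcAt B U E b

end Pool.Agent.KM
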