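import Pool.Agent.Lib.MP_5c0be7_lc.F.StTree
import Pool.Agent.Lib.MP_5c0be7_lc.F.TreeOrd
import Pool.Agent.Lib.MP_5c0be7_lc.K.Loc

/-!
Project KM, block F8: sizes of the models of a tree.
-/

namespace Pool.Agent.KM.Size

open Ordinal Cardinal Tr IT Set
open scoped Classical

universe u

variable {c : Cardinal.{u}} {a : Ordinal.{u}}

theorem iio_lt : #(Iio a) < Cardinal.lift.{u + 1} c ↔ a < c.ord := by
  rw [Cardinal.mk_Iio_ordinal, Cardinal.lift_lt, ← lt_ord]

theorem succ_lt (hc : ℵ₀ < c) (h : a < c.ord) : a + 1 < c.ord :=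
  (isSuccLimit_ord hc.le).add_one_lt h

theorem iic_lt (hc : ℵ₀ < c) (h : a < c.ord) : #(Iic a) < Cardinal.lift.{u + 1} c := by
  have : Iic a = Iio (a + 1) := Set.ext fun x => ⟨fun h => lt_s h, fun h => le_s h⟩
  rw [this]; exact iio_lt.2 (succ_lt hc h)

/-- The height of an ultrapower. -/
theorem ult_lt {E E' : Seq.{u}} {b k : Ordinal.{u}} {i : Ordinal.{u} → Ordinal.{u}} (hc : ℵ₀ < c)
    (h : IsUlt E b k E' i) (hb : b < c.ord) (hk : i k < c.ord) : i b < c.ord := by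
  have hm : max (b + 1) (i k) < c.ord := max_lt (succ_lt hc hb) hk
  have hs : Iio (i b) ⊆ range fun q : {t : Tr.{u} | In (max (b + 1) (i k)) t} =>
      ((fv E' (q.1.fst.map i) q.1.snd).getD .nil).lab := fun y hy => by
    obtain ⟨f, x, h1, h2, h3⟩ := h.gen y hy
    refine ⟨⟨node f x, (in_node _ _ _).2
      ⟨h1.mono (le_max_left _ _), h2.mono (le_max_right _ _)⟩⟩, ?_⟩
    simp only [fst_node, snd_node]
    rw [h3]; rfl
  exact iio_lt.1 ((mk_le_mk_of_subset hs).trans_lt (mk_range_le.trans_lt (KL.mk_in_lt hc hm)))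

theorem lt {T : IT.{u}} {l : Ordinal.{u}} (h : T.IsTr l) (hr : c.IsRegular) (hc : ℵ₀ < c)
    (h0 : ∀ i ≤ T.n, T.b i < c.ord) (j : Ordinal.{u}) (hj : j ≤ l) (hjc : j < c.ord) :
    T.b j < c.ord := by
  induction j using WellFoundedLT.induction with
  | ind j ih =>
  have ih' : ∀ i < j, T.b i < c.ord := fun i hi => ih i hi (hi.le.trans hj) (hi.trans hjc)
  rcases le_or_gt j T.n with h1 | h1
  · exact h0 j h1
  rcases zero_or_succ_or_isSuccLimit j with rfl | ⟨k, rfl⟩ | h2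
  · exact absurd h1 (not_lt.2 zero_le)
  · have hs := h.step k (le_s h1) (s_lt hj)
    have hk := hs.use.act
    show T.b (k + 1) < _
    rw [hs.b]
    refine ult_lt hc hs.ult (hs.pred.st_le.trans_lt (ih' _ (lt_s hs.pred.le))) ?_
    rw [hs.ext _ hk.lt]
    exact ((hk.weak.maps _ hk.lt).trans_le hs.use.le).trans (ih' k (lt_add_one k))
  · have hl := h.lim j h1 hj h2
    have hs : Iio (T.b j) ⊆ ⋃ i ∈ Iio j, T.mp i j '' Iic (T.b i) := fun y hy => by
      obtain ⟨i, i1, -, x, i2, i3⟩ := hl.onto (le_of_lt hy)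
      exact mem_biUnion i1 ⟨x, i2, i3⟩
    refine iio_lt.1 ((mk_le_mk_of_subset hs).trans_lt ?_)
    exact (card_biUnion_lt_iff_forall_of_isRegular (t := fun i _ => T.mp i j '' Iic (T.b i))
      hr.lift (iio_lt.2 hjc)).2 fun i hi => mk_image_le.trans_lt (iic_lt hc (ih' i hi))

end Pool.Agent.KM.Size

namespace Pool.Agent.KM

universe u

instance : SizeSt.{u} where
  lt := fun h hr hc h0 j hj hjc => Size.lt h hr hc h0 j hj hjc

end Pool.Agent.KM
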