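import Mathlib

/-!
Project KM, fine hierarchy, part 1: finite trees with ordinal labels, their well order, natural
operations, basic programs and their codes.
-/

namespace Pool.Agent.KM

open Ordinal
open scoped Classical

universe u

/-- Finite binary trees with ordinal labels. -/
inductive Tr : Type (u + 1)
  | nil : Tr
  | leaf (a : Ordinal.{u}) : Tr
  | node (l r : Tr) : Tr

namespace Tr

instance : Inhabited Tr.{u} := ⟨nil⟩

/-- Change of labels. -/
def map (f : Ordinal.{u} → Ordinal.{u}) : Tr.{u} → Tr.{u}
  | nil => nil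
  | leaf a => leaf (f a)
  | node l r => node (map f l) (map f r)

/-- The set of labels. -/
def lv : Tr.{u} → Set Ordinal.{u}
  | nil => ∅
  | leaf a => {a}
  | node l r => lv l ∪ lv r

/-- All labels are below `k`. -/
def In (k : Ordinal.{u}) (t : Tr.{u}) : Prop := ∀ a ∈ t.lv, a < k

/-- Height: above all labels and at least the depth. -/
noncomputable def ht : Tr.{u} → Ordinal.{u}
  | nil => 0
  | leaf a => a + 1
  | node l r => if max (ht l) (ht r) < ω then max (ht l) (ht r) + 1 else max (ht l) (ht r)

/-- The stratum `k`: finite for finite `k`, and equal to `In k` for infinite `k`. -/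
def St (k : Ordinal.{u}) (t : Tr.{u}) : Prop := t.ht ≤ k

def fst : Tr.{u} → Tr.{u}
  | node l _ => l
  | _ => nil

def snd : Tr.{u} → Tr.{u}
  | node _ r => r
  | _ => nil

/-- The truth value false (true is `nil`). -/
def one : Tr.{u} := node nil nil

/-- Truth values as trees. -/
noncomputable def tv (p : Prop) : Tr.{u} := if p then nil else one

/-- Remove all labels. -/
def erase : Tr.{u} → Tr.{u}
  | node l r => node (erase l) (erase r)
  | _ => nil

/-- Serialisation. -/
def ser : Tr.{u} → List (WithBot (WithBot Ordinal.{u}))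
  | nil => [⊥]
  | leaf a => [((a : WithBot Ordinal.{u}) : WithBot (WithBot Ordinal.{u}))]
  | node l r => ((⊥ : WithBot Ordinal.{u}) : WithBot (WithBot Ordinal.{u})) :: (ser l ++ ser r)

/-- The well order of trees: height first. -/
def Lt (s t : Tr.{u}) : Prop :=
  s.ht < t.ht ∨ (s.ht = t.ht ∧ List.Shortlex (· < ·) s.ser t.ser)

/-- `t` is the least tree with property `P`. -/
def IsLeast (P : Tr.{u} → Prop) (t : Tr.{u}) : Prop := P t ∧ ∀ s, Lt s t → ¬ P s

/-- The least tree with property `P`, if any. -/
noncomputable def least (P : Tr.{u} → Prop) : Option Tr.{u} :=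
  if h : ∃ t, IsLeast P t then some h.choose else none

/-- Mark the leaves equal to `m`. -/
noncomputable def enc (m : Tr.{u}) : Tr.{u} → Tr.{u}
  | nil => nil
  | leaf a => if leaf a = m then one else leaf a
  | node l r => node (node (enc m l) (enc m r)) nil

/-- Replace the marks by `m`. -/
def dec (m : Tr.{u}) : Tr.{u} → Tr.{u}
  | nil => nil
  | leaf a => leaf a
  | node (node l r) _ => node (dec m l) (dec m r)
  | node nil _ => m
  | node (leaf _) _ => nil

/-- `t` is an entry of the list `s`. -/
def Mem (t : Tr.{u}) : Tr.{u} → Prop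
  | node l r => t = l ∨ Mem t r
  | _ => False

/-- Labelwise lifting of a relation. -/
def Rel (R : Ordinal.{u} → Ordinal.{u} → Prop) : Tr.{u} → Tr.{u} → Prop
  | nil, nil => True
  | leaf a, leaf b => R a b
  | node l r, node l' r' => Rel R l l' ∧ Rel R r r'
  | _, _ => False

def opt : Option Tr.{u} → Tr.{u}
  | none => nil
  | some v => node nil v

def unopt : Tr.{u} → Option Tr.{u}
  | node _ v => some v
  | _ => none

/-- The label of a leaf. -/
def lab : Tr.{u} → Ordinal.{u}
  | leaf a => a
  | _ => 0

def num : ℕ → Tr.{u}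
  | 0 => nil
  | n + 1 => node nil (num n)

def unnum : Tr.{u} → ℕ
  | node _ r => unnum r + 1
  | _ => 0

end Tr

open Tr

/-- Natural operations on trees. -/
inductive Op : Type
  | id | fst | snd | nil
  | pair (a b : Op) | comp (a b : Op) | ite (a b c : Op) | lift (a : Op)
  | eq | lt | isleaf | bd | enc | dec | mem | erase | prim (n : ℕ)

/-- Basic programs. `seq s P Q` runs `P` on `s` of the pair of the value of `Q` and the input. -/
inductive BP : Type
  | op (a : Op) | seq (s : Op) (P Q : BP) | ev | ext | fmu (P : BP)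

/-- A tagged triple. -/
def tag3 (n : ℕ) (a b c : Tr.{u}) : Tr.{u} := node (num n) (node a (node b c))

def Op.code : Op → Tr.{u}
  | .id => tag3 0 .nil .nil .nil
  | .fst => tag3 1 .nil .nil .nil
  | .snd => tag3 2 .nil .nil .nil
  | .nil => tag3 3 .nil .nil .nil
  | .pair a b => tag3 4 a.code b.code .nil
  | .comp a b => tag3 5 a.code b.code .nil
  | .ite a b c => tag3 6 a.code b.code c.code
  | .lift a => tag3 7 a.code .nil .nil
  | .eq => tag3 8 .nil .nil .nil
  | .lt => tag3 9 .nil .nil .nil
  | .isleaf => tag3 10 .nil .nil .nil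
  | .bd => tag3 11 .nil .nil .nil
  | .enc => tag3 12 .nil .nil .nil
  | .dec => tag3 13 .nil .nil .nil
  | .mem => tag3 14 .nil .nil .nil
  | .erase => tag3 15 .nil .nil .nil
  | .prim n => tag3 16 (num n) .nil .nil

def decO : Tr.{u} → Op
  | node tg (node a (node b c)) =>
    match unnum tg with
    | 0 => .id | 1 => .fst | 2 => .snd | 3 => .nil
    | 4 => .pair (decO a) (decO b) | 5 => .comp (decO a) (decO b)
    | 6 => .ite (decO a) (decO b) (decO c) | 7 => .lift (decO a)
    | 8 => .eq | 9 => .lt | 10 => .isleaf | 11 => .bd | 12 => .enc | 13 => .dec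
    | 14 => .mem | 15 => .erase | _ => .prim (unnum a)
  | _ => .id

def BP.code : BP → Tr.{u}
  | .op a => tag3 0 a.code .nil .nil
  | .seq s P Q => tag3 1 P.code Q.code s.code
  | .ev => tag3 2 .nil .nil .nil
  | .ext => tag3 3 .nil .nil .nil
  | .fmu P => tag3 4 P.code .nil .nil

def decB : Tr.{u} → BP
  | node tg (node a (node b c)) =>
    match unnum tg with
    | 0 => .op (decO a) | 1 => .seq (decO c) (decB a) (decB b) | 2 => .ev | 3 => .ext
    | _ => .fmu (decB a)
  | _ => .op .id

/-- The constant operation with a label-free value. -/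
def Op.const : Tr.{u} → Op
  | node l r => .pair (Op.const l) (Op.const r)
  | _ => .nil

end Pool.Agent.KM
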