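import Pool.Agent.Lib.MP_5c0be7_lc.F.TreeOrd
import Pool.Agent.Lib.MP_5c0be7_lc.F.StTree
import Pool.Agent.Lib.MP_5c0be7_lc.K.Nm
import Pool.Agent.Lib.MP_5c0be7_lc.K.GoodI
import Pool.Agent.Lib.MP_5c0be7_lc.K.StZ
import Pool.Agent.Lib.MP_5c0be7_lc.L.St
import Pool.Agent.Lib.MP_5c0be7_lc.O.StF3

/-!
Project KM, block F8: agreement, almost linearity and branch maps of iteration trees.
-/

namespace Pool.Agent.KM.TA

open Ordinal Tr IT

universe u

section One

variable {E E' E'' : Seq.{u}} {a b d g k t v : Ordinal.{u}} {e : Ordinal.{u} → Ordinal.{u}}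

theorem ag_symm (h : Agree E E' d) : Agree E' E d := fun v hv => (h v hv).symm
theorem ag_mono (h : Agree E E' d) (hg : g ≤ d) : Agree E E' g := fun v hv => h v (hv.trans_le hg)
theorem ag_trans (h : Agree E E' d) (h' : Agree E' E'' d) : Agree E E'' d :=
  fun v hv => (h v hv).trans (h' v hv)

theorem rho_ag (h : Agree E E' d) (ha : a < d) : rho E a = rho E' a :=
  rhoL_congr fun _ hx => KN.ev_agree h (hx.trans_lt ha)

theorem act_nsuc (h : Act E v k t e) : ¬ Suc v := by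
  rintro ⟨w, rfl⟩
  obtain ⟨x, h1, h2⟩ := h.cof w (lt_add_one w)
  exact absurd (le_s (h.weak.maps x h1)) (not_le.2 h2)

theorem act_nsuc' (h : Act E v k t e) : ¬ Suc t :=
  fun ⟨w, hw⟩ => act_nsuc h ⟨_, h.weak.top w hw⟩

theorem act_succ (h : Act E v k t e) (ha : a < v) : a + 1 < v := not_suc_iff.1 (act_nsuc h) a ha

theorem act_la (h : Act E v k t e) : e k < v := h.weak.maps k h.lt

theorem act_card (h : Act E v k t e) : IsCard E v k := fun a h1 h2 =>
  (lt_or_ge a t).elim (h.card a h1) fun h3 => (h.next a h3 h2).le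

theorem act_unique {k' t' : Ordinal.{u}} {e' : Ordinal.{u} → Ordinal.{u}} (h : Act E v k t e)
    (h' : Act E' v k' t' e') (hE : E v = E' v) : k = k' ∧ t = t' ∧ ∀ x < t, e x = e' x := by
  have h1 : ∀ x < t, x < t' ∧ e x = e' x := fun x hx =>
    (h'.graph x _).1 (hE ▸ (h.graph x _).2 ⟨hx, rfl⟩)
  have h2 : ∀ x < t', x < t := fun x hx => ((h.graph x _).1 (hE ▸ (h'.graph x _).2 ⟨hx, rfl⟩)).1
  refine ⟨?_, le_antisymm (le_of_forall_lt fun x hx => (h1 x hx).1) (le_of_forall_lt h2),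
    fun x hx => (h1 x hx).2⟩
  rcases lt_trichotomy k k' with h3 | h3 | h3
  · exact absurd ((h1 k h.lt).2.trans (h'.fix k h3)) h.move.ne'
  · exact h3
  · exact absurd ((h1 k' (h3.trans h.lt)).2.symm.trans (h.fix k' h3)) h'.move.ne'

theorem act_npas (h : Act E v k t e) : ¬ Pas E v := fun hp => hp k _ ((h.graph _ _).2 ⟨h.lt, rfl⟩)

theorem le_of_top (h : TopC E k t) (hg : IsCard E d g) (hk : k < g) (ht : t ≤ d) : t ≤ g := by
  by_contra hc
  obtain ⟨a, h1, h2, h3⟩ := h g (not_le.1 hc)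
  exact absurd ((hg a h1 (h2.trans_le ht)).trans h3) (not_le.2 hk)

theorem ls_mono (h : LS E d) (hg : g ≤ d) : LS E g := fun b hb => h b (hb.trans_le hg)

theorem card_mono (h : IsCard E d k) (hg : g ≤ d) : IsCard E g k :=
  fun a h1 h2 => h a h1 (h2.trans_le hg)

theorem card_ag (h : Agree E E' d) (hk : IsCard E d k) : IsCard E' d k :=
  fun a h1 h2 => rho_ag h h2 ▸ hk a h1 h2

theorem top_ag (h : Agree E E' t) (hk : TopC E k t) : TopC E' k t := fun b hb =>
  let ⟨a, h1, h2, h3⟩ := hk b hb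
  ⟨a, h1, h2, rho_ag h h2 ▸ h3⟩

variable [ActSt.{u}]

theorem le_la (hl : LS E v) (h : Act E v k t e) (hg : IsCard E v g) (hv : g < v) : g ≤ e k := by
  by_contra hc
  exact absurd (le_of_top (ActSt.top hl h) hg (not_le.1 hc) le_rfl) (not_le.2 hv)

theorem pas_ta (hE : PM0 E v) (h : Act E v k t e) : Pas E t := by
  refine (hE.act t h.dom).resolve_right ?_
  rintro ⟨k', t', e', h'⟩
  have h1 := act_succ h h.dom
  have h2 := (h.next _ le_self_add h1).trans_le (ActSt.proj (ls_mono hE.ls h1.le) h')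
  exact absurd (le_of_top h.top (ActSt.card (ls_mono hE.ls h.dom.le) h') h2 le_rfl)
    (not_le.2 (act_la h'))

theorem pas_of_card (hE : PM0 E (b + 1)) (hv : v < b) (hc : IsCard E (b + 1) v) : Pas E v := by
  refine (hE.act v (hv.trans (lt_add_one b))).resolve_right ?_
  rintro ⟨k', t', e', h'⟩
  have h2 := (hc _ le_self_add (lt_s (s_le hv))).trans
    (ActSt.proj (ls_mono hE.ls ((s_le hv).trans le_self_add)) h')
  exact absurd h2 (not_le.2 (act_la h'))

end One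

variable {T : IT.{u}} {a i j k l m c p s t v g : Ordinal.{u}} {e : Ordinal.{u} → Ordinal.{u}}

theorem cases3 (T : IT.{u}) (j : Ordinal.{u}) :
    j ≤ T.n ∨ (∃ k, T.n ≤ k ∧ j = k + 1) ∨ (T.n < j ∧ Order.IsSuccLimit j) := by
  rcases le_or_gt j T.n with h | h
  · exact Or.inl h
  rcases zero_or_succ_or_isSuccLimit j with rfl | ⟨k, rfl⟩ | h1
  · exact absurd h (not_lt.2 zero_le)
  · exact Or.inr (Or.inl ⟨k, le_s h, rfl⟩)
  · exact Or.inr (Or.inr ⟨h, h1⟩)

theorem pm (h : T.IsTr l) (hj : j ≤ l) : PM (T.E j) (T.b j + 1) := by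
  rcases cases3 T j with h1 | ⟨k, h1, rfl⟩ | ⟨h1, h2⟩
  · exact h.phal.pm j h1
  · exact (h.step k h1 (s_lt hj)).pm
  · exact (h.lim j h1 hj h2).pm

theorem mp_id (h : T.IsTr l) (hj : j ≤ l) : ∀ x ≤ T.b j, T.mp j j x = x := by
  rcases cases3 T j with h1 | ⟨k, h1, rfl⟩ | ⟨h1, h2⟩
  · exact h.phal.id j h1
  · exact (h.step k h1 (s_lt hj)).id
  · exact (h.lim j h1 hj h2).id

theorem la_mono (h : T.IsTr l) (hij : i ≤ j) (hj : j < l) : T.la i ≤ T.la j := by
  rcases hij.eq_or_lt with rfl | hij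
  · exact le_rfl
  rcases lt_or_ge j T.n with h1 | h1
  · exact h.phal.mono i j hij h1
  · rw [(h.step j h1 hj).la]; exact (h.step j h1 hj).use.inc i hij

theorem la_lt_nu (hs : T.Step j) : T.la j < T.nu j := hs.la ▸ act_la hs.use.act

theorem ka_lt_la (hs : T.Step j) : T.ka j < T.la j := hs.la ▸ hs.use.act.move

theorem ka_lt (hs : T.Step j) : T.ka j < T.la (T.pr j) := by
  rcases hs.pred.le.eq_or_lt with h1 | h1
  · rw [h1]; exact ka_lt_la hs
  · exact hs.pred.lt h1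

theorem la_self (h : T.IsTr l) (hi : i < l) : T.la i ≤ T.b i := by
  rcases lt_or_ge i T.n with h1 | h1
  · exact h.phal.le i h1
  · exact (la_lt_nu (h.step i h1 hi)).le.trans (h.step i h1 hi).use.le

theorem im_fix (hs : T.Step j) {x : Ordinal.{u}} (hx : x < T.ka j) : T.im j x = x :=
  (hs.ext x (hx.trans hs.use.act.lt)).trans (hs.use.act.fix x hx)

theorem im_ka (hs : T.Step j) : T.im j (T.ka j) = T.la j := (hs.ext _ hs.use.act.lt).trans hs.la.symm

theorem st_eq (hs : T.Step j) (hd : ¬ T.Drop j) : T.st j = T.b (T.pr j) :=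
  le_antisymm hs.pred.st_le (not_lt.1 hd)

theorem im_strong (hs : T.Step j) :
    Strong (T.E (T.pr j)) (T.st j + 1) (T.E (j + 1)) (T.b (j + 1) + 1) (T.im j) :=
  hs.b ▸ hs.ult.toStrong

theorem use_pm (h : T.IsTr l) (hj : j ≤ l) (hu : T.Use j v k t e) : PM0 (T.E j) v :=
  KE.pm0_mono (pm h hj).toPM0 (hu.le.trans le_self_add)

/-- Agreement of node `j` with the earlier nodes. -/
def AgA (T : IT.{u}) (j : Ordinal.{u}) : Prop :=
  ∀ i < j, Agree (T.E i) (T.E j) (T.la i) ∧ T.la i ≤ T.b j ∧ IsCard (T.E j) (T.b j + 1) (T.la i)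

theorem ta_le (hA : AgA T j) (hi : i < j) (hu : Act (T.E j) v k t e) (hv : v ≤ T.b j)
    (hk : k < T.la i) : t ≤ T.la i :=
  le_of_top hu.top (hA i hi).2.2 hk ((hu.dom.le.trans hv).trans le_self_add)

theorem pred_pas0 (hA : AgA T j) (hu : T.Use j v k t e)
    (hp : T.Pred j k t p s) : Agree (T.E p) (T.E j) t := by
  rcases hp.le.eq_or_lt with rfl | h1
  · exact fun _ _ => rfl
  · exact ag_mono (hA p h1).1 (ta_le hA h1 hu.act hu.le (hp.lt h1))

theorem pred_ex (h : T.IsTr j) (hA : AgA T j) (hu : T.Use j v k t e) :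
    ∃ p s, T.Pred j k t p s := by
  obtain ⟨p, ⟨p1, p2⟩, p3⟩ := wellFounded_lt.has_min {i | i ≤ j ∧ (i < j → k < T.la i)}
    ⟨j, le_rfl, fun h => absurd h (lt_irrefl _)⟩
  have p4 : ∀ i < p, T.la i ≤ k := fun i hi => by
    by_contra hc
    exact p3 i ⟨hi.le.trans p1, fun _ => not_le.1 hc⟩ hi
  have p5 : t ≤ T.b p := by
    rcases p1.eq_or_lt with rfl | h1
    · exact hu.act.dom.le.trans hu.le
    · exact (ta_le hA h1 hu.act hu.le (p2 h1)).trans (la_self h h1)
  by_cases hx : ∃ a, t ≤ a ∧ a ≤ T.b p ∧ rho (T.E p) a ≤ k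
  · obtain ⟨a, ⟨a1, a2, a3⟩, a4⟩ := wellFounded_lt.has_min {a | t ≤ a ∧ a ≤ T.b p ∧
      rho (T.E p) a ≤ k} hx
    have a5 : Suc a := by
      by_contra hc
      rw [((pm h p1).ls a (lt_s a2)).2 hc] at a3
      exact absurd (a1.trans a3) (not_le.2 hu.act.lt)
    obtain ⟨s, rfl⟩ := a5
    refine ⟨p, s, p1, p2, p4, le_s (lt_of_le_of_ne a1 fun hc => act_nsuc' hu.act ⟨s, hc⟩),
      (s_lt a2).le, fun x x1 x2 => ?_, fun _ => a3⟩
    by_contra hc
    exact a4 x ⟨x1, x2.le.trans a2, not_lt.1 hc⟩ x2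
  · refine ⟨p, T.b p, p1, p2, p4, p5, le_rfl, fun x x1 x2 => ?_, fun h => absurd h (lt_irrefl _)⟩
    by_contra hc
    exact hx ⟨x, x1, le_s x2, not_lt.1 hc⟩

theorem pred_card_k (hA : AgA T j) (hu : T.Use j v k t e)
    (hp : T.Pred j k t p s) : IsCard (T.E p) (s + 1) k := fun a h1 h2 =>
  (lt_or_ge a t).elim (fun h3 => rho_ag (pred_pas0 hA hu hp) h3 ▸ hu.act.card a h1 h3)
    fun h3 => (hp.noproj a h3 h2).le

theorem card_la (h : T.IsTr l) (hn : T.n ≤ j) (hj : j < l) (hA : AgA T j) :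
    IsCard (T.E (j + 1)) (T.b (j + 1) + 1) (T.la j) := by
  have hs := h.step j hn hj
  have hG := KGoodSt.strong_good hs.ult.pm hs.ult.pm' hs.ult.toStrong
  have hk := hs.use.act.lt.trans_le hs.pred.ta_le
  intro a h1 h2
  rw [← im_ka hs] at h1 ⊢
  rw [hs.b] at h2
  rcases (le_s h2).eq_or_lt with rfl | h2
  · exact (hG.proj _ hs.ult.lt).le
  · exact hG.card _ _ hk hk (fun x x1 x2 => pred_card_k hA hs.use hs.pred x x1
      (x2.trans (lt_add_one _))) a h1 h2

theorem noproj_nu (h : T.IsTr l) (hn : T.n ≤ j) (hj : j < l) :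
    NoProj (T.E (j + 1)) (T.la j) (T.nu j) (T.b (j + 1) + 1) := by
  have hs := h.step j hn hj
  have hG := KGoodSt.strong_good hs.ult.pm hs.ult.pm' hs.ult.toStrong
  have hk := hs.use.act.lt.trans_le hs.pred.ta_le
  intro a h1 h2
  rw [← im_ka hs]
  rw [← hs.top] at h1
  rw [hs.b] at h2
  rcases (le_s h2).eq_or_lt with rfl | h2
  · exact hG.proj _ hs.ult.lt
  · have h3 : T.ta j < T.st j := (KE.w_lt hG.toWeak (lt_s hs.pred.ta_le) (lt_add_one _)).1
      (h1.trans_lt h2)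
    refine lt_of_lt_of_le ?_ (hG.card (T.ka j + 1) _ ((s_le hs.use.act.lt).trans_lt h3) h3
      (fun x x1 x2 => s_le (hs.pred.noproj x x1 (x2.trans (lt_add_one _)))) a h1 h2)
    exact (KE.w_lt hG.toWeak (lt_s hk.le) (lt_s (s_le hk))).2 (lt_add_one _)

theorem aga_succ (h : T.IsTr l) (hn : T.n ≤ j) (hj : j < l) (hA : AgA T j) : AgA T (j + 1) := by
  have hs := h.step j hn hj
  have h0 := ag_symm (ag_mono hs.agree (la_lt_nu hs).le)
  have h1 : T.la j ≤ T.b (j + 1) := by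
    rw [← im_ka hs, hs.b]
    exact (KE.w_le hs.ult.toWeak (lt_s (hs.use.act.lt.le.trans hs.pred.ta_le)) (lt_add_one _)).2
      (hs.use.act.lt.le.trans hs.pred.ta_le)
  intro i hi
  rcases (le_s hi).eq_or_lt with rfl | hi
  · exact ⟨h0, h1, card_la h hn hj hA⟩
  · have h2 := la_mono h hi.le hj
    refine ⟨ag_trans (hA i hi).1 (ag_mono h0 h2), h2.trans h1, fun a a1 a2 => ?_⟩
    rcases lt_or_ge a (T.la j) with h3 | h3
    · rw [← rho_ag h0 h3]
      exact (hA i hi).2.2 a a1 (lt_s (h3.le.trans (la_self h hj)))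
    · exact h2.trans (card_la h hn hj hA a h3 a2)

variable [CritSt.{u}]

theorem ta_lt (h : T.IsTr l) (hn : T.n ≤ i) (hi : i < j) (hj : j ≤ l) (hA : AgA T j)
    (hu : Act (T.E j) v k t e) (hv : v ≤ T.b j) (hk : k < T.la i) : t < T.la i := by
  have hs := h.step i hn (hi.trans_le hj)
  have hp := use_pm h (hi.le.trans hj) hs.use
  obtain ⟨y, y1, y2, y3⟩ := CritSt.crit_lim _ _ _ _ _ _ (ls_mono hp.ls hs.use.act.dom.le) hp.ls
    hs.use.act.toExt hs.use.act.fix hs.use.act.move (act_card hs.use.act) k (hs.la ▸ hk)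
  rw [← hs.la] at y2
  have h1 := ta_le hA hi hu hv hk
  exact (le_of_top (top_ag (ag_symm (ag_mono (hA i hi).1 h1)) hu.top) y3 y1
    (h1.trans (la_lt_nu hs).le)).trans_lt y2

variable [ActSt.{u}]

theorem pred_pas (h : T.IsTr j) (hA : AgA T j) (hu : T.Use j v k t e)
    (hp : T.Pred j k t p s) : Pas (T.E p) t := by
  have h0 := pas_ta (use_pm h le_rfl hu) hu.act
  rcases hp.le.eq_or_lt with rfl | h1
  · exact h0
  rcases (ta_le hA h1 hu.act hu.le (hp.lt h1)).eq_or_lt with h2 | h2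
  · rcases lt_or_ge p T.n with h3 | h3
    · exact h2 ▸ h.phal.pas p h3
    · exact absurd h2 (ta_lt h h3 h1 le_rfl hA hu.act hu.le (hp.lt h1)).ne
  · intro x y hxy
    rw [(hA p h1).1 t h2] at hxy
    exact h0 x y hxy

end Pool.Agent.KM.TA

namespace Pool.Agent.KM.TA

open Ordinal Tr IT

universe u

variable {T : IT.{u}} {a i j k l m c p s t v g : Ordinal.{u}} {e : Ordinal.{u} → Ordinal.{u}}

variable [CritSt.{u}] [FragSt.{u}]

theorem nontop (h : T.IsTr l) (hn : T.n ≤ i) (hi : i < j) (hj : j ≤ l) (hA : AgA T j)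
    (hu : Act (T.E j) v k t e) (hv : v < T.b j) (hl : T.la i ≤ e k) (hk : k < T.la i) :
    k < T.ka i := by
  by_contra hc
  have hs := h.step i hn (hi.trans_le hj)
  have h1 := FragSt.congr (ag_symm (hA i hi).1) (FragSt.strong (pm h hj).toPM0 hv hu (hA i hi).2.2
    (ta_lt h hn hi hj hA hu hv.le hk) hl)
  rw [hs.la] at h1 hk
  exact FragSt.small (use_pm h (hi.le.trans hj) hs.use) hs.use.act
    ((pm h (hi.le.trans hj)).small _ (lt_s hs.use.le) _ _ _ hs.use.act) (not_lt.1 hc) hk h1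

/-- The critical point of the top extender avoids the earlier intervals. -/
def TopA (T : IT.{u}) (j : Ordinal.{u}) : Prop :=
  ∀ k t e, Act (T.E j) (T.b j) k t e → ∀ i, T.n ≤ i → i < j → k < T.la i → k < T.ka i

theorem al_of (h : T.IsTr l) (hj : j ≤ l) (hA : AgA T j) (hT : TopA T j) (hu : T.Use j v k t e)
    (hn : T.n ≤ i) (hi : i < j) (hk : k < T.la i) : k < T.ka i := by
  rcases hu.le.eq_or_lt with rfl | hv
  · exact hT k t e hu.act i hn hi hk
  · exact nontop h hn hi hj hA hu.act hv (hu.inc i hi) hk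

end Pool.Agent.KM.TA
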