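import Pool.Agent.Lib.MP_5c0be7_lc.F.TreeA
import Pool.Agent.Lib.MP_5c0be7_lc.K.StTree

/-!
Project KM, block F8: the main induction along an iteration tree.
-/

namespace Pool.Agent.KM.TA

open Ordinal Tr IT

universe u

variable {T : IT.{u}} {a i j k l m c p s t v g : Ordinal.{u}} {e : Ordinal.{u} → Ordinal.{u}}

/-- Almost linearity at the steps below `l`. -/
def ALA (T : IT.{u}) (l : Ordinal.{u}) : Prop :=
  ∀ i j, T.n ≤ i → i < j → j < l → T.ka j < T.la i → T.ka j < T.ka i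

theorem pred_le_of (h : T.IsTr j) (hp : T.Pred j k t p s)
    (hal : ∀ i, T.n ≤ i → i < j → k < T.la i → k < T.ka i) : T.Le p j := by
  refine ⟨hp.le, fun d d1 d2 d3 => ?_⟩
  by_contra hc
  have h1 := hal d d3 d2 ((hp.lt (d1.trans_lt d2)).trans_le (la_mono h d1 d2))
  exact absurd (h1.trans (ka_lt (h.step d d3 d2))) (not_lt.2 (hp.min _ (not_le.1 hc)))

theorem pr_le_of (h : T.IsTr l) (hal : ALA T l) (hn : T.n ≤ j) (hj : j < l) : T.Le (T.pr j) j :=
  pred_le_of (h.mono hn hj.le) (h.step j hn hj).pred fun i i1 i2 => hal i j i1 i2 hj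

theorem cof_of (hn : T.n < c) (hc : Order.IsSuccLimit c) (h : ∀ j < c, T.n ≤ j → T.IsTr j)
    (hal : ALA T c) (ha : a < c) : ∃ m, a < m ∧ m < c ∧ T.Le m c := by
  wlog hna : T.n ≤ a generalizing a
  · obtain ⟨m, m1, m2⟩ := this hn le_rfl
    exact ⟨m, (not_le.1 hna).trans m1, m2⟩
  have ht : ∀ k, T.n ≤ k → k < c → T.IsTr (k + 1) := fun k k1 k2 =>
    h _ (hc.add_one_lt k2) (k1.trans le_self_add)
  obtain ⟨k0, ⟨k1, k2, k3⟩, k4⟩ := (InvImage.wf T.ka wellFounded_lt).has_min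
    {k | a ≤ k ∧ k < c ∧ T.pr k ≤ a} ⟨a, le_rfl, ha, (ht a hna ha).pr_le hna (lt_add_one a)⟩
  refine ⟨k0 + 1, lt_s k1, hc.add_one_lt k2, (hc.add_one_lt k2).le, fun k q1 q2 q3 => s_le ?_⟩
  have q4 := ht k q3 q2
  have q5 : ALA T (k + 1) := fun i j i1 i2 i3 => hal i j i1 i2 ((le_s i3).trans_lt q2)
  by_contra hc'
  have q6 := ((pr_le_of q4 q5 q3 (lt_add_one k)).2 k0 (not_lt.1 hc') (s_lt q1)
    (hna.trans k1)).trans k3
  exact k4 k ⟨k1.trans (s_lt q1).le, q2, q6⟩ (hal k0 k (hna.trans k1) (s_lt q1) q2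
    ((ka_lt (q4.step k q3 (lt_add_one k))).trans_le
      (la_mono q4 (q6.trans k1) (lt_s (s_lt q1).le))))

theorem nd_cof_of (h : T.IsTr l) (hn : T.n < c) (hc : Order.IsSuccLimit c) (hl : c ≤ l)
    (hal : ALA T c) (ha : a < c) : ∃ m, a < m ∧ m < c ∧ T.ND m c := by
  obtain ⟨m0, m1, m2⟩ := (h.lim c hn hl hc).ex
  obtain ⟨m, q1, q2, q3⟩ := cof_of hn hc (fun j j1 j2 => h.mono j2 (j1.le.trans hl)) hal
    (max_lt ha m1)
  exact ⟨m, (le_max_left _ _).trans_lt q1, q2, m2.tail ((le_max_right _ _).trans q1.le) q3⟩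

/-- The invariant of the main induction. -/
structure Inv (T : IT.{u}) (j : Ordinal.{u}) : Prop where
  ag : AgA T j
  top : TopA T j
  str : ∀ i, T.ND i j → Strong (T.E i) (T.b i + 1) (T.E j) (T.b j + 1) (T.mp i j)
  comp : ∀ i m, T.ND i m → T.ND m j → ∀ x ≤ T.b i, T.mp m j (T.mp i m x) = T.mp i j x
  fix : ∀ i h, T.ND i j → h ≤ T.b i + 1 →
    (∀ d, T.n ≤ d → i < d + 1 → T.Le (d + 1) j → h ≤ T.ka d) → ∀ x < h, T.mp i j x = x

theorem id_strong (h : T.IsTr l) (hj : j ≤ l) :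
    Strong (T.E j) (T.b j + 1) (T.E j) (T.b j + 1) (T.mp j j) :=
  KN.strong_congr KE.strong_id fun x hx => (mp_id h hj x (le_s hx)).symm

theorem Inv.fix_la (h : T.IsTr l) (hj : j ≤ l) (hI : Inv T j) (hA : AgA T i) (hn : T.ND i j)
    (hm : m < i) : ∀ x < T.la m, T.mp i j x = x :=
  hI.fix i _ hn ((hA m hm).2.1.trans le_self_add) fun d d1 d2 d3 =>
    (h.step d d1 ((s_lt d3.1).trans_le hj)).pred.min m
      (hm.trans_le (hn.1.2 d (le_s d2) (s_lt d3.1) d1))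

theorem inv_root (h : T.IsTr l) (hj : j ≤ T.n) : Inv T j := by
  have h1 : ∀ i, T.ND i j → i = j := fun i hi =>
    hi.le.eq_or_lt.resolve_right fun hc => absurd (hi.n_lt hc) (not_lt.2 hj)
  have h2 := hj.trans h.le
  refine ⟨fun i hi => ⟨h.phal.agree i j hi hj, h.phal.le' i j hi hj, h.phal.card i j hi hj⟩,
    fun k t e _ i i1 i2 => absurd (i2.trans_le hj) (not_lt.2 i1), fun i hi => ?_,
    fun i m hi hm x hx => ?_, fun i g hi hg _ x hx => ?_⟩
  · rw [h1 i hi]; exact id_strong h h2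
  · obtain rfl := h1 m hm
    obtain rfl := h1 i hi
    rw [mp_id h h2 x hx, mp_id h h2 x hx]
  · obtain rfl := h1 i hi
    exact mp_id h h2 x (le_s (hx.trans_le hg))

theorem onto_of (h : T.IsTr l) (hn : T.n < c) (hc : Order.IsSuccLimit c) (hl : c ≤ l)
    (hal : ALA T c) (ih : ∀ j < c, Inv T j) (ha : a < c) {y : Ordinal.{u}} (hy : y ≤ T.b c) :
    ∃ m, a < m ∧ m < c ∧ T.ND m c ∧ ∃ x ≤ T.b m, T.mp m c x = y := by
  have hL := h.lim c hn hl hc
  obtain ⟨i, i1, i2, x, x1, x2⟩ := hL.onto hy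
  obtain ⟨m, m1, m2, m3⟩ := nd_cof_of h hn hc hl hal (max_lt ha i1)
  have m4 := (le_max_right _ _).trans m1.le
  exact ⟨m, (le_max_left _ _).trans_lt m1, m2, m3, T.mp i m x,
    le_s (((ih m m2).str i (i2.cut m4 m3.1)).maps x (lt_s x1)),
    (hL.comm m4 m2 i2 m3 x x1).trans x2⟩

variable [CritSt.{u}] [FragSt.{u}]

theorem ala_of (h : T.IsTr l) (hc : c ≤ l) (ih : ∀ j < c, Inv T j) : ALA T c :=
  fun _ j i1 i2 i3 => al_of h (i3.le.trans hc) (ih j i3).ag (ih j i3).top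
    (h.step j (i1.trans i2.le) (i3.trans_le hc)).use i1 i2

variable [KActSt.{u}] [ActSt.{u}]

theorem inv_succ (h : T.IsTr l) (hn : T.n ≤ j) (hj : j < l) (ih : ∀ i < j + 1, Inv T i) :
    Inv T (j + 1) := by
  have hs := h.step j hn hj
  have hal := ala_of h (s_le hj) ih
  have hp : T.Le (T.pr j) j := pr_le_of (h.mono (hn.trans le_self_add) (s_le hj)) hal hn
    (lt_add_one j)
  have ip := ih _ (lt_s hp.1)
  have hA := aga_succ h hn hj (ih j (lt_add_one j)).ag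
  have hS : ∀ i, T.ND i (j + 1) →
      Strong (T.E i) (T.b i + 1) (T.E (j + 1)) (T.b (j + 1) + 1) (T.mp i (j + 1)) := by
    intro i hi
    rcases (nd_succ hn hp).1 hi with rfl | ⟨h1, h2⟩
    · exact id_strong h (s_le hj)
    · exact KN.strong_congr (KE.strong_comp (ip.str i h1) (st_eq hs h2 ▸ im_strong hs))
        fun x hx => (hs.mp i (h1.le.trans hp.1) hi x (le_s hx)).symm
  refine ⟨hA, fun k t e hu i i1 i2 i3 => ?_, hS, fun i m hi hm x hx => ?_,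
    fun i g hi hg H x hx => ?_⟩
  · rw [hs.b] at hu
    obtain ⟨k0, t0, e0, u0, rfl, -, -⟩ := KActSt.good_act_down hs.ult.pm hs.ult.pm'
      hs.ult.toStrong le_rfl hu
    have q0 := hs.use.act.lt.trans_le hs.pred.ta_le
    have q1 : k0 < T.ka j := by
      by_contra hc
      have := (KE.w_le hs.ult.toWeak (lt_s q0.le) (lt_s (u0.lt.trans u0.dom).le)).2 (not_lt.1 hc)
      rw [im_ka hs] at this
      exact absurd ((la_mono h (le_s i2) hj).trans this) (not_le.2 i3)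
    rw [im_fix hs q1] at i3 ⊢
    rcases (le_s i2).eq_or_lt with rfl | i2
    · exact q1
    rcases le_or_gt (T.pr j) i with q2 | q2
    · exact q1.trans (hal i j i1 i2 (lt_add_one j)
        ((ka_lt hs).trans_le (la_mono h q2 (i2.trans hj))))
    rcases hs.pred.st_le.eq_or_lt with q3 | q3
    · exact ip.top k0 t0 e0 (q3 ▸ u0) i i1 q2 i3
    · refine nontop h i1 q2 (hp.1.trans hj.le) ip.ag u0 q3 ((hs.pred.min i q2).trans ?_) i3
      exact le_la (ls_mono hs.ult.pm.ls le_self_add) u0 (card_mono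
        (pred_card_k (ih j (lt_add_one j)).ag hs.use hs.pred) le_self_add) q0
  · rcases (nd_succ hn hp).1 hm with rfl | ⟨h1, h2⟩
    · exact hs.id _ (le_s ((hS i hi).maps x (lt_s hx)))
    · have h3 := h1.le.trans hp.1
      rw [hs.mp m h3 hm _ (le_s (((ih m (lt_s h3)).str i hi).maps x (lt_s hx))),
        hs.mp i (hi.le.trans h3) (hi.trans hm) x hx, ip.comp i m hi h1 x hx]
  · rcases (nd_succ hn hp).1 hi with rfl | ⟨h1, h2⟩
    · exact hs.id x (le_s (hx.trans_le hg))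
    · have h3 := h1.le.trans hp.1
      rw [hs.mp i h3 hi x (le_s (hx.trans_le hg)), ip.fix i g h1 hg
        (fun d d1 d2 d3 => H d d1 d2 (d3.trans (pr_le_succ hn hp))) x hx]
      exact im_fix hs (hx.trans_le (H j hn (lt_s h3) Le.refl))

omit [ActSt.{u}] in
theorem inv_lim [AgreeSt.{u}] (h : T.IsTr l) (hn : T.n < c) (hc : Order.IsSuccLimit c)
    (hl : c ≤ l) (ih : ∀ j < c, Inv T j) : Inv T c := by
  have hL := h.lim c hn hl hc
  have hal := ala_of h hl ih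
  have hF : ∀ i g, T.ND i c → g ≤ T.b i + 1 →
      (∀ d, T.n ≤ d → i < d + 1 → T.Le (d + 1) c → g ≤ T.ka d) → ∀ x < g, T.mp i c x = x := by
    intro i g hi hg H x
    rcases hi.le.eq_or_lt with rfl | hic
    · exact fun hx => hL.id x (le_s (hx.trans_le hg))
    induction x using WellFoundedLT.induction with
    | ind x ihx =>
      intro hx
      have hS := hL.strong hic hi
      have x0 := hx.trans_le hg
      obtain ⟨m, m1, m2, m3, y, y1, y2⟩ := onto_of h hn hc hl hal ih hic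
        ((KE.w_self hS.toWeak x0).trans (le_s (hS.maps x x0)))
      have y3 : y ≤ x := y2 ▸ KE.w_self (hL.strong m2 m3).toWeak (lt_s y1)
      have y4 : T.mp i c y = x := by
        rw [← hL.comm m1.le m2 hi m3 y (y3.trans (le_s x0)), (ih m m2).fix i g (hi.cut m1.le m3.1)
          hg (fun d d1 d2 d3 => H d d1 d2 (d3.trans m3.1)) y (y3.trans_lt hx), y2]
      rcases y3.eq_or_lt with rfl | y3
      · exact y4
      · exact absurd ((ihx y y3 (y3.trans hx)).symm.trans y4) y3.ne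
  have hF' : ∀ i m, T.ND m c → i < m → m < c → ∀ x < T.la i, T.mp m c x = x :=
    fun i m hm him hmc => hF m _ hm (((ih m hmc).ag i him).2.1.trans le_self_add)
      fun d d1 d2 d3 => (h.step d d1 ((s_lt d3.1).trans_le hl)).pred.min i
        (him.trans_le (hm.1.2 d (le_s d2) (s_lt d3.1) d1))
  have hS : ∀ i, T.ND i c → Strong (T.E i) (T.b i + 1) (T.E c) (T.b c + 1) (T.mp i c) := by
    intro i hi
    rcases hi.le.eq_or_lt with rfl | hic
    · exact id_strong h hl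
    · exact hL.strong hic hi
  have hb : ∀ i, T.ND i c → T.b c = T.mp i c (T.b i) := fun i hi => KE.s1inj ((hS i hi).top _ rfl)
  refine ⟨fun i hi => ?_, fun k t e hu i i1 i2 i3 => ?_, hS, fun i m hi hm x hx => ?_, hF⟩
  · obtain ⟨m, m1, m2, m3⟩ := nd_cof_of h hn hc hl hal hi
    obtain ⟨a1, a2, -⟩ := (ih m m2).ag i m1
    refine ⟨ag_trans a1 (AgreeSt.of_fix (pm h (m2.le.trans hl)).toPM0 hL.pm.toPM0 (hS m m3).toWeak
      (a2.trans le_self_add) (hF' i m m3 m1 m2)),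
      a2.trans (hb m m3 ▸ KE.w_self (hS m m3).toWeak (lt_add_one _)), fun a a3 a4 => ?_⟩
    obtain ⟨m, m1, m2, m3, y, y1, rfl⟩ := onto_of h hn hc hl hal ih hi (le_s a4)
    obtain ⟨-, a2, a5⟩ := (ih m m2).ag i m1
    have y2 : T.la i ≤ y := by
      by_contra hc'
      rw [hF' i m m3 m1 m2 y (not_le.1 hc')] at a3
      exact hc' a3
    refine le_of_forall_lt fun z hz => ?_
    rw [← hF' i m m3 m1 m2 z hz]
    exact (KE.strong_rho (hb m m3 ▸ hS m m3) y1 (hz.le.trans a2)).2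
      (hz.trans_le (a5 y y2 (lt_s y1)))
  · obtain ⟨m, m1, m2, m3⟩ := nd_cof_of h hn hc hl hal i2
    rw [hb m m3] at hu
    obtain ⟨k0, t0, e0, u0, rfl, -, -⟩ := KActSt.good_act_down (pm h (m2.le.trans hl)).toPM0
      (hb m m3 ▸ hL.pm.toPM0) (hb m m3 ▸ hS m m3) le_rfl hu
    have q1 := (KE.w_self (hS m m3).toWeak (lt_s (u0.lt.trans u0.dom).le)).trans_lt i3
    rw [hF' i m m3 m1 m2 k0 q1]
    exact (ih m m2).top k0 t0 e0 u0 i i1 m1 q1
  · rcases hm.le.eq_or_lt with rfl | hmc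
    · exact hL.id _ (le_s ((hS i hi).maps x (lt_s hx)))
    · exact hL.comm hi.le hmc (hi.trans hm) hm x hx

variable [AgreeSt.{u}]

theorem inv (h : T.IsTr l) (hj : j ≤ l) : Inv T j := by
  induction j using WellFoundedLT.induction with
  | ind j ih =>
    rcases cases3 T j with h1 | ⟨k, h1, rfl⟩ | ⟨h1, h2⟩
    · exact inv_root h h1
    · exact inv_succ h h1 (s_lt hj) fun i hi => ih i hi (hi.le.trans hj)
    · exact inv_lim h h1 h2 hj fun i hi => ih i hi (hi.le.trans hj)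

theorem ala (h : T.IsTr l) : ALA T l := ala_of h le_rfl fun _ hj => inv h hj.le

theorem pr_le (h : T.IsTr l) (hn : T.n ≤ j) (hj : j < l) : T.Le (T.pr j) j :=
  pr_le_of h (ala h) hn hj

theorem al (h : T.IsTr j) (hu : T.Use j v k t e) (hn : T.n ≤ i) (hi : i < j) (hk : k < T.la i) :
    k < T.ka i := al_of h le_rfl (inv h le_rfl).ag (inv h le_rfl).top hu hn hi hk

theorem cof (hn : T.n < c) (hc : Order.IsSuccLimit c) (h : ∀ j < c, T.n ≤ j → T.IsTr j)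
    (ha : a < c) : ∃ m, a < m ∧ m < c ∧ T.Le m c :=
  cof_of hn hc h (fun i j i1 i2 i3 => ala (h _ (hc.add_one_lt i3)
    ((i1.trans i2.le).trans le_self_add)) i j i1 i2 (lt_add_one j)) ha

theorem nd_cof (h : T.IsTr l) (hn : T.n < c) (hc : Order.IsSuccLimit c) (hl : c ≤ l)
    (ha : a < c) : ∃ m, a < m ∧ m < c ∧ T.ND m c :=
  nd_cof_of h hn hc hl (ala (h.mono hn.le hl)) ha

theorem onto (h : T.IsTr l) (hn : T.n < c) (hc : Order.IsSuccLimit c) (hl : c ≤ l)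
    (ha : a < c) {y : Ordinal.{u}} (hy : y ≤ T.b c) :
    ∃ m, a < m ∧ m < c ∧ T.ND m c ∧ ∃ x ≤ T.b m, T.mp m c x = y :=
  onto_of h hn hc hl (ala (h.mono hn.le hl)) (fun _ hj => inv h (hj.le.trans hl)) ha hy

theorem fix (h : T.IsTr l) (hj : j ≤ l) (hn : T.ND i j) (hm : m < i) :
    ∀ x < T.la m, T.mp i j x = x :=
  (inv h hj).fix_la h hj (inv h (hn.le.trans hj)).ag hn hm

theorem mp_b (h : T.IsTr l) (hj : j ≤ l) (hn : T.ND i j) : T.mp i j (T.b i) = T.b j :=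
  (KE.s1inj (((inv h hj).str i hn).top _ rfl)).symm

theorem next_le (h : T.IsTr l) (hj : j ≤ l) (hi : T.Le i j) (hij : i < j)
    (hr : ∀ m, i < m → T.Le m j → T.n < m) :
    ∃ k, T.n ≤ k ∧ k < j ∧ T.pr k = i ∧ T.Le (k + 1) j := by
  obtain ⟨m, ⟨m1, m2⟩, m3⟩ := wellFounded_lt.has_min {m | i < m ∧ T.Le m j} ⟨j, hij, Le.refl⟩
  have m4 := hr m m1 m2
  rcases cases3 T m with h1 | ⟨k, h1, rfl⟩ | ⟨h1, h2⟩
  · exact absurd m4 (not_lt.2 h1)
  · have k1 := s_lt m2.1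
    have k2 := pr_le h h1 (k1.trans_le hj)
    refine ⟨k, h1, k1, le_antisymm ?_ (hi.2 k (le_s m1) k1 h1), m2⟩
    by_contra hc
    exact m3 _ ⟨not_le.1 hc, (pr_le_succ h1 k2).trans m2⟩ (lt_s k2.1)
  · obtain ⟨q, q1, q2, q3⟩ := cof h1 h2 (fun x x1 x2 => h.mono x2 (x1.le.trans (m2.1.trans hj))) m1
    exact absurd q2 (m3 q ⟨q1, q3.trans m2⟩)

theorem next (h : T.IsTr l) (hj : j ≤ l) (hi : T.ND i j) (hij : i < j) :
    ∃ k, T.n ≤ k ∧ k < j ∧ T.pr k = i ∧ ¬ T.Drop k ∧ T.ND (k + 1) j := by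
  obtain ⟨k, k1, k2, k3, k4⟩ := next_le h hj hi.1 hij fun m m1 m2 => (hi.2 m m1 m2).1
  have k5 : i < k + 1 := lt_s (k3 ▸ h.pr_le k1 (k2.trans_le hj))
  exact ⟨k, k1, k2, k3, (hi.2 _ k5 k4).2 k rfl, hi.tail k5.le k4⟩

theorem last (h : T.IsTr l) (hj : j ≤ l) :
    (∃ r, T.Root r j ∧ T.ND r j) ∨ ∃ k, T.n ≤ k ∧ k < j ∧ T.Drop k ∧ T.ND (k + 1) j := by
  obtain ⟨m, m1, m2⟩ := wellFounded_lt.has_min {m | T.ND m j} ⟨j, ND.refl⟩
  have m1 : T.ND m j := m1
  rcases cases3 T m with h1 | ⟨k, h1, rfl⟩ | ⟨h1, h2⟩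
  · exact Or.inl ⟨m, m1.root h1, m1⟩
  · refine Or.inr ⟨k, h1, s_lt m1.le, ?_, m1⟩
    by_contra hc
    have k2 := pr_le h h1 ((s_lt m1.le).trans_le hj)
    exact m2 _ ((nd_pr h1 k2 hc).trans m1) (lt_s k2.1)
  · obtain ⟨q, q1, q2⟩ := (h.lim m h1 (m1.le.trans hj) h2).ex
    exact absurd q1 (m2 q (q2.trans m1))

theorem ind (P : Ordinal.{u} → Prop) (h : T.IsTr l) (h0 : P i)
    (h1 : ∀ k, T.n ≤ k → k < l → i ≤ k → T.ND i (k + 1) → T.ND i (T.pr k) → ¬ T.Drop k →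
      P (T.pr k) → P (k + 1))
    (h2 : ∀ c, Order.IsSuccLimit c → T.n < c → c ≤ l → i < c → T.ND i c →
      (∀ m < c, i ≤ m → T.ND m c → P m) → P c) : ∀ j ≤ l, T.ND i j → P j := by
  intro j
  induction j using WellFoundedLT.induction with
  | ind j ih =>
    intro hj hi
    rcases hi.le.eq_or_lt with rfl | hij
    · exact h0
    rcases cases3 T j with q1 | ⟨k, q1, rfl⟩ | ⟨q1, q2⟩
    · exact absurd (hi.n_lt hij) (not_lt.2 q1)
    · have k2 := pr_le h q1 (s_lt hj)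
      obtain ⟨q2, q3⟩ := ((nd_succ q1 k2).1 hi).resolve_left hij.ne
      exact h1 k q1 (s_lt hj) (le_s hij) hi q2 q3
        (ih _ (lt_s k2.1) (k2.1.trans (s_lt hj).le) q2)
    · exact h2 j q2 q1 hj hij hi fun m m1 m2 m3 => ih m m1 (m1.le.trans hj) (hi.cut m2 m3.1)

end Pool.Agent.KM.TA
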