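import Pool.Agent.Lib.MP_5c0be7_lc.F.TreeB

/-!
Project KM, block F8: predecessors, normal trees, and the instances `TreeSt`, `KTreeSt`.
-/

namespace Pool.Agent.KM

namespace TA

open Ordinal Tr IT

universe u

variable {T : IT.{u}} {a d i j k l m c p s t v g : Ordinal.{u}} {e : Ordinal.{u} → Ordinal.{u}}

variable [CritSt.{u}] [FragSt.{u}] [KActSt.{u}] [ActSt.{u}] [AgreeSt.{u}]

theorem aga (h : T.IsTr l) (hj : j ≤ l) : AgA T j := (inv h hj).ag

theorem la_le (h : T.IsTr l) (hi : i < l) (hij : i ≤ j) (hj : j ≤ l) : T.la i ≤ T.b j := by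
  rcases hij.eq_or_lt with rfl | hij
  · exact la_self h hi
  · exact (aga h hj i hij).2.1

theorem pred_le (h : T.IsTr j) (hu : T.Use j v k t e) (hp : T.Pred j k t p s) : T.Le p j :=
  pred_le_of h hp fun _ => al h hu

theorem pred_ta (h : T.IsTr j) (hu : T.Use j v k t e) (hp : T.Pred j k t p s) (hj : p < j) :
    t ≤ T.la p := ta_le (aga h le_rfl) hj hu.act hu.le (hp.lt hj)

theorem pred_ka (h : T.IsTr j) (hu : T.Use j v k t e) (hp : T.Pred j k t p s) (hn : T.n ≤ d)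
    (hd : p ≤ d) (hj : d < j) : k < T.ka d ∧ t ≤ T.ka d := by
  have h1 := la_mono h hd hj
  have h2 := al h hu hn hj ((hp.lt (hd.trans_lt hj)).trans_le h1)
  have h3 := (pred_ta h hu hp (hd.trans_lt hj)).trans h1
  have hs := h.step d hn hj
  exact ⟨h2, le_of_top (top_ag (ag_symm (ag_mono (aga h le_rfl d hj).1 h3)) hu.act.top)
    (act_card hs.use.act) h2 (h3.trans (la_lt_nu hs).le)⟩

theorem pred_next (h : T.IsTr j) (hu : T.Use j v k t e) (hp : T.Pred j k t p s) (hm : p < m)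
    (hj : m ≤ j) : IsNext (T.E m) (T.b m + 1) k t ∧ IsCard (T.E m) (T.b m + 1) k ∧ t ≤ T.b m := by
  have hpj := hm.trans_le hj
  obtain ⟨a1, a2, a3⟩ := aga h hj p hm
  have a4 : Agree (T.E j) (T.E m) (T.la p) := ag_trans (ag_symm (aga h le_rfl p hpj).1) a1
  have a5 := pred_ta h hu hp hpj
  have a6 : NoProj (T.E m) k t (T.b m + 1) := fun a h1 h2 => by
    rcases lt_or_ge a (T.la p) with h3 | h3
    · rw [← rho_ag a4 h3]
      exact hu.act.next a h1 ((h3.trans_le (hu.inc p hpj)).trans (act_la hu.act))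
    · exact (hp.lt hpj).trans_le (a3 a h3 h2)
  refine ⟨⟨hu.act.lt, (a5.trans a2).trans le_self_add, top_ag (ag_mono a4 a5) hu.act.top, a6⟩,
    fun a h1 h2 => ?_, a5.trans a2⟩
  rcases lt_or_ge a t with h3 | h3
  · rw [← rho_ag a4 (h3.trans_le a5)]; exact hu.act.card a h1 h3
  · exact (a6 a h3 h2).le

theorem pred_app (h : T.IsTr j) (hu : T.Use j v k t e) (hp : T.Pred j k t p s) :
    IsNext (T.E p) (s + 1) k t :=
  ⟨hu.act.lt, hp.ta_le.trans le_self_add,
    top_ag (ag_symm (pred_pas0 (aga h le_rfl) hu hp)) hu.act.top, hp.noproj⟩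

theorem pred_st (h : T.IsTr j) (hu : T.Use j v k t e) (hp : T.Pred j k t p s) :
    (p = j → v ≤ s) ∧ (T.n ≤ p → p < j → T.nu p ≤ s) := by
  refine ⟨?_, fun h1 h2 => ?_⟩
  · rintro rfl
    by_contra hc
    have hc := not_le.1 hc
    exact absurd (hp.max (hc.trans_le hu.le))
      (not_le.2 (hu.act.next _ (hp.ta_le.trans le_self_add) (act_succ hu.act hc)))
  · by_contra hc
    have hc := not_le.1 hc
    have hs := h.step p h1 h2
    have h3 := hp.max (hc.trans_le hs.use.le)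
    rcases lt_or_ge (s + 1) (T.la p) with h4 | h4
    · rw [rho_ag (aga h le_rfl p h2).1 h4] at h3
      exact absurd h3 (not_le.2 (hu.act.next _ (hp.ta_le.trans le_self_add)
        ((h4.trans_le (hu.inc p h2)).trans (act_la hu.act))))
    · have h5 := ActSt.card (use_pm h h2.le hs.use).ls hs.use.act
      rw [← hs.la] at h5
      exact absurd ((h5 _ h4 (act_succ hs.use.act hc)).trans h3) (not_le.2 (hp.lt h2))

omit [CritSt.{u}] [FragSt.{u}] [KActSt.{u}] [ActSt.{u}] [AgreeSt.{u}] in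
theorem nu_le_b (hs : T.Step i) : T.nu i ≤ T.b (i + 1) := by
  rw [← hs.top, hs.b]
  exact (KE.w_le hs.ult.toWeak (lt_s hs.pred.ta_le) (lt_add_one _)).2 hs.pred.ta_le

theorem nu_pas (h : T.IsTr l) (hn : T.n ≤ i) (hi : i < l) : Pas (T.E (i + 1)) (T.nu i) := by
  have hs := h.step i hn hi
  refine (hs.pm.act _ (lt_s (nu_le_b hs))).resolve_right ?_
  rintro ⟨k, t, e, hu⟩
  rw [← hs.top] at hu
  obtain ⟨k0, t0, e0, u0, -⟩ := KActSt.good_act_down hs.ult.pm hs.ult.pm' hs.ult.toStrong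
    hs.pred.ta_le hu
  exact act_npas u0 (pred_pas (h.mono hn hi.le) (aga h hi.le) hs.use hs.pred)

omit [CritSt.{u}] [FragSt.{u}] [KActSt.{u}] [AgreeSt.{u}] in
theorem nu_top (h : T.IsTr l) (hn : T.n ≤ i) (hi : i < l) :
    TopC (T.E (i + 1)) (T.la i) (T.nu i) := by
  have hs := h.step i hn hi
  rw [hs.la]
  exact top_ag (ag_symm hs.agree) (ActSt.top (use_pm h hi.le hs.use).ls hs.use.act)

theorem nu_next (h : T.IsTr l) (hn : T.n ≤ i) (hi : i < l) :
    IsNext (T.E (i + 1)) (T.b (i + 1) + 1) (T.la i) (T.nu i) :=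
  ⟨la_lt_nu (h.step i hn hi), (nu_le_b (h.step i hn hi)).trans le_self_add, nu_top h hn hi,
    noproj_nu h hn hi⟩

/-- An index above `nu i` at node `i + 1` has its image of the critical point above `nu i`. -/
theorem nu_lt_of (h : T.IsTr l) (hn : T.n ≤ i) (hi : i < l) (hu : Act (T.E (i + 1)) v k t e)
    (hv : v ≤ T.b (i + 1)) (hi' : T.nu i < v) : T.nu i < e k := by
  have hp := KE.pm0_mono (pm h (s_le hi)).toPM0 (hv.trans le_self_add)
  have h1 : T.la i < e k := by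
    by_contra hc
    obtain ⟨a, a1, a2, a3⟩ := ActSt.top hp.ls hu _ hi'
    exact absurd (a3.trans (not_lt.1 hc))
      (not_le.2 (noproj_nu h hn hi a a1 (lt_s (a2.le.trans hv))))
  obtain ⟨y, y1, y2, y3⟩ := CritSt.crit_lim _ _ _ _ _ _ (ls_mono hp.ls hu.dom.le) hp.ls
    hu.toExt hu.fix hu.move (act_card hu) _ h1
  exact (le_of_top (nu_top h hn hi) y3 y1 hi'.le).trans_lt y2

theorem nu_lt (h : T.IsTr l) (hN : T.Normal l) (hn : T.n ≤ i) (hi : i < j) (hj : j < l) :
    T.nu i < T.la j := by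
  have h1 := (s_le hi).trans_lt hj
  have hs := h.step _ (hn.trans le_self_add) h1
  refine lt_of_lt_of_le ?_ (la_mono h (s_le hi) hj)
  rw [hs.la]
  exact nu_lt_of h hn (hi.trans hj) hs.use.act hs.use.le (hN i _ hn (lt_add_one i) h1)

variable [AccSt.{u}]

theorem nu_card (h : T.IsTr l) (hn : T.n ≤ i) (hi : i < l) :
    IsCard (T.E (i + 1)) (T.b (i + 1) + 1) (T.nu i) :=
  AccSt.next_card _ _ _ _ (pm h (s_le hi)).ls (nu_next h hn hi)

theorem nu_agree (h : T.IsTr l) (hN : T.Normal l) (hn : T.n ≤ i) (hi : i < j) (hj : j ≤ l) :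
    Agree (T.E i) (T.E j) (T.nu i) ∧ Pas (T.E j) (T.nu i) ∧ T.nu i ≤ T.b j ∧
      IsCard (T.E j) (T.b j + 1) (T.nu i) := by
  have hl := hi.trans_le hj
  have hs := h.step i hn hl
  rcases (s_le hi).eq_or_lt with rfl | h1
  · exact ⟨ag_symm hs.agree, nu_pas h hn hl, nu_le_b hs, nu_card h hn hl⟩
  obtain ⟨a1, a2, a3⟩ := aga h hj _ h1
  have a4 := nu_lt h hN hn (lt_add_one i) (h1.trans_le hj)
  refine ⟨ag_trans (ag_symm hs.agree) (ag_mono a1 a4.le), fun x y hxy => ?_, a4.le.trans a2,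
    fun a h2 h3 => ?_⟩
  · rw [← a1 _ a4] at hxy
    exact nu_pas h hn hl x y hxy
  · rcases lt_or_ge a (T.la (i + 1)) with h4 | h4
    · rw [← rho_ag a1 h4]
      exact nu_card h hn hl a h2 (lt_s (h4.le.trans (la_self h (h1.trans_le hj))))
    · exact a4.le.trans (a3 a h4 h3)

end TA

open TA IT

universe u

variable [CritSt.{u}] [FragSt.{u}] [KActSt.{u}] [ActSt.{u}] [AgreeSt.{u}]

instance : KTreeSt.{u} where
  le_pr := pred_le
  mc h hu hp hm hj :=
    let ⟨h1, h2, h3⟩ := pred_next h hu hp hm hj.1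
    ⟨h1, h2, h3, pred_ta h hu hp (hm.trans_le hj.1), fun _ d1 d2 =>
      (pred_ka h hu hp d1 (le_s (d2 ▸ hm)) (s_lt (d2 ▸ hj.1))).2⟩
  app h hu hp := ⟨pred_app h hu hp, pred_pas0 (aga h le_rfl) hu hp⟩
  cof hn hc h := cof hn hc h
  mp_strong h hj := (inv h hj).str _
  mp_comp h hj := (inv h hj).comp _ _
  mp_fix h hj hn hx H := (inv h hj).fix _ _ hn (s_le (lt_s hx))
    (fun d d1 d2 d3 => s_le (H d d1 d2 d3)) _ (lt_add_one _)

variable [AccSt.{u}] [UltActSt.{u}]

instance : TreeSt.{u} where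
  pm := pm
  la_mono := la_mono
  la_le := la_le
  agree h hi hj := (aga h hj _ hi).1
  card h hi hj := (aga h hj _ hi).2.2
  strong h hj := (inv h hj).str _
  comp h hj := (inv h hj).comp _ _
  fix := fix
  al := al
  pred_ex h := pred_ex h (aga h le_rfl)
  pred_le := pred_le
  pred_agree h hu hp :=
    ⟨pred_pas0 (aga h le_rfl) hu hp, pred_pas h (aga h le_rfl) hu hp, pred_ta h hu hp⟩
  pred_ext h hu hp := UltActSt.ext hu.act (use_pm h le_rfl hu).ls (pred_pas0 (aga h le_rfl) hu hp)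
  pred_ka := pred_ka
  pred_card h hu hp hm hj := AccSt.next_card _ _ _ _ (pm h hj).ls (pred_next h hu hp hm hj).1
  pred_st := pred_st
  cof hn hc h _ := cof hn hc h
  next := next
  last := last
  ind := ind
  nu_agree := nu_agree
  nu_le h hN hn hi hj := (nu_lt h hN hn hi hj).le

end Pool.Agent.KM
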